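import Mathlib

/-!
# A weak form of Eggert's conjecture, core part

`K` a field of characteristic `p`, `B` a commutative `K`-algebra, `V` a finite-dimensional subspace closed
under multiplication, `z ∈ V` nilpotent and generic in the sense of `Gen`.  Then
`(p + 1) * dim span {x ^ p | x ∈ V} ≤ 2 * dim V`.
-/

set_option autoImplicit false

namespace Pool.Agent.H20.Eggert

variable {K : Type*} [Field K] {B : Type*} [CommRing B] [Algebra K B]

/-- `A_j = {x ∈ V | z ^ j * x = 0}`. -/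
def ann (V : Submodule K B) (z : B) (j : ℕ) : Submodule K B :=
  V ⊓ LinearMap.ker (LinearMap.mulLeft K (z ^ j))

lemma mem_ann {V : Submodule K B} {z : B} {j : ℕ} {x : B} :
    x ∈ ann V z j ↔ x ∈ V ∧ z ^ j * x = 0 := by
  simp [ann]

/-- genericity of `z`, the form in which it is used. -/
def Gen (p : ℕ) (V : Submodule K B) (z : B) : Prop :=
  ∀ j : ℕ, ¬ p ∣ j + 1 → ∀ v ∈ V, ∀ x ∈ V, z ^ (j + 1) * x = 0 →
    ∃ w ∈ V, z ^ j * (v * x + z * w) = 0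

/-- `T k e = Σ_{i ≤ k} z ^ i A_{e + 2 i}`. -/
def T (V : Submodule K B) (z : B) : ℕ → ℕ → B → Prop
  | 0, e, y => y ∈ V ∧ z ^ e * y = 0
  | k + 1, e, y => ∃ w b, T V z k (e + 2) w ∧ T V z k e b ∧ y = z * w + b

lemma gen_mul {p : ℕ} {V : Submodule K B} {z : B} (hV : ∀ x ∈ V, ∀ y ∈ V, x * y ∈ V) (hz : z ∈ V)
    (hG : Gen p V z) {j : ℕ} (hj : ¬ p ∣ j + 1) {v x : B} (hv : v ∈ V) (hx : x ∈ V)
    (h0 : z ^ (j + 1) * x = 0) :
    ∃ w b, (w ∈ V ∧ z ^ (j + 2) * w = 0) ∧ (b ∈ V ∧ z ^ j * b = 0) ∧ v * x = z * w + b := by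
  obtain ⟨w, hw, hw0⟩ := hG j hj v hv x hx h0
  refine ⟨-w, v * x + z * w, ⟨V.neg_mem hw, ?_⟩, ⟨V.add_mem (hV _ hv _ hx) (hV _ hz _ hw), hw0⟩, by ring⟩
  have h1 : z ^ (j + 2) * -w = v * (z ^ (j + 1) * x) - z * (z ^ j * (v * x + z * w)) := by ring
  rw [h1, h0, hw0]; simp

lemma T_mul {p : ℕ} {V : Submodule K B} {z : B} (hV : ∀ x ∈ V, ∀ y ∈ V, x * y ∈ V) (hz : z ∈ V)
    (hG : Gen p V z) {x : B} (hx : x ∈ V) :
    ∀ (k e : ℕ) (y : B), (∀ i ≤ k, ¬ p ∣ e + 1 + 2 * i) → T V z k (e + 1) y → T V z (k + 1) e (x * y)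
  | 0, e, y, hp, hy => by
    obtain ⟨hyV, hy0⟩ := hy
    obtain ⟨w, b, hw, hb, h⟩ := gen_mul hV hz hG (hp 0 le_rfl) hx hyV hy0
    exact ⟨w, b, hw, hb, h⟩
  | k + 1, e, y, hp, hy => by
    obtain ⟨w, b, hw, hb, rfl⟩ := hy
    have h1 := T_mul hV hz hG hx k (e + 2) w
      (fun i hi => by have := hp (i + 1) (by omega); rwa [show e + 1 + 2 * (i + 1) = e + 2 + 1 + 2 * i by ring] at this)
      (by simpa [add_assoc] using hw)
    have h2 := T_mul hV hz hG hx k e b (fun i hi => hp i (by omega)) hb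
    exact ⟨x * w, x * b, h1, h2, by ring⟩

lemma T_orth {V : Submodule K B} {z : B} :
    ∀ (k k' e e' M : ℕ) (y y' : B), e + e' ≤ 2 * M + 1 → T V z k e y → T V z k' e' y' →
      z ^ M * (y * y') = 0
  | 0, 0, e, e', M, y, y', h, hy, hy' => by
    obtain ⟨-, hy0⟩ := hy
    obtain ⟨-, hy0'⟩ := hy'
    rcases Nat.lt_or_ge M e with h1 | h1
    · obtain ⟨c, rfl⟩ := Nat.exists_eq_add_of_le (show e' ≤ M by omega)
      rw [pow_add, show z ^ e' * z ^ c * (y * y') = z ^ c * y * (z ^ e' * y') by ring, hy0']; simp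
    · obtain ⟨c, rfl⟩ := Nat.exists_eq_add_of_le h1
      rw [pow_add, show z ^ e * z ^ c * (y * y') = z ^ c * y' * (z ^ e * y) by ring, hy0]; simp
  | 0, k' + 1, e, e', M, y, y', h, hy, hy' => by
    obtain ⟨w, b, hw, hb, rfl⟩ := hy'
    have h1 := T_orth 0 k' e (e' + 2) (M + 1) y w (by omega) hy hw
    have h2 := T_orth 0 k' e e' M y b h hy hb
    have h3 : z ^ M * (y * (z * w + b)) = z ^ (M + 1) * (y * w) + z ^ M * (y * b) := by ring
    rw [h3, h1, h2]; simp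
  | k + 1, k', e, e', M, y, y', h, hy, hy' => by
    obtain ⟨w, b, hw, hb, rfl⟩ := hy
    have h1 := T_orth k k' (e + 2) e' (M + 1) w y' (by omega) hw hy'
    have h2 := T_orth k k' e e' M b y' h hb hy'
    have h3 : z ^ M * ((z * w + b) * y') = z ^ (M + 1) * (w * y') + z ^ M * (b * y') := by ring
    rw [h3, h1, h2]; simp

lemma T_pow {p : ℕ} {V : Submodule K B} {z : B} (hV : ∀ x ∈ V, ∀ y ∈ V, x * y ∈ V) (hz : z ∈ V)
    (hG : Gen p V z) {t m : ℕ} (hm : 2 * m + 1 ≤ p) {x : B} (hx : x ∈ V)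
    (hx0 : z ^ (p * t + m) * x = 0) :
    ∀ k ≤ m, T V z k (p * t + (m - k)) (x ^ (k + 1))
  | 0, _ => by simpa [T] using ⟨hx, hx0⟩
  | k + 1, hk => by
    have ih := T_pow hV hz hG hm hx hx0 k (by omega)
    have h1 := T_mul hV hz hG hx k (p * t + (m - (k + 1))) (x ^ (k + 1)) (by
      intro i hi hdvd
      have h2 : p * t + (m - (k + 1)) + 1 + 2 * i = p * t + (m - k + 2 * i) := by omega
      rw [h2, Nat.dvd_add_right (Dvd.intro t rfl)] at hdvd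
      have h3 := Nat.le_of_dvd (by omega) hdvd
      omega) (by
      have h2 : p * t + (m - (k + 1)) + 1 = p * t + (m - k) := by omega
      rw [h2]; exact ih)
    have h2 : x ^ (k + 1 + 1) = x * x ^ (k + 1) := by ring
    rw [h2]; exact h1

lemma pow_eq_zero_odd {p : ℕ} {V : Submodule K B} {z : B} (hV : ∀ x ∈ V, ∀ y ∈ V, x * y ∈ V)
    (hz : z ∈ V) (hG : Gen p V z) {t m : ℕ} (hm : 2 * m + 1 = p) (hm0 : 0 < m) {x : B} (hx : x ∈ V)
    (hx0 : z ^ (p * t + m) * x = 0) : z ^ (p * t) * x ^ p = 0 := by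
  obtain ⟨n, rfl⟩ : ∃ n, m = n + 1 := ⟨m - 1, by omega⟩
  have h1 := T_pow hV hz hG hm.le hx hx0 (n + 1) le_rfl
  have h2 := T_pow hV hz hG hm.le hx hx0 n (by omega)
  have h3 := T_orth (n + 1) n _ _ (p * t) _ _ (by omega) h1 h2
  rw [← pow_add] at h3
  rwa [show n + 1 + 1 + (n + 1) = p by omega] at h3

end Pool.Agent.H20.Eggert
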