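import Pool.Agent.H20.EggertCore

set_option autoImplicit false

namespace Pool.Agent.H20.Eggert

open Module

variable {K : Type*} [Field K] {B : Type*} [CommRing B] [Algebra K B] [FiniteDimensional K B]

lemma finrank_span_image_le {p : ℕ} (F : B →+ B) (hF : ∀ (c : K) x, F (c • x) = c ^ p • F x)
    (C : Submodule K B) :
    finrank K (Submodule.span K (F '' (C : Set B))) ≤ finrank K C := by
  classical
  let b := Module.finBasis K C
  have h1 : Submodule.span K (F '' (C : Set B)) ≤
      Submodule.span K (Set.range fun i => F (b i : B)) := by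
    rw [Submodule.span_le]
    rintro _ ⟨x, hx, rfl⟩
    have h2 : x = ∑ i, b.repr ⟨x, hx⟩ i • (b i : B) := by
      have h3 := congrArg (Subtype.val) (b.sum_repr ⟨x, hx⟩)
      rw [Submodule.coe_sum] at h3
      exact h3.symm
    rw [h2, map_sum]
    refine Submodule.sum_mem _ fun i _ => ?_
    rw [hF]
    exact Submodule.smul_mem _ _ (Submodule.subset_span ⟨i, rfl⟩)
  calc _ ≤ finrank K (Submodule.span K (Set.range fun i => F (b i : B))) := Submodule.finrank_mono h1
    _ ≤ Fintype.card (Fin (finrank K C)) := finrank_range_le_card _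
    _ = _ := by simp

lemma count {p : ℕ} (F : B →+ B) (hF : ∀ (c : K) x, F (c • x) = c ^ p • F x)
    {V W U : Submodule K B} (hWV : W ≤ V) (hW : ∀ x ∈ W, F x ∈ U) :
    finrank K (Submodule.span K (F '' (V : Set B))) + finrank K W ≤ finrank K U + finrank K V := by
  obtain ⟨C', hC'⟩ := exists_isCompl W
  have h1 : finrank K (V ⊓ C' : Submodule K B) + finrank K W = finrank K V := by
    have h2 : W ⊔ (V ⊓ C') = V := by
      rw [inf_comm, ← sup_inf_assoc_of_le C' hWV, hC'.sup_eq_top, top_inf_eq]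
    have h3 : W ⊓ (V ⊓ C') = ⊥ := by
      rw [inf_comm V, ← inf_assoc, hC'.inf_eq_bot, bot_inf_eq]
    have h4 := Submodule.finrank_sup_add_finrank_inf_eq W (V ⊓ C')
    rw [h2, h3, finrank_bot] at h4
    omega
  have h5 : Submodule.span K (F '' (V : Set B)) ≤
      Submodule.span K (F '' ((V ⊓ C' : Submodule K B) : Set B)) ⊔ U := by
    rw [Submodule.span_le]
    rintro _ ⟨x, hx, rfl⟩
    have h2 : W ⊔ (V ⊓ C') = V := by
      rw [inf_comm, ← sup_inf_assoc_of_le C' hWV, hC'.sup_eq_top, top_inf_eq]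
    have hx' : x ∈ W ⊔ (V ⊓ C') := by rw [h2]; exact hx
    obtain ⟨w, hw, c, hc, rfl⟩ := Submodule.mem_sup.1 hx'
    rw [map_add]
    exact Submodule.add_mem _ (Submodule.mem_sup_right (hW w hw))
      (Submodule.mem_sup_left (Submodule.subset_span ⟨c, hc, rfl⟩))
  have h6 := Submodule.finrank_mono h5
  have h7 := Submodule.finrank_add_le_finrank_add_finrank
    (Submodule.span K (F '' ((V ⊓ C' : Submodule K B) : Set B))) U
  have h8 := finrank_span_image_le F hF (V ⊓ C')
  omega

lemma finrank_map_add (N : Submodule K B) (f : B →ₗ[K] B) :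
    finrank K (N.map f) + finrank K (N ⊓ LinearMap.ker f : Submodule K B) = finrank K N := by
  have h1 := (f.domRestrict N).finrank_range_add_finrank_ker
  have h2 : LinearMap.range (f.domRestrict N) = N.map f := by
    ext y; simp [LinearMap.domRestrict, Submodule.mem_map]
  have h3 : finrank K (LinearMap.ker (f.domRestrict N)) =
      finrank K (N ⊓ LinearMap.ker f : Submodule K B) := by
    have h4 : (LinearMap.ker (f.domRestrict N)).map N.subtype = (N ⊓ LinearMap.ker f) := by
      ext y
      simp only [Submodule.mem_map, LinearMap.mem_ker, LinearMap.domRestrict_apply,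
        Submodule.subtype_apply, Subtype.exists, exists_and_left, exists_prop, Submodule.mem_inf]
      constructor
      · rintro ⟨x, hx, hx', rfl⟩; exact ⟨hx', hx⟩
      · rintro ⟨h, h'⟩; exact ⟨y, h', h, rfl⟩
    rw [← h4]
    exact (LinearEquiv.finrank_eq (Submodule.equivMapOfInjective _ N.injective_subtype _))
  rw [h2, h3] at h1
  exact h1

lemma finrank_sup_ann {V : Submodule K B} {z : B} (hV : ∀ x ∈ V, ∀ y ∈ V, x * y ∈ V) (hz : z ∈ V)
    (j : ℕ) :
    finrank K (ann V z j ⊔ V.map (LinearMap.mulLeft K z) : Submodule K B) +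
      finrank K (ann V z (j + 1)) = finrank K V + finrank K (ann V z j) := by
  have h1 := finrank_map_add V (LinearMap.mulLeft K z)
  have h2 := finrank_map_add (ann V z (j + 1)) (LinearMap.mulLeft K z)
  have h3 : ann V z (j + 1) ⊓ LinearMap.ker (LinearMap.mulLeft K z) =
      V ⊓ LinearMap.ker (LinearMap.mulLeft K z) := by
    ext x
    simp only [Submodule.mem_inf, mem_ann, LinearMap.mem_ker, LinearMap.mulLeft_apply]
    constructor
    · rintro ⟨⟨h, -⟩, h'⟩; exact ⟨h, h'⟩
    · rintro ⟨h, h'⟩; exact ⟨⟨h, by rw [pow_succ, mul_assoc, h', mul_zero]⟩, h'⟩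
  have h4 : ann V z j ⊓ V.map (LinearMap.mulLeft K z) =
      (ann V z (j + 1)).map (LinearMap.mulLeft K z) := by
    ext x
    simp only [Submodule.mem_inf, mem_ann, Submodule.mem_map, LinearMap.mulLeft_apply]
    constructor
    · rintro ⟨⟨h, h'⟩, y, hy, rfl⟩
      exact ⟨y, ⟨hy, by rw [pow_succ, mul_assoc, h']⟩, rfl⟩
    · rintro ⟨y, ⟨hy, hy'⟩, rfl⟩
      exact ⟨⟨hV _ hz _ hy, by rw [← mul_assoc, ← pow_succ, hy']⟩, y, hy, rfl⟩
  have h5 := Submodule.finrank_sup_add_finrank_inf_eq (ann V z j) (V.map (LinearMap.mulLeft K z))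
  rw [h3] at h2
  rw [h4] at h5
  omega

omit [FiniteDimensional K B] in
lemma ann_mono {V : Submodule K B} {z : B} {i j : ℕ} (h : i ≤ j) : ann V z i ≤ ann V z j := by
  intro x hx
  rw [mem_ann] at hx ⊢
  obtain ⟨c, rfl⟩ := Nat.exists_eq_add_of_le h
  exact ⟨hx.1, by rw [add_comm, pow_add, mul_assoc, hx.2, mul_zero]⟩

lemma ann_concave {V : Submodule K B} {z : B} (hV : ∀ x ∈ V, ∀ y ∈ V, x * y ∈ V) (hz : z ∈ V)
    (j : ℕ) : finrank K (ann V z (j + 2)) + finrank K (ann V z j) ≤ 2 * finrank K (ann V z (j + 1)) := by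
  have h1 := finrank_sup_ann hV hz j
  have h2 := finrank_sup_ann hV hz (j + 1)
  rw [show j + 1 + 1 = j + 2 from rfl] at h2
  have h3 : ann V z j ⊔ V.map (LinearMap.mulLeft K z) ≤
      ann V z (j + 1) ⊔ V.map (LinearMap.mulLeft K z) :=
    sup_le_sup_right (ann_mono (Nat.le_succ j)) _
  have h4 := Submodule.finrank_mono h3
  omega

/-- the map `x ↦ z ^ (p t) x ^ p`. -/
def frobT (p : ℕ) [Fact p.Prime] [CharP B p] (z : B) (t : ℕ) : B →+ B :=
  (AddMonoidHom.mulLeft (z ^ (p * t))).comp (frobenius B p : B →+ B)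

omit [Algebra K B] [FiniteDimensional K B] in
lemma frobT_apply (p : ℕ) [Fact p.Prime] [CharP B p] (z : B) (t : ℕ) (x : B) :
    frobT p z t x = z ^ (p * t) * x ^ p := rfl

omit [FiniteDimensional K B] in
lemma frobT_smul (p : ℕ) [Fact p.Prime] [CharP B p] (z : B) (t : ℕ) (c : K) (x : B) :
    frobT p z t (c • x) = c ^ p • frobT p z t x := by
  simp [frobT_apply, smul_pow]

/-- `U_t = span {z ^ (p t) x ^ p | x ∈ V}`. -/
def U (p : ℕ) [Fact p.Prime] [CharP B p] (V : Submodule K B) (z : B) (t : ℕ) : Submodule K B :=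
  Submodule.span K (frobT p z t '' (V : Set B))

/-- the basic counting step: if `z ^ (p t) x ^ p ∈ Y` for `x ∈ A_j`. -/
lemma step {p : ℕ} [Fact p.Prime] [CharP B p] {V : Submodule K B} {z : B}
    (hV : ∀ x ∈ V, ∀ y ∈ V, x * y ∈ V) (hz : z ∈ V) (t j : ℕ) (Y : Submodule K B)
    (h : ∀ x ∈ ann V z j, z ^ (p * t) * x ^ p ∈ Y) :
    finrank K (U p V z t) + finrank K (ann V z j) ≤
      finrank K (U p V z (t + 1)) + finrank K Y + finrank K (ann V z (j + 1)) := by
  have h1 := count (K := K) (frobT p z t) (frobT_smul p z t)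
    (V := V) (W := ann V z j ⊔ V.map (LinearMap.mulLeft K z)) (U := U p V z (t + 1) ⊔ Y)
    (by
      refine sup_le inf_le_left ?_
      rintro _ ⟨x, hx, rfl⟩
      exact hV _ hz _ hx)
    (by
      intro x hx
      obtain ⟨a, ha, b, hb, rfl⟩ := Submodule.mem_sup.1 hx
      obtain ⟨y, hy, rfl⟩ := hb
      rw [map_add]
      refine Submodule.add_mem _ (Submodule.mem_sup_right ?_) (Submodule.mem_sup_left ?_)
      · exact h a ha
      · have h2 : frobT p z t (LinearMap.mulLeft K z y) = frobT p z (t + 1) y := by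
          simp only [frobT_apply, LinearMap.mulLeft_apply]; ring
        rw [h2]
        exact Submodule.subset_span ⟨y, hy, rfl⟩)
  have h2 := finrank_sup_ann hV hz j
  have h3 := Submodule.finrank_add_le_finrank_add_finrank (U p V z (t + 1)) Y
  change finrank K (U p V z t) + _ ≤ _ at h1
  omega

/-- concave sequences. -/
lemma concave_sum (a : ℕ → ℤ) (hc : ∀ j, a (j + 2) + a j ≤ 2 * a (j + 1)) (e : ℕ) :
    ∀ m : ℕ, (m + 1) * (a (e + m + 1) - a (e + m)) ≤ a (e + m + 1) - a e
  | 0 => by simp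
  | m + 1 => by
    have ih := concave_sum a hc e m
    have h1 := hc (e + m)
    rw [show e + (m + 1) + 1 = e + m + 2 by ring, show e + (m + 1) = e + m + 1 by ring]
    push_cast
    nlinarith

/-- **Core theorem.**  A generic nilpotent `z ∈ V` gives `(p + 1) dim span {x ^ p} ≤ 2 dim V`. -/
theorem core {p : ℕ} [Fact p.Prime] [CharP B p] {V : Submodule K B} {z : B}
    (hV : ∀ x ∈ V, ∀ y ∈ V, x * y ∈ V) (hz : z ∈ V) (hG : Gen p V z) {n : ℕ} (hn : z ^ n = 0) :
    (p + 1) * finrank K (Submodule.span K ((fun x => x ^ p) '' (V : Set B))) ≤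
      2 * finrank K V := by
  have hp : p.Prime := Fact.out
  have hU0 : Submodule.span K ((fun x => x ^ p) '' (V : Set B)) = U p V z 0 := by
    unfold U
    congr 1
    ext y
    simp [frobT_apply]
  rw [hU0]
  have hUn : finrank K (U p V z n) = 0 := by
    have : U p V z n = ⊥ := by
      rw [eq_bot_iff, U, Submodule.span_le]
      rintro _ ⟨x, hx, rfl⟩
      have h1 : z ^ (p * n) = 0 := by rw [mul_comm, pow_mul, hn, zero_pow hp.ne_zero]
      simp [frobT_apply, h1]
    rw [this]; simp
  have hann : ∀ j, finrank K (ann V z j) ≤ finrank K V := fun j => Submodule.finrank_mono inf_le_left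
  have hmono : ∀ i j, i ≤ j → (finrank K (ann V z i) : ℤ) ≤ finrank K (ann V z j) := fun i j h =>
    by exact_mod_cast Submodule.finrank_mono (ann_mono h)
  have hconc : ∀ j, (finrank K (ann V z (j + 2)) : ℤ) + finrank K (ann V z j) ≤
      2 * finrank K (ann V z (j + 1)) := fun j => by exact_mod_cast ann_concave hV hz j
  -- the combined step
  have key : ∀ t, ((p + 1 : ℕ) : ℤ) * finrank K (U p V z t) + 2 * finrank K (ann V z (p * t)) ≤
      ((p + 1 : ℕ) : ℤ) * finrank K (U p V z (t + 1)) + 2 * finrank K (ann V z (p * (t + 1))) := by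
    intro t
    rcases hp.eq_two_or_odd' with h2 | hodd
    · subst h2
      have h3 := step (p := 2) hV hz t (2 * t) ⊥ (by
        intro x hx
        rw [mem_ann] at hx
        rw [Submodule.mem_bot, pow_two, ← mul_assoc, hx.2, zero_mul])
      have h4 := step (p := 2) hV hz t (2 * t + 1)
        ((ann V z (2 * t + 2)).map (LinearMap.mulLeft K (z ^ (2 * t + 1)))) (by
        intro x hx
        rw [mem_ann] at hx
        obtain ⟨w, b, hw, hb, h⟩ := gen_mul hV hz hG (j := 2 * t) (by omega) hx.1 hx.1 hx.2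
        refine ⟨w, mem_ann.2 hw, ?_⟩
        rw [LinearMap.mulLeft_apply, pow_two, h, mul_add, hb.2, add_zero, pow_succ, mul_assoc])
      have h5 := finrank_map_add (ann V z (2 * t + 2)) (LinearMap.mulLeft K (z ^ (2 * t + 1)))
      have h6 : ann V z (2 * t + 2) ⊓ LinearMap.ker (LinearMap.mulLeft K (z ^ (2 * t + 1))) =
          ann V z (2 * t + 1) := by
        ext x
        simp only [Submodule.mem_inf, mem_ann, LinearMap.mem_ker, LinearMap.mulLeft_apply]
        constructor
        · rintro ⟨⟨h, -⟩, h'⟩; exact ⟨h, h'⟩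
        · rintro ⟨h, h'⟩
          exact ⟨⟨h, by rw [pow_succ' z (2 * t + 1), mul_assoc, h', mul_zero]⟩, h'⟩
      rw [h6] at h5
      rw [finrank_bot] at h3
      rw [show 2 * t + 1 + 1 = 2 * t + 2 from rfl] at h4
      rw [show 2 * (t + 1) = 2 * t + 2 by ring]
      push_cast
      omega
    · obtain ⟨m, hm⟩ := hodd
      have hm0 : 0 < m := by
        rcases Nat.eq_zero_or_pos m with h | h
        · rw [h] at hm; exact absurd hp (by rw [hm]; decide)
        · exact h
      have h3 := step (p := p) hV hz t (p * t + m) ⊥ (by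
        intro x hx
        rw [mem_ann] at hx
        rw [Submodule.mem_bot]
        exact pow_eq_zero_odd hV hz hG hm.symm hm0 hx.1 hx.2)
      rw [finrank_bot] at h3
      have h4 := concave_sum (fun j => (finrank K (ann V z j) : ℤ)) hconc (p * t) m
      have h5 := hmono (p * t + m + 1) (p * (t + 1)) (by rw [mul_add]; omega)
      have h6 : (finrank K (U p V z t) : ℤ) + finrank K (ann V z (p * t + m)) ≤
        finrank K (U p V z (t + 1)) + finrank K (ann V z (p * t + m + 1)) := by exact_mod_cast h3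
      have h7 : ((p + 1 : ℕ) : ℤ) = 2 * (m + 1) := by rw [hm]; push_cast; ring
      rw [h7]
      have h8 : (0 : ℤ) ≤ (m : ℤ) + 1 := by positivity
      have h9 := mul_le_mul_of_nonneg_left h6 h8
      nlinarith
  have hall : ∀ t, ((p + 1 : ℕ) : ℤ) * finrank K (U p V z 0) + 2 * finrank K (ann V z 0) ≤
      ((p + 1 : ℕ) : ℤ) * finrank K (U p V z t) + 2 * finrank K (ann V z (p * t)) := by
    intro t
    induction t with
    | zero => simp
    | succ t ih => exact ih.trans (key t)
  have h1 := hall n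
  rw [hUn] at h1
  have h2 := hann (p * n)
  have h3 : (2 : ℤ) * finrank K (ann V z (p * n)) ≤ 2 * finrank K V := by
    have h3' := Nat.mul_le_mul_left 2 h2
    exact_mod_cast h3'
  have h4 : (0 : ℤ) ≤ 2 * finrank K (ann V z 0) := by positivity
  have h5 : ((p + 1 : ℕ) : ℤ) * finrank K (U p V z 0) ≤ 2 * finrank K V := by
    simp only [Nat.cast_zero, mul_zero, zero_add] at h1
    linarith
  exact_mod_cast h5

end Pool.Agent.H20.Eggert
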