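import Pool.Agent.H20.EggertDim

set_option autoImplicit false

namespace Pool.Agent.H20.Eggert

open Module TensorProduct

/-- a derivation of a domain extends to its fraction field. -/
lemma exists_derivation_ext (F k K : Type*) [Field F] [CommRing k] [IsDomain k] [Algebra F k]
    [Field K] [Algebra k K] [IsFractionRing k K] [Algebra F K] [IsScalarTower F k K]
    (D : Derivation F k k) :
    ∃ D' : K →ₗ[F] K, (∀ a b, D' (a * b) = D' a * b + a * D' b) ∧
      ∀ a : k, D' (algebraMap k K a) = algebraMap k K (D a) := by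
  let g : k →+* TrivSqZeroExt K K :=
    { toFun := fun a => TrivSqZeroExt.inl (algebraMap k K a) + TrivSqZeroExt.inr (algebraMap k K (D a))
      map_zero' := by
        ext <;> simp only [map_zero, TrivSqZeroExt.fst_add, TrivSqZeroExt.snd_add,
          TrivSqZeroExt.fst_inl, TrivSqZeroExt.snd_inl, TrivSqZeroExt.fst_inr,
          TrivSqZeroExt.snd_inr, TrivSqZeroExt.fst_zero, TrivSqZeroExt.snd_zero, add_zero]
      map_one' := by
        ext <;> simp only [map_one, TrivSqZeroExt.fst_add, TrivSqZeroExt.snd_add,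
          TrivSqZeroExt.fst_inl, TrivSqZeroExt.snd_inl, TrivSqZeroExt.fst_inr,
          TrivSqZeroExt.snd_inr, TrivSqZeroExt.fst_one, TrivSqZeroExt.snd_one, add_zero,
          Derivation.map_one_eq_zero, map_zero]
      map_add' := by
        intro a b
        ext <;> simp only [map_add, TrivSqZeroExt.fst_add, TrivSqZeroExt.snd_add,
          TrivSqZeroExt.fst_inl, TrivSqZeroExt.snd_inl, TrivSqZeroExt.fst_inr,
          TrivSqZeroExt.snd_inr, add_zero, zero_add]
      map_mul' := by
        intro a b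
        ext <;> simp only [map_add, map_mul, Derivation.leibniz, smul_eq_mul, MulOpposite.smul_eq_mul_unop,
          MulOpposite.unop_op, TrivSqZeroExt.fst_add, TrivSqZeroExt.snd_add,
          TrivSqZeroExt.fst_mul, TrivSqZeroExt.snd_mul,
          TrivSqZeroExt.fst_inl, TrivSqZeroExt.snd_inl, TrivSqZeroExt.fst_inr,
          TrivSqZeroExt.snd_inr, add_zero, zero_add]
        ring }
  have hfst : ∀ a, (g a).fst = algebraMap k K a := fun a => by
    change (TrivSqZeroExt.inl (algebraMap k K a) + TrivSqZeroExt.inr (algebraMap k K (D a))).fst = _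
    simp only [TrivSqZeroExt.fst_add, TrivSqZeroExt.fst_inl, TrivSqZeroExt.fst_inr, add_zero]
  have hsnd : ∀ a, (g a).snd = algebraMap k K (D a) := fun a => by
    change (TrivSqZeroExt.inl (algebraMap k K a) + TrivSqZeroExt.inr (algebraMap k K (D a))).snd = _
    simp only [TrivSqZeroExt.snd_add, TrivSqZeroExt.snd_inl, TrivSqZeroExt.snd_inr, zero_add]
  have hg : ∀ y : nonZeroDivisors k, IsUnit (g y) := by
    intro y
    rw [TrivSqZeroExt.isUnit_iff_isUnit_fst, hfst]
    exact IsLocalization.map_units K y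
  let G : K →+* TrivSqZeroExt K K := IsLocalization.lift (M := nonZeroDivisors k) hg
  have hGa : ∀ a, G (algebraMap k K a) = g a := fun a => IsLocalization.lift_eq hg a
  have hGfst : ∀ x, (G x).fst = x := by
    have h1 : ((TrivSqZeroExt.fstHom K K K).toRingHom).comp G = RingHom.id K := by
      apply IsLocalization.ringHom_ext (nonZeroDivisors k)
      ext a
      change (G (algebraMap k K a)).fst = algebraMap k K a
      rw [hGa, hfst]
    intro x
    exact DFunLike.congr_fun h1 x
  have hmul : ∀ a b, (G (a * b)).snd = (G a).snd * b + a * (G b).snd := by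
    intro a b
    rw [map_mul, TrivSqZeroExt.snd_mul, hGfst, hGfst]
    simp only [smul_eq_mul, MulOpposite.smul_eq_mul_unop, MulOpposite.unop_op]
    ring
  refine ⟨{ toFun := fun x => (G x).snd, map_add' := ?_, map_smul' := ?_ }, hmul, ?_⟩
  · intro a b
    rw [map_add, TrivSqZeroExt.snd_add]
  · intro c a
    rw [Algebra.smul_def, hmul, IsScalarTower.algebraMap_apply F k K, hGa, hsnd,
      Derivation.map_algebraMap, map_zero, zero_mul, zero_add]
    simp only [RingHom.id_apply]
    rw [← IsScalarTower.algebraMap_apply F k K, ← Algebra.smul_def]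
  · intro a
    change (G (algebraMap k K a)).snd = _
    rw [hGa, hsnd]

lemma finrank_baseChange_submodule {F : Type*} (K : Type*) {A : Type*} [Field F] [Field K]
    [Algebra F K] [AddCommGroup A] [Module F A] (V : Submodule F A) :
    finrank K (V.baseChange K) = finrank F V := by
  have hinj : Function.Injective (V.subtype.baseChange K) := by
    have h := Module.Flat.lTensor_preserves_injective_linearMap (M := K) V.subtype
      V.injective_subtype
    rwa [← LinearMap.baseChange_eq_ltensor] at h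
  have h1 : V.baseChange K = LinearMap.range (V.subtype.baseChange K) := rfl
  rw [h1, LinearMap.finrank_range_of_inj hinj, Module.finrank_baseChange]

/-- the Leibniz rule for `D ⊗ id`. -/
lemma leibniz_rTensor {F K A : Type*} [Field F] [Field K] [Algebra F K] [CommRing A] [Algebra F A]
    (D : K →ₗ[F] K) (hD : ∀ a b, D (a * b) = D a * b + a * D b) (x y : K ⊗[F] A) :
    D.rTensor A (x * y) = D.rTensor A x * y + x * D.rTensor A y := by
  induction x using TensorProduct.induction_on with
  | zero => simp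
  | add x₁ x₂ h₁ h₂ => rw [add_mul, map_add, h₁, h₂, map_add]; ring
  | tmul a r =>
    induction y using TensorProduct.induction_on with
    | zero => simp
    | add y₁ y₂ h₁ h₂ => rw [mul_add, map_add, h₁, h₂, map_add]; ring
    | tmul b s =>
      simp only [Algebra.TensorProduct.tmul_mul_tmul, LinearMap.rTensor_tmul, hD,
        TensorProduct.add_tmul]

/-- derivatives of powers. -/
lemma leibniz_pow {B : Type*} [CommRing B] (D : B →+ B)
    (hD : ∀ a b, D (a * b) = D a * b + a * D b) (z : B) :
    ∀ j : ℕ, D (z ^ (j + 1)) = ((j + 1 : ℕ) : B) * z ^ j * D z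
  | 0 => by simp
  | j + 1 => by
    rw [pow_succ, hD, leibniz_pow D hD z j]
    push_cast
    ring

/-- derivations in all directions give genericity. -/
lemma gen_of_deriv {K B : Type*} [Field K] [CommRing B] [Algebra K B] (p : ℕ) [Fact p.Prime]
    [CharP K p] (V : Submodule K B) (z : B)
    (h : ∀ v ∈ V, ∃ D : B →+ B, (∀ a b, D (a * b) = D a * b + a * D b) ∧ D z = v ∧
      ∀ x ∈ V, D x ∈ V) : Gen p V z := by
  intro j hj v hv x hx h0
  obtain ⟨D, hD, hDz, hDV⟩ := h v hv
  have hne : ((j + 1 : ℕ) : K) ≠ 0 := by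
    intro h1
    exact hj ((CharP.cast_eq_zero_iff K p (j + 1)).1 h1)
  refine ⟨((j + 1 : ℕ) : K)⁻¹ • D x, V.smul_mem _ (hDV x hx), ?_⟩
  have h2 : ((j + 1 : ℕ) : B) * z ^ j * v * x + z ^ (j + 1) * D x = 0 := by
    rw [← hDz, ← leibniz_pow D hD z j, ← hD, h0, map_zero]
  have h3 : ((j + 1 : ℕ) : K) • (z ^ j * (v * x + z * (((j + 1 : ℕ) : K)⁻¹ • D x))) = 0 := by
    rw [mul_add, smul_add, mul_smul_comm, mul_smul_comm, smul_smul, mul_inv_cancel₀ hne, one_smul,
      Algebra.smul_def, map_natCast, ← h2]
    ring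
  rcases smul_eq_zero.1 h3 with h4 | h4
  · exact absurd h4 hne
  · exact h4

/-- **Weak form of Eggert's conjecture**, with factor `(p + 1) / 2` in place of `p`. -/
theorem weak_eggert {F A : Type*} [Field F] (p : ℕ) [Fact p.Prime] [CharP F p] [CommRing A]
    [Algebra F A] [FiniteDimensional F A] (V : Submodule F A) (hV : ∀ x ∈ V, ∀ y ∈ V, x * y ∈ V)
    (hnil : ∀ x ∈ V, IsNilpotent x) :
    (p + 1) * finrank F (Submodule.span F ((fun x => x ^ p) '' (V : Set A))) ≤
      2 * finrank F V := by
  classical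
  have hp : p.Prime := Fact.out
  rcases subsingleton_or_nontrivial A with hA | hA
  · have h1 : ∀ N : Submodule F A, finrank F N = 0 := fun N => by
      have : N = ⊥ := Subsingleton.elim _ _
      rw [this]; simp
    rw [h1, h1]; simp
  let b := Module.finBasis F V
  let k := MvPolynomial (Fin (finrank F V)) F
  let K := FractionRing k
  let VK := V.baseChange K
  have hKp : CharP K p := charP_of_injective_algebraMap (algebraMap F K).injective p
  have hnt : Nontrivial (K ⊗[F] A) := by
    apply Module.nontrivial_of_finrank_pos (R := K)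
    rw [Module.finrank_baseChange]
    exact Module.finrank_pos
  have hBp : CharP (K ⊗[F] A) p :=
    charP_of_injective_algebraMap (algebraMap K (K ⊗[F] A)).injective p
  have hVK : VK = Submodule.span K (TensorProduct.mk F K A 1 '' (V : Set A)) := by
    have := Submodule.baseChange_span (R := F) K (V : Set A)
    rwa [Submodule.span_eq] at this
  have hVKmul : ∀ x ∈ VK, ∀ y ∈ VK, x * y ∈ VK := by
    intro x hx y hy
    rw [hVK] at hx
    induction hx using Submodule.span_induction with
    | zero => rw [zero_mul]; exact VK.zero_mem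
    | add x₁ x₂ _ _ h₁ h₂ => rw [add_mul]; exact VK.add_mem h₁ h₂
    | smul a x _ h => rw [smul_mul_assoc]; exact VK.smul_mem _ h
    | mem x hx =>
      obtain ⟨u, hu, rfl⟩ := hx
      rw [hVK] at hy
      induction hy using Submodule.span_induction with
      | zero => rw [mul_zero]; exact VK.zero_mem
      | add x₁ x₂ _ _ h₁ h₂ => rw [mul_add]; exact VK.add_mem h₁ h₂
      | smul a x _ h => rw [mul_smul_comm]; exact VK.smul_mem _ h
      | mem y hy =>
        obtain ⟨v, hv, rfl⟩ := hy
        simp only [TensorProduct.mk_apply, Algebra.TensorProduct.tmul_mul_tmul, mul_one]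
        exact Submodule.tmul_mem_baseChange_of_mem (p := V) (1 : K) (hV u hu v hv)
  let z : K ⊗[F] A := ∑ i, (algebraMap k K (MvPolynomial.X i)) ⊗ₜ[F] ((b i : V) : A)
  have hz : z ∈ VK := Submodule.sum_mem _ fun i _ =>
    Submodule.tmul_mem_baseChange_of_mem (p := V) _ (b i).2
  have hznil : IsNilpotent z := by
    apply isNilpotent_sum
    intro i _
    obtain ⟨n, hn⟩ := hnil _ (b i).2
    refine ⟨n, ?_⟩
    rw [Algebra.TensorProduct.tmul_pow, hn, TensorProduct.tmul_zero]
  obtain ⟨n, hn⟩ := hznil
  -- derivations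
  have hder : ∀ v ∈ VK, ∃ D : (K ⊗[F] A) →+ (K ⊗[F] A),
      (∀ a b, D (a * b) = D a * b + a * D b) ∧ D z = v ∧ ∀ x ∈ VK, D x ∈ VK := by
    -- the partial derivatives
    have hpart : ∀ j, ∃ D : (K ⊗[F] A) →+ (K ⊗[F] A),
        (∀ a b, D (a * b) = D a * b + a * D b) ∧ D z = 1 ⊗ₜ[F] ((b j : V) : A) ∧
          ∀ x ∈ VK, D x ∈ VK := by
      intro j
      obtain ⟨D, hD, hDk⟩ := exists_derivation_ext F k K (MvPolynomial.pderiv j)
      refine ⟨(D.rTensor A).toAddMonoidHom, fun x y => leibniz_rTensor D hD x y, ?_, ?_⟩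
      · change D.rTensor A z = _
        rw [map_sum, Finset.sum_eq_single j]
        · rw [LinearMap.rTensor_tmul, hDk, MvPolynomial.pderiv_X_self, map_one]
        · intro i _ hij
          rw [LinearMap.rTensor_tmul, hDk, MvPolynomial.pderiv_X_of_ne hij, map_zero,
            TensorProduct.zero_tmul]
        · intro h; exact absurd (Finset.mem_univ j) h
      · intro x hx
        change D.rTensor A x ∈ VK
        obtain ⟨y, rfl⟩ := hx
        induction y using TensorProduct.induction_on with
        | zero => simp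
        | add y₁ y₂ h₁ h₂ => rw [map_add, map_add]; exact VK.add_mem h₁ h₂
        | tmul c u =>
          rw [LinearMap.baseChange_tmul, LinearMap.rTensor_tmul]
          exact Submodule.tmul_mem_baseChange_of_mem (p := V) _ u.2
    have hadd : ∀ v w : K ⊗[F] A,
        (∃ D : (K ⊗[F] A) →+ (K ⊗[F] A), (∀ a b, D (a * b) = D a * b + a * D b) ∧ D z = v ∧
          ∀ x ∈ VK, D x ∈ VK) →
        (∃ D : (K ⊗[F] A) →+ (K ⊗[F] A), (∀ a b, D (a * b) = D a * b + a * D b) ∧ D z = w ∧
          ∀ x ∈ VK, D x ∈ VK) →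
        (∃ D : (K ⊗[F] A) →+ (K ⊗[F] A), (∀ a b, D (a * b) = D a * b + a * D b) ∧ D z = v + w ∧
          ∀ x ∈ VK, D x ∈ VK) := by
      rintro v w ⟨D, hD, rfl, hDV⟩ ⟨E, hE, rfl, hEV⟩
      refine ⟨D + E, fun x y => ?_, rfl, fun x hx => VK.add_mem (hDV x hx) (hEV x hx)⟩
      simp only [AddMonoidHom.add_apply, hD, hE]; ring
    have hsmul : ∀ (c : K) (v : K ⊗[F] A),
        (∃ D : (K ⊗[F] A) →+ (K ⊗[F] A), (∀ a b, D (a * b) = D a * b + a * D b) ∧ D z = v ∧
          ∀ x ∈ VK, D x ∈ VK) →
        (∃ D : (K ⊗[F] A) →+ (K ⊗[F] A), (∀ a b, D (a * b) = D a * b + a * D b) ∧ D z = c • v ∧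
          ∀ x ∈ VK, D x ∈ VK) := by
      rintro c v ⟨D, hD, rfl, hDV⟩
      refine ⟨(DistribSMul.toAddMonoidHom (K ⊗[F] A) c).comp D, fun x y => ?_, rfl,
        fun x hx => VK.smul_mem c (hDV x hx)⟩
      simp only [AddMonoidHom.comp_apply, DistribSMul.toAddMonoidHom_apply, hD, smul_add,
        smul_mul_assoc, mul_smul_comm]
    have hzero : (∃ D : (K ⊗[F] A) →+ (K ⊗[F] A), (∀ a b, D (a * b) = D a * b + a * D b) ∧
        D z = 0 ∧ ∀ x ∈ VK, D x ∈ VK) :=
      ⟨0, fun x y => by simp, rfl, fun x _ => VK.zero_mem⟩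
    intro v hv
    rw [hVK] at hv
    induction hv using Submodule.span_induction with
    | zero => exact hzero
    | add x₁ x₂ _ _ h₁ h₂ => exact hadd _ _ h₁ h₂
    | smul a x _ h => exact hsmul _ _ h
    | mem x hx =>
      obtain ⟨u, hu, rfl⟩ := hx
      have h1 : TensorProduct.mk F K A 1 u =
          ∑ i, (algebraMap F K (b.repr ⟨u, hu⟩ i)) • (1 : K) ⊗ₜ[F] ((b i : V) : A) := by
        have h3 := congrArg (Subtype.val) (b.sum_repr ⟨u, hu⟩)
        rw [Submodule.coe_sum] at h3
        rw [TensorProduct.mk_apply]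
        change _ = u at h3
        conv_lhs => rw [← h3]
        rw [TensorProduct.tmul_sum]
        refine Finset.sum_congr rfl fun i _ => ?_
        rw [Submodule.coe_smul, TensorProduct.tmul_smul, algebraMap_smul]
      rw [h1]
      refine Finset.sum_induction _ (fun v => ∃ D : (K ⊗[F] A) →+ (K ⊗[F] A),
        (∀ a b, D (a * b) = D a * b + a * D b) ∧ D z = v ∧ ∀ x ∈ VK, D x ∈ VK) hadd hzero ?_
      intro i _
      exact hsmul _ _ (hpart i)
  have hG : Gen p VK z := gen_of_deriv p VK z hder
  have hcore := core (p := p) hVKmul hz hG hn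
  rw [finrank_baseChange_submodule K V] at hcore
  refine le_trans ?_ hcore
  refine Nat.mul_le_mul_left _ ?_
  rw [← finrank_baseChange_submodule K, Submodule.baseChange_span]
  apply Submodule.finrank_mono
  rw [Submodule.span_le]
  rintro _ ⟨_, ⟨x, hx, rfl⟩, rfl⟩
  apply Submodule.subset_span
  refine ⟨1 ⊗ₜ[F] x, Submodule.tmul_mem_baseChange_of_mem (p := V) _ hx, ?_⟩
  simp [Algebra.TensorProduct.tmul_pow]

end Pool.Agent.H20.Eggert
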