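import Mathlib

/-!
# Chains on ordered lists of vertices

`bd` is the alternating sum of the deletions. `dN` is the boundary on the complex of marked lists
(deleting the marked entry counts as zero), `rho` is the chain map to it.
-/

namespace Pool.Agent.H20.ListCx

variable {V : Type} {G M : Type} [AddCommGroup G] [AddCommGroup M]

/-- put `x` in front of every list -/
noncomputable def consC (G : Type) [AddCommGroup G] (x : V) : (List V →₀ G) →+ (List V →₀ G) :=
  Finsupp.mapDomain.addMonoidHom (List.cons x)

lemma consC_single (x : V) (l : List V) (g : G) :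
    consC G x (Finsupp.single l g) = Finsupp.single (x :: l) g := by
  simp [consC, Finsupp.mapDomain.addMonoidHom]

lemma consC_apply_cons (x : V) (c : List V →₀ G) (l : List V) : consC G x c (x :: l) = c l := by
  show Finsupp.mapDomain (List.cons x) c (x :: l) = c l
  exact Finsupp.mapDomain_apply (List.cons_injective) c l

lemma consC_apply_ne (x : V) (c : List V →₀ G) (m : List V) (h : ∀ l, m ≠ x :: l) :
    consC G x c m = 0 := by
  show Finsupp.mapDomain (List.cons x) c m = 0
  apply Finsupp.mapDomain_of_notMem_range
  rintro ⟨l, rfl⟩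
  exact h l rfl

/-- boundary of a basis element -/
noncomputable def bdL : List V → (G →+ (List V →₀ G))
  | [] => 0
  | x :: l => Finsupp.singleAddHom l - (consC G x).comp (bdL l)

/-- the boundary -/
noncomputable def bd (V G : Type) [AddCommGroup G] : (List V →₀ G) →+ (List V →₀ G) :=
  Finsupp.liftAddHom bdL

lemma bd_single (l : List V) (g : G) : bd V G (Finsupp.single l g) = bdL l g := by
  unfold bd
  rw [Finsupp.liftAddHom_apply_single]

lemma bd_single_nil (g : G) : bd V G (Finsupp.single [] g) = 0 := by
  rw [bd_single]; rfl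

lemma bd_single_cons (x : V) (l : List V) (g : G) :
    bd V G (Finsupp.single (x :: l) g) =
      Finsupp.single l g - consC G x (bd V G (Finsupp.single l g)) := by
  rw [bd_single, bd_single]; rfl

lemma bd_consC (x : V) (c : List V →₀ G) : bd V G (consC G x c) = c - consC G x (bd V G c) := by
  induction c using Finsupp.induction_linear with
  | zero => simp
  | add f g hf hg => rw [map_add, map_add, hf, hg, map_add, map_add]; abel
  | single l g => rw [consC_single, bd_single_cons]

lemma bd_bd (c : List V →₀ G) : bd V G (bd V G c) = 0 := by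
  induction c using Finsupp.induction_linear with
  | zero => simp
  | add f g hf hg => rw [map_add, map_add, hf, hg, add_zero]
  | single l g =>
    induction l with
    | nil => rw [bd_single_nil, map_zero]
    | cons x l ih =>
      rw [bd_single_cons, map_sub, bd_consC, ih, map_zero, sub_zero, sub_self]

lemma bd_single_ne (l m : List V) (g : G) (h : bd V G (Finsupp.single l g) m ≠ 0) :
    ∃ l' x l'', l = l' ++ x :: l'' ∧ m = l' ++ l'' := by
  classical
  induction l generalizing m with
  | nil => rw [bd_single_nil] at h; exact absurd rfl h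
  | cons x l ih =>
    rw [bd_single_cons, Finsupp.sub_apply] at h
    by_cases h1 : m = l
    · exact ⟨[], x, l, rfl, by rw [h1]; rfl⟩
    · rw [Finsupp.single_apply, if_neg (fun h2 => h1 h2.symm), zero_sub, neg_ne_zero] at h
      by_cases h2 : ∃ m', m = x :: m'
      · obtain ⟨m', rfl⟩ := h2
        rw [consC_apply_cons] at h
        obtain ⟨l', y, l'', h3, h4⟩ := ih m' h
        exact ⟨x :: l', y, l'', by rw [h3]; rfl, by rw [h4]; rfl⟩
      · push Not at h2
        exact absurd (consC_apply_ne x _ m h2) h

/-- induction principle: a property closed under sums and valid for the terms holds. -/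
lemma mapRange_bd (f : G →+ M) (c : List V →₀ G) :
    Finsupp.mapRange.addMonoidHom f (bd V G c) = bd V M (Finsupp.mapRange.addMonoidHom f c) := by
  induction c using Finsupp.induction_linear with
  | zero => simp
  | add a b ha hb => rw [map_add, map_add, ha, hb, map_add, map_add]
  | single l g =>
    induction l with
    | nil =>
      rw [bd_single_nil, map_zero]
      have : Finsupp.mapRange.addMonoidHom f (Finsupp.single ([] : List V) g) =
        Finsupp.single [] (f g) := by simp
      rw [this, bd_single_nil]
    | cons x l ih =>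
      have e1 : ∀ l : List V, Finsupp.mapRange.addMonoidHom f (Finsupp.single l g) =
        Finsupp.single l (f g) := by intro l; simp
      have e2 : ∀ c : List V →₀ G, Finsupp.mapRange.addMonoidHom f (consC G x c) =
          consC M x (Finsupp.mapRange.addMonoidHom f c) := by
        intro c
        induction c using Finsupp.induction_linear with
        | zero => simp
        | add a b ha hb => rw [map_add, map_add, ha, hb, map_add, map_add]
        | single l g => rw [consC_single]; simp [consC_single]
      rw [bd_single_cons, map_sub, e1, e2, ih, e1, e1, bd_single_cons]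

/-- chains supported on the lists of length `q` in `F` -/
def Supp (F : Set (List V)) (q : ℕ) (c : List V →₀ G) : Prop :=
  ∀ l, c l ≠ 0 → l ∈ F ∧ l.length = q

/-- exactness at size `q` of the complex of chains on `F` -/
def Acyc (F : Set (List V)) (G : Type) [AddCommGroup G] (q : ℕ) : Prop :=
  ∀ x : List V →₀ G, Supp F q x → bd V G x = 0 → ∃ y, Supp F (q + 1) y ∧ bd V G y = x

lemma Supp.add {F : Set (List V)} {q : ℕ} {c d : List V →₀ G} (hc : Supp F q c)
    (hd : Supp F q d) : Supp F q (c + d) := by
  intro l hl
  by_cases h : c l = 0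
  · apply hd; intro h2; apply hl; rw [Finsupp.add_apply, h, h2, add_zero]
  · exact hc l h

lemma Supp.neg {F : Set (List V)} {q : ℕ} {c : List V →₀ G} (hc : Supp F q c) :
    Supp F q (-c) := by
  intro l hl
  apply hc; intro h; apply hl; rw [Finsupp.neg_apply, h, neg_zero]

lemma Supp.sub {F : Set (List V)} {q : ℕ} {c d : List V →₀ G} (hc : Supp F q c)
    (hd : Supp F q d) : Supp F q (c - d) := by
  rw [sub_eq_add_neg]; exact hc.add hd.neg

lemma Supp.zero {F : Set (List V)} {q : ℕ} : Supp F q (0 : List V →₀ G) := by
  intro l hl; exact absurd rfl hl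

lemma Supp.sum {F : Set (List V)} {q : ℕ} {ι : Type*} (s : Finset ι) (c : ι → List V →₀ G)
    (hc : ∀ i ∈ s, Supp F q (c i)) : Supp F q (∑ i ∈ s, c i) := by
  classical
  induction s using Finset.induction_on with
  | empty => rw [Finset.sum_empty]; exact Supp.zero
  | insert a s ha ih =>
    rw [Finset.sum_insert ha]
    exact (hc a (Finset.mem_insert_self _ _)).add
      (ih (fun i hi => hc i (Finset.mem_insert_of_mem hi)))

lemma Supp.single {F : Set (List V)} {q : ℕ} {l : List V} (hl : l ∈ F) (hq : l.length = q)
    (g : G) : Supp F q (Finsupp.single l g) := by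
  classical
  intro m hm
  rw [Finsupp.single_apply] at hm
  split_ifs at hm with h
  · subst h; exact ⟨hl, hq⟩
  · exact absurd rfl hm

lemma Supp.smul {F : Set (List V)} {q : ℕ} {c : List V →₀ G} (hc : Supp F q c) (k : ℤ) :
    Supp F q (k • c) := by
  intro l hl
  apply hc; intro h; apply hl; rw [Finsupp.smul_apply, h, smul_zero]

/-- closure under deleting an entry -/
def Closed (F : Set (List V)) : Prop := ∀ l x m, l ++ x :: m ∈ F → l ++ m ∈ F

lemma Closed.sublist {F : Set (List V)} (hF : Closed F) {l' l : List V} (h : l'.Sublist l) :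
    l ∈ F → l' ∈ F := by
  have key : ∀ t : List V, t ++ l ∈ F → t ++ l' ∈ F := by
    induction h with
    | slnil => intro t ht; exact ht
    | cons x _ ih => intro t ht; exact ih t (hF _ _ _ ht)
    | cons_cons x _ ih =>
      intro t ht
      have := ih (t ++ [x]) (by simpa using ht)
      simpa using this
  intro hl
  exact key [] hl

lemma Supp.bd {F : Set (List V)} (hF : Closed F) {q : ℕ} {c : List V →₀ G}
    (hc : Supp F (q + 1) c) : Supp F q (bd V G c) := by
  have h1 : ListCx.bd V G c = ∑ l ∈ c.support, ListCx.bd V G (Finsupp.single l (c l)) := by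
    conv_lhs => rw [← Finsupp.sum_single c]
    rw [Finsupp.sum, map_sum]
  rw [h1]
  apply Supp.sum
  intro l hl m hm
  obtain ⟨l', x, l'', h2, h3⟩ := bd_single_ne l m _ hm
  obtain ⟨h4, h5⟩ := hc l (Finsupp.mem_support_iff.mp hl)
  subst h3
  subst h2
  refine ⟨hF _ _ _ h4, ?_⟩
  simp at h5 ⊢
  omega

/-! ### Marked lists -/

/-- marked chains -/
abbrev NC (V G : Type) [AddCommGroup G] : Type := (List V × V) →₀ (List V →₀ G)

/-- put `y` in front -/
noncomputable def consN (G : Type) [AddCommGroup G] (y : V) : NC V G →+ NC V G :=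
  Finsupp.mapDomain.addMonoidHom (fun p => (y :: p.1, p.2))

lemma consN_single (y : V) (p : List V × V) (c : List V →₀ G) :
    consN G y (Finsupp.single p c) = Finsupp.single (y :: p.1, p.2) c := by
  simp [consN, Finsupp.mapDomain.addMonoidHom]

lemma consN_apply_cons (y : V) (n : NC V G) (l : List V) (x : V) :
    consN G y n (y :: l, x) = n (l, x) := by
  show Finsupp.mapDomain (fun p : List V × V => (y :: p.1, p.2)) n (y :: l, x) = n (l, x)
  have hinj : Function.Injective (fun p : List V × V => (y :: p.1, p.2)) := by
    intro p q h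
    simp only [Prod.mk.injEq, List.cons.injEq, true_and] at h
    exact Prod.ext h.1 h.2
  exact Finsupp.mapDomain_apply hinj n (l, x)

lemma consN_apply_ne (y : V) (n : NC V G) (m : List V) (x : V) (h : ∀ l, m ≠ y :: l) :
    consN G y n (m, x) = 0 := by
  show Finsupp.mapDomain (fun p : List V × V => (y :: p.1, p.2)) n (m, x) = 0
  apply Finsupp.mapDomain_of_notMem_range
  rintro ⟨p, hp⟩
  simp only [Prod.mk.injEq] at hp
  exact h p.1 hp.1.symm

/-- boundary of a marked basis element -/
noncomputable def dL : List V → V → ((List V →₀ G) →+ NC V G)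
  | [], x => -((Finsupp.singleAddHom ([], x)).comp (bd V G))
  | y :: l, x => Finsupp.singleAddHom (l, x) - (consN G y).comp (dL l x)

/-- the boundary on marked chains -/
noncomputable def dN (V G : Type) [AddCommGroup G] : NC V G →+ NC V G :=
  Finsupp.liftAddHom (fun p => dL p.1 p.2)

lemma dN_single (p : List V × V) (c : List V →₀ G) :
    dN V G (Finsupp.single p c) = dL p.1 p.2 c := by
  unfold dN
  rw [Finsupp.liftAddHom_apply_single]

lemma dN_single_nil (x : V) (c : List V →₀ G) :
    dN V G (Finsupp.single ([], x) c) = - Finsupp.single ([], x) (bd V G c) := by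
  rw [dN_single]; rfl

lemma dN_single_cons (y : V) (l : List V) (x : V) (c : List V →₀ G) :
    dN V G (Finsupp.single (y :: l, x) c) =
      Finsupp.single (l, x) c - consN G y (dN V G (Finsupp.single (l, x) c)) := by
  rw [dN_single, dN_single]; rfl

lemma dN_consN (y : V) (n : NC V G) : dN V G (consN G y n) = n - consN G y (dN V G n) := by
  induction n using Finsupp.induction_linear with
  | zero => simp
  | add f g hf hg => rw [map_add, map_add, hf, hg, map_add, map_add]; abel
  | single p g => rw [consN_single, dN_single_cons]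

lemma dN_dN (n : NC V G) : dN V G (dN V G n) = 0 := by
  induction n using Finsupp.induction_linear with
  | zero => simp
  | add f g hf hg => rw [map_add, map_add, hf, hg, add_zero]
  | single p c =>
    obtain ⟨l, x⟩ := p
    induction l with
    | nil =>
      rw [dN_single_nil, map_neg, dN_single_nil, bd_bd, Finsupp.single_zero, neg_zero, neg_zero]
    | cons y l ih =>
      rw [dN_single_cons, map_sub, dN_consN, ih, map_zero, sub_zero, sub_self]

open scoped Classical in
lemma dN_single_top (l : List V) (x : V) (c : List V →₀ G) (m : List V) (z : V)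
    (h : l.length ≤ m.length) : dN V G (Finsupp.single (l, x) c) (m, z) =
      if (l, x) = (m, z) then ((-1 : ℤ) ^ (l.length + 1)) • bd V G c else 0 := by
  induction l generalizing m with
  | nil =>
    rw [dN_single_nil, Finsupp.neg_apply, Finsupp.single_apply]
    split_ifs
    · simp
    · simp
  | cons y l ih =>
    rw [dN_single_cons, Finsupp.sub_apply, Finsupp.single_apply, if_neg, zero_sub]
    · by_cases h2 : ∃ m', m = y :: m'
      · obtain ⟨m', rfl⟩ := h2
        rw [consN_apply_cons, ih m' (by simpa using h)]
        have : ((y :: l, x) = (y :: m', z)) ↔ ((l, x) = (m', z)) := by simp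
        simp only [this]
        split_ifs
        · rw [List.length_cons, pow_succ' (-1 : ℤ) (l.length + 1), neg_one_mul, neg_smul]
        · simp
      · push Not at h2
        rw [consN_apply_ne y _ m z h2, if_neg, neg_zero]
        intro h3
        exact h2 l (congrArg Prod.fst h3).symm
    · intro h3
      have := congrArg Prod.fst h3
      simp only at this
      subst this
      simp at h

lemma dN_top (n : NC V G) (a : ℕ) (hn : ∀ l x, n (l, x) ≠ 0 → l.length ≤ a) (m : List V) (z : V)
    (hm : a ≤ m.length) : dN V G n (m, z) = ((-1 : ℤ) ^ (a + 1)) • bd V G (n (m, z)) := by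
  classical
  have h1 : dN V G n = ∑ p ∈ n.support, dN V G (Finsupp.single p (n p)) := by
    conv_lhs => rw [← Finsupp.sum_single n]
    rw [Finsupp.sum, map_sum]
  rw [h1, Finsupp.finsetSum_apply]
  have h2 : ∀ p ∈ n.support, dN V G (Finsupp.single p (n p)) (m, z) =
      if p = (m, z) then ((-1 : ℤ) ^ (a + 1)) • bd V G (n (m, z)) else 0 := by
    rintro ⟨l, x⟩ hp
    have h3 := hn l x (Finsupp.mem_support_iff.mp hp)
    rw [dN_single_top l x _ m z (h3.trans hm)]
    split_ifs with h4
    · have h5 : l = m := congrArg Prod.fst h4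
      have h6 : l.length = a := by
        apply le_antisymm h3
        rw [h5]; exact hm
      rw [h6, h4]
    · rfl
  rw [Finset.sum_congr rfl h2, Finset.sum_ite_eq']
  split_ifs with h3
  · rfl
  · rw [Finsupp.notMem_support_iff] at h3
    rw [h3, map_zero, smul_zero]

/-- supports of marked chains -/
def SuppN (F : Set (List V)) (s : ℕ) (n : NC V G) : Prop :=
  ∀ l x m, n (l, x) m ≠ 0 → l ++ x :: m ∈ F ∧ l.length + 1 + m.length = s

lemma SuppN.add {F : Set (List V)} {q : ℕ} {c d : NC V G} (hc : SuppN F q c)
    (hd : SuppN F q d) : SuppN F q (c + d) := by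
  intro l x m hl
  by_cases h : c (l, x) m = 0
  · apply hd; intro h2; apply hl; rw [Finsupp.add_apply, Finsupp.add_apply, h, h2, add_zero]
  · exact hc l x m h

lemma SuppN.neg {F : Set (List V)} {q : ℕ} {c : NC V G} (hc : SuppN F q c) :
    SuppN F q (-c) := by
  intro l x m hl
  apply hc; intro h; apply hl; rw [Finsupp.neg_apply, Finsupp.neg_apply, h, neg_zero]

lemma SuppN.sub {F : Set (List V)} {q : ℕ} {c d : NC V G} (hc : SuppN F q c)
    (hd : SuppN F q d) : SuppN F q (c - d) := by
  rw [sub_eq_add_neg]; exact hc.add hd.neg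

lemma SuppN.zero {F : Set (List V)} {q : ℕ} : SuppN F q (0 : NC V G) := by
  intro l x m hl; exact absurd rfl hl

lemma SuppN.sum {F : Set (List V)} {q : ℕ} {ι : Type*} (s : Finset ι) (c : ι → NC V G)
    (hc : ∀ i ∈ s, SuppN F q (c i)) : SuppN F q (∑ i ∈ s, c i) := by
  classical
  induction s using Finset.induction_on with
  | empty => rw [Finset.sum_empty]; exact SuppN.zero
  | insert a s ha ih =>
    rw [Finset.sum_insert ha]
    exact (hc a (Finset.mem_insert_self _ _)).add
      (ih (fun i hi => hc i (Finset.mem_insert_of_mem hi)))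

lemma dN_single_ne (l : List V) (x : V) (c : List V →₀ G) (m : List V) (z : V) (k : List V)
    (h : dN V G (Finsupp.single (l, x) c) (m, z) k ≠ 0) :
    z = x ∧ ((∃ l' y l'', l = l' ++ y :: l'' ∧ m = l' ++ l'' ∧ c k ≠ 0) ∨
      (m = l ∧ bd V G c k ≠ 0)) := by
  classical
  induction l generalizing m with
  | nil =>
    rw [dN_single_nil, Finsupp.neg_apply, Finsupp.single_apply] at h
    split_ifs at h with h1
    · simp only [Prod.mk.injEq] at h1
      refine ⟨h1.2.symm, Or.inr ⟨h1.1.symm, ?_⟩⟩
      rw [Finsupp.neg_apply, neg_ne_zero] at h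
      exact h
    · simp at h
  | cons y l ih =>
    rw [dN_single_cons, Finsupp.sub_apply, Finsupp.sub_apply] at h
    by_cases h1 : (Finsupp.single (l, x) c) (m, z) k = 0
    · rw [h1, zero_sub, neg_ne_zero] at h
      by_cases h2 : ∃ m', m = y :: m'
      · obtain ⟨m', rfl⟩ := h2
        rw [consN_apply_cons] at h
        obtain ⟨h3, h4⟩ := ih m' h
        refine ⟨h3, ?_⟩
        rcases h4 with ⟨l', y', l'', h5, h6, h7⟩ | ⟨h5, h6⟩
        · exact Or.inl ⟨y :: l', y', l'', by rw [h5]; rfl, by rw [h6]; rfl, h7⟩
        · exact Or.inr ⟨by rw [h5], h6⟩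
      · push Not at h2
        rw [consN_apply_ne y _ m z h2] at h
        exact absurd rfl h
    · rw [Finsupp.single_apply] at h1
      split_ifs at h1 with h2
      · simp only [Prod.mk.injEq] at h2
        exact ⟨h2.2.symm, Or.inl ⟨[], y, l, rfl, h2.1.symm, h1⟩⟩
      · exact absurd rfl h1

lemma SuppN.dN {F : Set (List V)} (hF : Closed F) {s : ℕ} {n : NC V G}
    (hn : SuppN F (s + 1) n) : SuppN F s (dN V G n) := by
  have h1 : ListCx.dN V G n = ∑ p ∈ n.support, ListCx.dN V G (Finsupp.single p (n p)) := by
    conv_lhs => rw [← Finsupp.sum_single n]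
    rw [Finsupp.sum, map_sum]
  rw [h1]
  apply SuppN.sum
  rintro ⟨l, x⟩ hp m z k hk
  obtain ⟨h2, h3⟩ := dN_single_ne l x _ m z k hk
  subst h2
  rcases h3 with ⟨l', y, l'', h4, h5, h6⟩ | ⟨h4, h5⟩
  · obtain ⟨h7, h8⟩ := hn l z k h6
    subst h4
    subst h5
    constructor
    · have h9 : l' ++ y :: (l'' ++ z :: k) ∈ F := by simpa using h7
      simpa using hF _ _ _ h9
    · simp at h8 ⊢; omega
  · subst h4
    have h6 : Supp {j | m ++ z :: j ∈ F} (s - m.length) (n (m, z)) := by
      intro j hj
      obtain ⟨h7, h8⟩ := hn m z j hj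
      exact ⟨h7, by omega⟩
    have h6' : m.length ≤ s := by
      by_contra hcon
      apply h5
      have : n (m, z) = 0 := by
        ext j
        by_contra hj
        have := (hn m z j hj).2
        omega
      rw [this, map_zero]; rfl
    have hcl : Closed {j | m ++ z :: j ∈ F} := by
      intro a y b hab
      have h9 : (m ++ z :: a) ++ y :: b ∈ F := by simpa using hab
      have := hF _ _ _ h9
      simpa using this
    by_cases h7 : s - m.length = 0
    · -- chains of size zero have zero boundary
      exfalso
      apply h5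
      have : n (m, z) = Finsupp.single [] (n (m, z) []) := by
        ext j
        by_cases hj : j = []
        · subst hj; simp
        · rw [Finsupp.single_apply, if_neg (fun h => hj h.symm)]
          by_contra h8
          have := (h6 j h8).2
          rw [h7] at this
          exact hj (List.length_eq_zero_iff.mp this)
      rw [this, bd_single_nil]; rfl
    · obtain ⟨t, ht⟩ : ∃ t, s - m.length = t + 1 := ⟨s - m.length - 1, by omega⟩
      rw [ht] at h6
      obtain ⟨h8, h9⟩ := Supp.bd hcl h6 k h5
      exact ⟨h8, by omega⟩

/-- The marked complex is exact if the links are. -/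
theorem acycN {F : Set (List V)} (hF : Closed F) (s : ℕ)
    (h : ∀ l x, l ++ [x] ∈ F → l.length + 1 ≤ s →
      Acyc {m | l ++ x :: m ∈ F} G (s - (l.length + 1)))
    (n : NC V G) (hn : SuppN F s n) (hd : dN V G n = 0) :
    ∃ u, SuppN F (s + 1) u ∧ dN V G u = n := by
  classical
  have key : ∀ a : ℕ, ∀ n : NC V G, SuppN F s n → dN V G n = 0 →
      (∀ l x, n (l, x) ≠ 0 → l.length < a) → ∃ u, SuppN F (s + 1) u ∧ dN V G u = n := by
    intro a
    induction a with
    | zero =>
      intro n _ _ hb
      refine ⟨0, SuppN.zero, ?_⟩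
      rw [map_zero]
      ext1 p
      by_contra hp
      exact absurd (hb p.1 p.2 (fun h => hp h.symm)) (by omega)
    | succ a ih =>
      intro n hn hd hb
      have hex : ∀ p : List V × V, ∃ u : List V →₀ G, (n p = 0 → u = 0) ∧
          (p.1.length ≠ a → u = 0) ∧
          (p.1.length = a → bd V G u = n p) ∧
          (∀ m, u m ≠ 0 → p.1 ++ p.2 :: m ∈ F ∧ p.1.length + 1 + m.length = s + 1) := by
        rintro ⟨l, x⟩
        by_cases h1 : n (l, x) = 0
        · exact ⟨0, fun _ => rfl, fun _ => rfl, fun _ => by rw [map_zero, h1],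
            fun m hm => absurd rfl hm⟩
        by_cases h2 : l.length = a
        · have h3 : bd V G (n (l, x)) = 0 := by
            have h4 := dN_top n a (fun l x hl => Nat.lt_succ_iff.mp (hb l x hl)) l x h2.ge
            rw [hd, Finsupp.zero_apply] at h4
            rcases Nat.even_or_odd (a + 1) with he | ho
            · rw [he.neg_one_pow, one_smul] at h4; exact h4.symm
            · rw [ho.neg_one_pow, neg_one_smul] at h4; exact neg_eq_zero.mp h4.symm
          obtain ⟨m, hm⟩ : ∃ m, n (l, x) m ≠ 0 := by
            by_contra hcon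
            push Not at hcon
            exact h1 (Finsupp.ext hcon)
          obtain ⟨h5, h6⟩ := hn l x m hm
          have h7 : l ++ [x] ∈ F := by
            apply hF.sublist _ h5
            apply List.Sublist.append_left
            simp
          obtain ⟨u, hu1, hu2⟩ := h l x h7 (by omega) (n (l, x)) (by
            intro m hm
            obtain ⟨h8, h9⟩ := hn l x m hm
            exact ⟨h8, by omega⟩) h3
          refine ⟨u, fun h => absurd h h1, fun h => absurd h2 h, fun _ => hu2, ?_⟩
          intro m hm
          obtain ⟨h8, h9⟩ := hu1 m hm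
          refine ⟨h8, ?_⟩
          simp only
          omega
        · exact ⟨0, fun _ => rfl, fun _ => rfl, fun h => absurd h h2,
            fun m hm => absurd rfl hm⟩
      choose u hu1 hu2 hu3 hu4 using hex
      set U : NC V G := Finsupp.onFinset n.support (fun p => ((-1 : ℤ) ^ (a + 1)) • u p) (by
        intro p hp
        rw [Finsupp.mem_support_iff]
        intro h1
        apply hp
        rw [hu1 p h1, smul_zero]) with hU
      have hUp : ∀ p, U p = ((-1 : ℤ) ^ (a + 1)) • u p := fun p => rfl
      have hUs : SuppN F (s + 1) U := by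
        intro l x m hm
        rw [hUp] at hm
        apply hu4 (l, x) m
        intro h1
        apply hm
        rw [Finsupp.smul_apply, h1, smul_zero]
      have hUd := SuppN.dN hF hUs
      obtain ⟨W, hW1, hW2⟩ := ih (n - dN V G U) (hn.sub hUd) (by
        rw [map_sub, hd, dN_dN, sub_zero]) (by
        intro l x hl
        by_contra hcon
        push Not at hcon
        apply hl
        rw [Finsupp.sub_apply, dN_top U a _ l x hcon, hUp]
        · rcases Nat.lt_or_ge a l.length with h1 | h1
          · have h2 : n (l, x) = 0 := by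
              by_contra h3
              have := hb l x h3
              omega
            rw [h2, hu1 _ h2]; simp
          · have h2 : l.length = a := le_antisymm h1 hcon
            rw [map_zsmul, hu3 (l, x) h2, smul_smul, ← pow_add, Even.neg_one_pow ⟨a + 1, rfl⟩,
              one_smul, sub_self]
        · intro l x hl
          by_contra hcon2
          apply hl
          rw [hUp, hu2 (l, x) (by simp only; omega), smul_zero])
      refine ⟨U + W, hUs.add hW1, ?_⟩
      rw [map_add, hW2]
      abel
  by_cases hb : ∃ a, ∀ l x, n (l, x) ≠ 0 → l.length < a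
  · obtain ⟨a, ha⟩ := hb
    exact key a n hn hd ha
  · exfalso
    apply hb
    refine ⟨(n.support.sup (fun p => p.1.length)) + 1, fun l x hl => ?_⟩
    have : (l, x) ∈ n.support := Finsupp.mem_support_iff.mpr hl
    have h2 := Finset.le_sup (f := fun p : List V × V => p.1.length) this
    simp only at h2
    omega

/-! ### The comparison map -/

variable (ev : V → (M →+ G))

/-- `rho` on a basis element -/
noncomputable def rL : List V → (M →+ NC V G)
  | [] => 0
  | x :: l => (Finsupp.singleAddHom ([], x)).comp ((Finsupp.singleAddHom l).comp (ev x)) +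
      (consN G x).comp (rL l)

/-- the map to marked chains -/
noncomputable def rho : (List V →₀ M) →+ NC V G := Finsupp.liftAddHom (rL ev)

lemma rho_single (l : List V) (w : M) : rho ev (Finsupp.single l w) = rL ev l w := by
  unfold rho
  rw [Finsupp.liftAddHom_apply_single]

lemma rho_single_nil (w : M) : rho ev (Finsupp.single [] w) = 0 := by
  rw [rho_single]; rfl

lemma rho_single_cons (x : V) (l : List V) (w : M) : rho ev (Finsupp.single (x :: l) w) =
    Finsupp.single ([], x) (Finsupp.single l (ev x w)) + consN G x (rho ev (Finsupp.single l w)) := by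
  rw [rho_single, rho_single]; rfl

lemma rho_consC (x : V) (c : List V →₀ M) : rho ev (consC M x c) =
    Finsupp.single ([], x) (Finsupp.mapRange.addMonoidHom (ev x) c) + consN G x (rho ev c) := by
  induction c using Finsupp.induction_linear with
  | zero => simp
  | add f g hf hg =>
    rw [map_add, map_add, hf, hg, map_add, map_add, map_add, Finsupp.single_add]; abel
  | single l w => rw [consC_single, rho_single_cons]; simp

lemma dN_rho (c : List V →₀ M) : dN V G (rho ev c) = rho ev (bd V M c) := by
  induction c using Finsupp.induction_linear with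
  | zero => simp
  | add f g hf hg => simp only [map_add, hf, hg]
  | single l w =>
    induction l with
    | nil => rw [rho_single_nil, map_zero, bd_single_nil, map_zero]
    | cons x l ih =>
      rw [rho_single_cons, map_add, dN_single_nil, dN_consN, ih, bd_single_cons, map_sub,
        rho_consC]
      have : Finsupp.mapRange.addMonoidHom (ev x) (bd V M (Finsupp.single l w)) =
          bd V G (Finsupp.single l (ev x w)) := by
        rw [mapRange_bd]; simp
      rw [this]
      abel

lemma rho_apply (c : List V →₀ M) (l : List V) (x : V) (m : List V) :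
    rho ev c (l, x) m = ev x (c (l ++ x :: m)) := by
  classical
  induction c using Finsupp.induction_linear with
  | zero => simp
  | add f g hf hg =>
    rw [map_add, Finsupp.add_apply, Finsupp.add_apply, hf, hg, Finsupp.add_apply, map_add]
  | single k w =>
    induction k generalizing l with
    | nil =>
      rw [rho_single_nil, Finsupp.single_apply, if_neg (by simp)]
      simp
    | cons y k ih =>
      rw [rho_single_cons, Finsupp.add_apply, Finsupp.add_apply]
      cases l with
      | nil =>
        rw [consN_apply_ne y _ [] x (by simp), Finsupp.zero_apply, add_zero,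
          Finsupp.single_apply]
        by_cases h : y = x
        · subst h
          rw [if_pos rfl, Finsupp.single_apply, Finsupp.single_apply]
          by_cases h2 : k = m
          · simp [h2]
          · rw [if_neg h2, if_neg (by simpa using h2)]; simp
        · rw [if_neg (by simpa using h), Finsupp.single_apply, if_neg (by
            intro h2; simp at h2; exact h h2.1)]
          simp
      | cons z l =>
        rw [Finsupp.single_apply, if_neg (by simp), Finsupp.zero_apply, zero_add]
        by_cases h : z = y
        · subst h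
          rw [consN_apply_cons, ih, Finsupp.single_apply, Finsupp.single_apply]
          simp
        · rw [consN_apply_ne y _ _ x (by intro l' h2; simp at h2; exact h h2.1),
            Finsupp.zero_apply, Finsupp.single_apply, if_neg (by
              intro h2; simp at h2; exact h h2.1.symm), map_zero]

lemma rL_eq_zero (k : List V) (w : M) (h : ∀ y ∈ k, ev y w = 0) : rL ev k w = 0 := by
  induction k with
  | nil => rfl
  | cons y k ih =>
    have := rho_single_cons ev y k w
    rw [rho_single, rho_single] at this
    rw [this, h y (by simp), ih (fun z hz => h z (by simp [hz]))]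
    simp

lemma rho_single_marked (l : List V) (x : V) (m : List V) (w : M)
    (hl : ∀ y ∈ l, ev y w = 0) (hm : ∀ y ∈ m, ev y w = 0) :
    rho ev (Finsupp.single (l ++ x :: m) w) = Finsupp.single (l, x) (Finsupp.single m (ev x w)) := by
  induction l with
  | nil =>
    rw [List.nil_append, rho_single_cons, rho_single, rL_eq_zero ev m w hm, map_zero, add_zero]
  | cons y l ih =>
    rw [List.cons_append, rho_single_cons, ih (fun z hz => hl z (by simp [hz])), hl y (by simp),
      consN_single]
    simp

/-- the duality hypothesis -/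
structure Dual (F : Set (List V)) (sec : V → (G →+ M)) : Prop where
  one : ∀ l x m, l ++ x :: m ∈ F → ∀ g, ev x (sec x g) = g
  left : ∀ l x m, l ++ x :: m ∈ F → ∀ g, ∀ y ∈ l, ev y (sec x g) = 0
  right : ∀ l x m, l ++ x :: m ∈ F → ∀ g, ∀ y ∈ m, ev y (sec x g) = 0

variable {ev}

theorem rho_surj {F : Set (List V)} {sec : V → (G →+ M)} (hD : Dual ev F sec) {s : ℕ}
    (n : NC V G) (hn : SuppN F s n) : ∃ z : List V →₀ M, Supp F s z ∧ rho ev z = n := by
  classical
  refine ⟨∑ p ∈ n.support, ∑ m ∈ (n p).support,
    Finsupp.single (p.1 ++ p.2 :: m) (sec p.2 (n p m)), ?_, ?_⟩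
  · apply Supp.sum
    rintro ⟨l, x⟩ _
    apply Supp.sum
    intro m hm
    obtain ⟨h1, h2⟩ := hn l x m (Finsupp.mem_support_iff.mp hm)
    apply Supp.single h1
    simp only [List.length_append, List.length_cons]
    omega
  · rw [map_sum]
    conv_rhs => rw [← Finsupp.sum_single n]
    rw [Finsupp.sum]
    apply Finset.sum_congr rfl
    rintro ⟨l, x⟩ _
    rw [map_sum]
    have h0 : n (l, x) = ∑ m ∈ (n (l, x)).support, Finsupp.single m (n (l, x) m) := by
      conv_lhs => rw [← Finsupp.sum_single (n (l, x))]
      rfl
    conv_rhs => rw [h0]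
    rw [Finsupp.single_finsetSum]
    apply Finset.sum_congr rfl
    intro m hm
    obtain ⟨h1, h2⟩ := hn l x m (Finsupp.mem_support_iff.mp hm)
    simp only
    rw [rho_single_marked ev l x m _ (hD.left l x m h1 _) (hD.right l x m h1 _),
      hD.one l x m h1]

lemma rho_supp {F : Set (List V)} {s : ℕ} (c : List V →₀ M) (hc : Supp F s c) :
    SuppN F s (rho ev c) := by
  intro l x m h
  rw [rho_apply] at h
  have h1 : c (l ++ x :: m) ≠ 0 := by
    intro h2; rw [h2, map_zero] at h; exact h rfl
  obtain ⟨h2, h3⟩ := hc _ h1
  refine ⟨h2, ?_⟩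
  simp at h3
  omega

/-- exactness at size `q` of the complex with coefficients in the kernels of the `ev`'s -/
def VAcyc (F : Set (List V)) (ev : V → (M →+ G)) (q : ℕ) : Prop :=
  ∀ x : List V →₀ M, Supp F q x → rho ev x = 0 → bd V M x = 0 →
    ∃ y, Supp F (q + 1) y ∧ rho ev y = 0 ∧ bd V M y = x

theorem correct {F : Set (List V)} (hF : Closed F) {sec : V → (G →+ M)} (hD : Dual ev F sec)
    (s : ℕ) (h : ∀ l x, l ++ [x] ∈ F → l.length + 1 ≤ s →
      Acyc {m | l ++ x :: m ∈ F} G (s - (l.length + 1)))
    (y : List V →₀ M) (hy : Supp F s y) (hr : rho ev (bd V M y) = 0) :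
    ∃ z : List V →₀ M, Supp F (s + 1) z ∧ rho ev (y - bd V M z) = 0 := by
  obtain ⟨u, hu1, hu2⟩ := acycN hF s h (rho ev y) (rho_supp y hy) (by rw [dN_rho, hr])
  obtain ⟨z, hz1, hz2⟩ := rho_surj hD u hu1
  refine ⟨z, hz1, ?_⟩
  rw [map_sub, ← dN_rho, hz2, hu2, sub_self]

theorem vacyc_of_acyc {F : Set (List V)} (hF : Closed F) {sec : V → (G →+ M)}
    (hD : Dual ev F sec) (q : ℕ) (h0 : Acyc F M q)
    (h : ∀ l x, l ++ [x] ∈ F → l.length + 1 ≤ q + 1 →
      Acyc {m | l ++ x :: m ∈ F} G (q + 1 - (l.length + 1))) : VAcyc F ev q := by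
  intro x hx hxr hxb
  obtain ⟨y, hy1, hy2⟩ := h0 x hx hxb
  obtain ⟨z, hz1, hz2⟩ := correct hF hD (q + 1) h y hy1 (by rw [hy2, hxr])
  refine ⟨y - bd V M z, hy1.sub (Supp.bd hF hz1), hz2, ?_⟩
  rw [map_sub, bd_bd, sub_zero, hy2]

theorem acyc_of_vacyc {F : Set (List V)} (hF : Closed F) {sec : V → (G →+ M)}
    (hD : Dual ev F sec) (q : ℕ) (h0 : VAcyc F ev q)
    (h : ∀ l x, l ++ [x] ∈ F → l.length + 1 ≤ q →
      Acyc {m | l ++ x :: m ∈ F} G (q - (l.length + 1))) : Acyc F M q := by
  intro x hx hxb
  obtain ⟨z, hz1, hz2⟩ := correct hF hD q h x hx (by rw [hxb, map_zero])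
  obtain ⟨v, hv1, -, hv3⟩ := h0 (x - bd V M z) (hx.sub (Supp.bd hF hz1)) hz2
    (by rw [map_sub, bd_bd, sub_zero, hxb])
  refine ⟨z + v, hz1.add hv1, ?_⟩
  rw [map_add, hv3]
  abel

end Pool.Agent.H20.ListCx
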