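import Mathlib
import Pool.Agent.H20.ListCx

/-!
# Frames: ordered lists of vectors with dual functionals
-/

namespace Pool.Agent.H20.Frames

open Pool.Agent.H20.ListCx

/-! ### Change of vertices -/

section transfer

variable {V V' G : Type} [AddCommGroup G]

lemma bd_map (φ : V → V') (c : List V →₀ G) :
    bd V' G (Finsupp.mapDomain (List.map φ) c) = Finsupp.mapDomain (List.map φ) (bd V G c) := by
  induction c using Finsupp.induction_linear with
  | zero => simp
  | add a b ha hb => rw [Finsupp.mapDomain_add, map_add, ha, hb, map_add, Finsupp.mapDomain_add]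
  | single l g =>
    rw [Finsupp.mapDomain_single]
    induction l with
    | nil => rw [List.map_nil, bd_single_nil, bd_single_nil, Finsupp.mapDomain_zero]
    | cons x l ih =>
      have e : ∀ c : List V →₀ G, consC G (φ x) (Finsupp.mapDomain (List.map φ) c) =
          Finsupp.mapDomain (List.map φ) (consC G x c) := by
        intro c
        induction c using Finsupp.induction_linear with
        | zero => simp
        | add a b ha hb =>
          rw [Finsupp.mapDomain_add, map_add, ha, hb, map_add, Finsupp.mapDomain_add]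
        | single l g =>
          rw [Finsupp.mapDomain_single, consC_single, consC_single, Finsupp.mapDomain_single]
          rfl
      rw [List.map_cons, bd_single_cons, bd_single_cons, ih, e,
        sub_eq_add_neg, sub_eq_add_neg, Finsupp.mapDomain_add, Finsupp.mapDomain_single]
      congr 1
      exact (map_neg (Finsupp.mapDomain.addMonoidHom (List.map φ) : (List V →₀ G) →+ (List V' →₀ G)) _).symm

theorem acyc_transfer {F : Set (List V)} {F' : Set (List V')} (φ : V → V')
    (hφ : Function.Injective φ) (h1 : ∀ l ∈ F, l.map φ ∈ F')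
    (h2 : ∀ l ∈ F', ∃ l' : List V, l' ∈ F ∧ l = l'.map φ) (q : ℕ) (h : Acyc F G q) : Acyc F' G q := by
  classical
  have hinj : Function.Injective (List.map φ) := List.map_injective_iff.mpr hφ
  have hmem : ∀ l : List V, l.map φ ∈ F' → l ∈ F := by
    intro l hl
    obtain ⟨l', h3, h4⟩ := h2 _ hl
    rw [hinj h4]; exact h3
  intro x hx hxb
  set x' : List V →₀ G := Finsupp.comapDomain (List.map φ) x hinj.injOn with hx'
  have e1 : Finsupp.mapDomain (List.map φ) x' = x := by
    apply Finsupp.mapDomain_comapDomain _ hinj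
    intro l hl
    obtain ⟨l', -, h4⟩ := h2 l (hx l (Finsupp.mem_support_iff.mp hl)).1
    exact ⟨l', h4.symm⟩
  have e2 : Supp F q x' := by
    intro l hl
    have h3 : x (l.map φ) ≠ 0 := hl
    obtain ⟨h4, h5⟩ := hx _ h3
    exact ⟨hmem _ h4, by simpa using h5⟩
  have e3 : bd V G x' = 0 := by
    apply Finsupp.mapDomain_injective hinj
    rw [← bd_map, e1, hxb, Finsupp.mapDomain_zero]
  obtain ⟨y, hy1, hy2⟩ := h x' e2 e3
  refine ⟨Finsupp.mapDomain (List.map φ) y, ?_, ?_⟩
  · intro l hl
    by_cases h3 : ∃ l' : List V, l'.map φ = l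
    · obtain ⟨l', rfl⟩ := h3
      rw [Finsupp.mapDomain_apply hinj] at hl
      obtain ⟨h4, h5⟩ := hy1 _ hl
      exact ⟨h1 _ h4, by simpa using h5⟩
    · exfalso
      apply hl
      apply Finsupp.mapDomain_of_notMem_range
      rintro ⟨l', h4⟩
      exact h3 ⟨l', h4⟩
  · rw [bd_map, hy2, e1]

end transfer

/-! ### Change of coefficients -/

section coeff

variable {V G H : Type} [AddCommGroup G] [AddCommGroup H]

lemma supp_mapRange {F : Set (List V)} {q : ℕ} (f : G →+ H) {c : List V →₀ G} (hc : Supp F q c) :
    Supp F q (Finsupp.mapRange.addMonoidHom f c) := by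
  intro l hl
  apply hc
  intro h
  apply hl
  show f (c l) = 0
  rw [h, map_zero]

/-- a retract of the coefficients -/
theorem acyc_retract {F : Set (List V)} (i : G →+ H) (p : H →+ G) (hpi : ∀ g, p (i g) = g) (q : ℕ)
    (h : Acyc F H q) : Acyc F G q := by
  intro x hx hxb
  obtain ⟨y, hy1, hy2⟩ := h (Finsupp.mapRange.addMonoidHom i x) (supp_mapRange i hx)
    (by rw [← mapRange_bd, hxb, map_zero])
  refine ⟨Finsupp.mapRange.addMonoidHom p y, supp_mapRange p hy1, ?_⟩
  rw [← mapRange_bd, hy2]
  ext l
  show p (i (x l)) = x l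
  rw [hpi]

theorem acyc_pi {F : Set (List V)} {n : ℕ} (q : ℕ) (h : Acyc F G q) : Acyc F (Fin n → G) q := by
  intro x hx hxb
  have hex : ∀ j : Fin n, ∃ y : List V →₀ G, Supp F (q + 1) y ∧
      bd V G y = Finsupp.mapRange.addMonoidHom (Pi.evalAddMonoidHom (fun _ : Fin n => G) j) x := by
    intro j
    apply h _ (supp_mapRange _ hx)
    rw [← mapRange_bd, hxb, map_zero]
  choose y hy1 hy2 using hex
  refine ⟨∑ j, Finsupp.mapRange.addMonoidHom (AddMonoidHom.single (fun _ : Fin n => G) j) (y j),
    Supp.sum _ _ (fun j _ => supp_mapRange _ (hy1 j)), ?_⟩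
  rw [map_sum]
  have h2 : ∀ j ∈ Finset.univ, bd V (Fin n → G)
      (Finsupp.mapRange.addMonoidHom (AddMonoidHom.single (fun _ : Fin n => G) j) (y j)) =
      Finsupp.mapRange.addMonoidHom (AddMonoidHom.single (fun _ : Fin n => G) j)
        (Finsupp.mapRange.addMonoidHom (Pi.evalAddMonoidHom (fun _ : Fin n => G) j) x) := by
    intro j _
    rw [← mapRange_bd, hy2]
  rw [Finset.sum_congr rfl h2]
  ext l i
  rw [Finsupp.finsetSum_apply, Finset.sum_apply, Finset.sum_eq_single i]
  · show (Pi.single i (x l i) : Fin n → G) i = x l i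
    simp
  · intro j _ hj
    show (Pi.single j (x l j) : Fin n → G) i = 0
    simp [hj.symm]
  · intro h; exact absurd (Finset.mem_univ _) h

theorem acyc_pi_iff {F : Set (List V)} {n : ℕ} (hn : 1 ≤ n) (q : ℕ) :
    Acyc F (Fin n → G) q ↔ Acyc F G q := by
  constructor
  · apply acyc_retract (AddMonoidHom.single (fun _ : Fin n => G) ⟨0, hn⟩)
      (Pi.evalAddMonoidHom (fun _ : Fin n => G) ⟨0, hn⟩)
    intro g
    show (Pi.single (⟨0, hn⟩ : Fin n) g : Fin n → G) ⟨0, hn⟩ = g
    simp
  · exact acyc_pi q

/-! universal coefficients -/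

/-- extension of a map on basis elements -/
noncomputable def ext (G : Type) [AddCommGroup G] (h : List V → (List V →₀ ℤ)) :
    (List V →₀ G) →+ (List V →₀ G) :=
  Finsupp.liftAddHom (fun l =>
    { toFun := fun g => Finsupp.mapRange.addMonoidHom (zmultiplesHom G g) (h l)
      map_zero' := by ext m; simp
      map_add' := by intro a b; ext m; simp })

lemma ext_single (h : List V → (List V →₀ ℤ)) (l : List V) (g : G) :
    ext G h (Finsupp.single l g) = Finsupp.mapRange.addMonoidHom (zmultiplesHom G g) (h l) := by
  unfold ext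
  rw [Finsupp.liftAddHom_apply_single]
  rfl

lemma ext_single_int (h : List V → (List V →₀ ℤ)) (l : List V) (k : ℤ) :
    ext ℤ h (Finsupp.single l k) = k • h l := by
  rw [ext_single]
  ext m
  simp [mul_comm]

lemma ext_mapRange (h : List V → (List V →₀ ℤ)) (g : G) (c : List V →₀ ℤ) :
    ext G h (Finsupp.mapRange.addMonoidHom (zmultiplesHom G g) c) =
      Finsupp.mapRange.addMonoidHom (zmultiplesHom G g) (ext ℤ h c) := by
  induction c using Finsupp.induction_linear with
  | zero => simp
  | add a b ha hb => rw [map_add, map_add, ha, hb, map_add, map_add]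
  | single l k =>
    have e : Finsupp.mapRange.addMonoidHom (zmultiplesHom G g) (Finsupp.single l k) =
      Finsupp.single l (k • g) := by simp
    rw [e, ext_single, ext_single_int]
    ext m
    show (h l m) • (k • g) = (k • (h l m)) • g
    rw [smul_smul, smul_eq_mul, mul_comm]

lemma ext_supp {F : Set (List V)} {q : ℕ} (h : List V → (List V →₀ ℤ))
    (hh : ∀ l ∈ F, l.length = q → Supp F (q + 1) (h l)) (c : List V →₀ G) (hc : Supp F q c) :
    Supp F (q + 1) (ext G h c) := by
  have h1 : ext G h c = ∑ l ∈ c.support, ext G h (Finsupp.single l (c l)) := by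
    conv_lhs => rw [← Finsupp.sum_single c]
    rw [Finsupp.sum, map_sum]
  rw [h1]
  apply Supp.sum
  intro l hl
  rw [ext_single]
  apply supp_mapRange
  obtain ⟨h2, h3⟩ := hc l (Finsupp.mem_support_iff.mp hl)
  exact hh l h2 h3

lemma ext_congr {F : Set (List V)} {q : ℕ} (h h' : List V → (List V →₀ ℤ))
    (hh : ∀ l ∈ F, l.length = q → h l = h' l) (c : List V →₀ G) (hc : Supp F q c) :
    ext G h c = ext G h' c := by
  have h1 : ∀ h : List V → (List V →₀ ℤ),
      ext G h c = ∑ l ∈ c.support, ext G h (Finsupp.single l (c l)) := by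
    intro h
    conv_lhs => rw [← Finsupp.sum_single c]
    rw [Finsupp.sum, map_sum]
  rw [h1, h1]
  apply Finset.sum_congr rfl
  intro l hl
  obtain ⟨h2, h3⟩ := hc l (Finsupp.mem_support_iff.mp hl)
  rw [ext_single, ext_single, hh l h2 h3]

/-- partial contraction with integral coefficients -/
theorem contraction {F : Set (List V)} (hF : Closed F) (q : ℕ)
    (hac : ∀ q' ≤ q, Acyc F ℤ q') : ∃ h : List V → (List V →₀ ℤ),
      (∀ l ∈ F, l.length ≤ q → Supp F (l.length + 1) (h l)) ∧
      ∀ l ∈ F, l.length ≤ q → bd V ℤ (h l) =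
        Finsupp.single l 1 - ext ℤ h (bd V ℤ (Finsupp.single l 1)) := by
  classical
  have step : ∀ q, (∀ q' ≤ q, Acyc F ℤ q') → (q = 0 ∨ ∃ h : List V → (List V →₀ ℤ),
      (∀ l ∈ F, l.length < q → Supp F (l.length + 1) (h l)) ∧
      ∀ l ∈ F, l.length < q → bd V ℤ (h l) =
        Finsupp.single l 1 - ext ℤ h (bd V ℤ (Finsupp.single l 1))) →
      ∃ h : List V → (List V →₀ ℤ),
      (∀ l ∈ F, l.length ≤ q → Supp F (l.length + 1) (h l)) ∧
      ∀ l ∈ F, l.length ≤ q → bd V ℤ (h l) =
        Finsupp.single l 1 - ext ℤ h (bd V ℤ (Finsupp.single l 1)) := by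
    intro q hac hq
    obtain ⟨h, h1, h2⟩ : ∃ h : List V → (List V →₀ ℤ),
      (∀ l ∈ F, l.length < q → Supp F (l.length + 1) (h l)) ∧
      ∀ l ∈ F, l.length < q → bd V ℤ (h l) =
        Finsupp.single l 1 - ext ℤ h (bd V ℤ (Finsupp.single l 1)) := by
      rcases hq with rfl | hq
      · exact ⟨fun _ => 0, fun l _ hl => absurd hl (by omega), fun l _ hl => absurd hl (by omega)⟩
      · exact hq
    -- the cycle
    have hex : ∀ l : List V, ∃ c : List V →₀ ℤ, (l ∈ F → l.length = q → Supp F (q + 1) c ∧
        bd V ℤ c = Finsupp.single l 1 - ext ℤ h (bd V ℤ (Finsupp.single l 1))) := by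
      intro l
      by_cases hl : l ∈ F ∧ l.length = q
      · obtain ⟨hl1, hl2⟩ := hl
        have hs : Supp F q (Finsupp.single l (1 : ℤ) - ext ℤ h (bd V ℤ (Finsupp.single l 1))) := by
          apply Supp.sub (Supp.single hl1 hl2 _)
          rcases Nat.eq_zero_or_pos q with h0 | h0
          · have : l = [] := List.length_eq_zero_iff.mp (by omega)
            subst this
            rw [bd_single_nil, map_zero]
            exact Supp.zero
          · obtain ⟨q', rfl⟩ : ∃ q', q = q' + 1 := ⟨q - 1, by omega⟩
            apply ext_supp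
            · intro m hm hm2
              have := h1 m hm (by omega)
              rwa [hm2] at this
            · exact Supp.bd hF (Supp.single hl1 hl2 _)
        have hz : bd V ℤ (Finsupp.single l (1 : ℤ) -
            ext ℤ h (bd V ℤ (Finsupp.single l 1))) = 0 := by
          rcases Nat.eq_zero_or_pos q with h0 | h0
          · have : l = [] := List.length_eq_zero_iff.mp (by omega)
            subst this
            rw [bd_single_nil, map_zero, sub_zero, bd_single_nil]
          · obtain ⟨q', rfl⟩ : ∃ q', q = q' + 1 := ⟨q - 1, by omega⟩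
            set d := bd V ℤ (Finsupp.single l (1 : ℤ)) with hd
            have hds : Supp F q' d := Supp.bd hF (Supp.single hl1 hl2 _)
            have hdd : bd V ℤ d = 0 := bd_bd _
            have key : bd V ℤ (ext ℤ h d) = d - ext ℤ h (bd V ℤ d) := by
              have h3 : d = ∑ m ∈ d.support, Finsupp.single m (d m) := by
                conv_lhs => rw [← Finsupp.sum_single d]
                rfl
              have h4 : ∀ m ∈ d.support, bd V ℤ (ext ℤ h (Finsupp.single m (d m))) =
                  Finsupp.single m (d m) - ext ℤ h (bd V ℤ (Finsupp.single m (d m))) := by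
                intro m hm
                obtain ⟨h5, h6⟩ := hds m (Finsupp.mem_support_iff.mp hm)
                have h7 : (Finsupp.single m (d m) : List V →₀ ℤ) = (d m) • Finsupp.single m 1 := by
                  rw [Finsupp.smul_single, smul_eq_mul, mul_one]
                rw [ext_single_int, map_zsmul, h2 m h5 (by omega), h7, map_zsmul, map_zsmul,
                  smul_sub]
              calc bd V ℤ (ext ℤ h d)
                  = ∑ m ∈ d.support, bd V ℤ (ext ℤ h (Finsupp.single m (d m))) := by
                    conv_lhs => rw [h3]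
                    rw [map_sum, map_sum]
                _ = ∑ m ∈ d.support, (Finsupp.single m (d m) -
                      ext ℤ h (bd V ℤ (Finsupp.single m (d m)))) := Finset.sum_congr rfl h4
                _ = d - ext ℤ h (bd V ℤ d) := by
                    rw [Finset.sum_sub_distrib, ← map_sum, ← map_sum, ← h3]
            rw [map_sub, key, hdd, map_zero, sub_zero, sub_self]
        obtain ⟨c, hc1, hc2⟩ := hac q le_rfl _ hs hz
        exact ⟨c, fun _ _ => ⟨hc1, hc2⟩⟩
      · exact ⟨0, fun h3 h4 => absurd ⟨h3, h4⟩ hl⟩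
    choose c hc using hex
    set h' : List V → (List V →₀ ℤ) := fun l => if l.length = q then c l else h l with hh'
    have hagree : ∀ l ∈ F, l.length ≤ q → ext ℤ h' (bd V ℤ (Finsupp.single l 1)) =
        ext ℤ h (bd V ℤ (Finsupp.single l 1)) := by
      intro l hl hl2
      rcases Nat.eq_zero_or_pos l.length with h0 | h0
      · have : l = [] := List.length_eq_zero_iff.mp h0
        subst this
        rw [bd_single_nil, map_zero, map_zero]
      · obtain ⟨q', hq'⟩ : ∃ q', l.length = q' + 1 := ⟨l.length - 1, by omega⟩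
        apply ext_congr (F := F) (q := q')
        · intro m _ hm
          simp only [hh']
          rw [if_neg (by omega)]
        · exact Supp.bd hF (Supp.single hl hq' _)
    refine ⟨h', ?_, ?_⟩
    · intro l hl hl2
      simp only [hh']
      by_cases h3 : l.length = q
      · rw [if_pos h3, h3]; exact (hc l hl h3).1
      · rw [if_neg h3]; exact h1 l hl (by omega)
    · intro l hl hl2
      rw [hagree l hl hl2]
      simp only [hh']
      by_cases h3 : l.length = q
      · rw [if_pos h3]; exact (hc l hl h3).2
      · rw [if_neg h3]; exact h2 l hl (by omega)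
  induction q with
  | zero => exact step 0 hac (Or.inl rfl)
  | succ q ih =>
    obtain ⟨h, h1, h2⟩ := ih (fun q' hq' => hac q' (by omega))
    exact step (q + 1) hac (Or.inr ⟨h, fun l hl hl2 => h1 l hl (by omega),
      fun l hl hl2 => h2 l hl (by omega)⟩)

theorem acyc_univ {F : Set (List V)} (hF : Closed F) (q : ℕ)
    (hac : ∀ q' ≤ q, Acyc F ℤ q') : Acyc F G q := by
  obtain ⟨h, h1, h2⟩ := contraction hF q hac
  intro x hx hxb
  refine ⟨ext G h x, ext_supp h (fun l hl hl2 => by
    have := h1 l hl hl2.le
    rwa [hl2] at this) x hx, ?_⟩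
  have key : bd V G (ext G h x) = x - ext G h (bd V G x) := by
    have h3 : x = ∑ m ∈ x.support, Finsupp.single m (x m) := by
      conv_lhs => rw [← Finsupp.sum_single x]
      rfl
    have h4 : ∀ m ∈ x.support, bd V G (ext G h (Finsupp.single m (x m))) =
        Finsupp.single m (x m) - ext G h (bd V G (Finsupp.single m (x m))) := by
      intro m hm
      obtain ⟨h5, h6⟩ := hx m (Finsupp.mem_support_iff.mp hm)
      have h7 : (Finsupp.single m (x m) : List V →₀ G) =
          Finsupp.mapRange.addMonoidHom (zmultiplesHom G (x m)) (Finsupp.single m 1) := by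
        simp
      rw [ext_single, ← mapRange_bd, h2 m h5 (by omega), h7, ← mapRange_bd, ext_mapRange, map_sub]
    calc bd V G (ext G h x)
        = ∑ m ∈ x.support, bd V G (ext G h (Finsupp.single m (x m))) := by
          conv_lhs => rw [h3]
          rw [map_sum, map_sum]
      _ = ∑ m ∈ x.support, (Finsupp.single m (x m) -
            ext G h (bd V G (Finsupp.single m (x m)))) := Finset.sum_congr rfl h4
      _ = x - ext G h (bd V G x) := by
          rw [Finset.sum_sub_distrib, ← map_sum, ← map_sum, ← h3]
  rw [key, hxb, map_zero, sub_zero]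

end coeff

end Pool.Agent.H20.Frames
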