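import Mathlib
import Pool.Agent.H20.Frames

/-!
# The family of frames in `R^n` and its links
-/

namespace Pool.Agent.H20.FrameFam

open Pool.Agent.H20.ListCx Pool.Agent.H20.Frames

variable {R : Type} [Ring R]

/-- a vector and a functional -/
abbrev Vt (R : Type) [Ring R] (n : ℕ) : Type := (Fin n → R) × ((Fin n → R) →ₗ[R] R)

/-- the sum of the `v ⊗ λ` -/
def tot {n : ℕ} : List (Vt R n) → ((Fin n → R) →ₗ[R] (Fin n → R))
  | [] => 0
  | x :: l => x.2.smulRight x.1 + tot l

lemma tot_append {n : ℕ} (l m : List (Vt R n)) : tot (l ++ m) = tot l + tot m := by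
  induction l with
  | nil => simp [tot]
  | cons x l ih => rw [List.cons_append, tot, ih, tot, add_assoc]

/-- the complement of the frame is free of rank `m` -/
structure Dec {n : ℕ} (l : List (Vt R n)) (m : ℕ) (i : (Fin m → R) →ₗ[R] (Fin n → R))
    (p : (Fin n → R) →ₗ[R] (Fin m → R)) : Prop where
  pi : ∀ w, p (i w) = w
  lam : ∀ x ∈ l, ∀ w, x.2 (i w) = 0
  pv : ∀ x ∈ l, p x.1 = 0
  sum : ∀ u, i (p u) + tot l u = u

/-- the frames -/
def Fr (R : Type) [Ring R] (n : ℕ) : Set (List (Vt R n)) :=
  {l | (∀ x ∈ l, x.2 x.1 = 1) ∧ l.Pairwise (fun x y => x.2 y.1 = 0 ∧ y.2 x.1 = 0) ∧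
    ∃ m, l.length + m = n ∧ ∃ i p, Dec l m i p}

/-- adding a vector to the complement: the inclusion -/
def iAdd {n m : ℕ} (x : Vt R n) (i : (Fin m → R) →ₗ[R] (Fin n → R)) :
    (Fin (m + 1) → R) →ₗ[R] (Fin n → R) where
  toFun w := i (fun j => w j.succ) + w 0 • x.1
  map_add' a b := by
    have : (fun j : Fin m => (a + b) j.succ) = (fun j => a j.succ) + (fun j => b j.succ) := rfl
    rw [this, map_add, Pi.add_apply, add_smul]; abel
  map_smul' r a := by
    have : (fun j : Fin m => (r • a) j.succ) = r • (fun j : Fin m => a j.succ) := rfl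
    rw [this, map_smul, Pi.smul_apply, smul_eq_mul, mul_smul, RingHom.id_apply, smul_add]

/-- adding a vector to the complement: the projection -/
def pAdd {n m : ℕ} (x : Vt R n) (p : (Fin n → R) →ₗ[R] (Fin m → R)) :
    (Fin n → R) →ₗ[R] (Fin (m + 1) → R) where
  toFun u := Fin.cons (x.2 u) (p u)
  map_add' a b := by
    ext j
    refine Fin.cases ?_ (fun j => ?_) j
    · simp
    · simp
  map_smul' r a := by
    ext j
    refine Fin.cases ?_ (fun j => ?_) j
    · simp
    · simp

lemma iAdd_apply {n m : ℕ} (x : Vt R n) (i : (Fin m → R) →ₗ[R] (Fin n → R))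
    (w : Fin (m + 1) → R) : iAdd x i w = i (fun j => w j.succ) + w 0 • x.1 := rfl

lemma pAdd_apply {n m : ℕ} (x : Vt R n) (p : (Fin n → R) →ₗ[R] (Fin m → R))
    (u : Fin n → R) : pAdd x p u = Fin.cons (x.2 u) (p u) := rfl

lemma closed_Fr (n : ℕ) : Closed (Fr R n) := by
  rintro l x k ⟨h1, h2, m, hm, i, p, hD⟩
  rw [List.pairwise_append, List.pairwise_cons] at h2
  obtain ⟨h3, ⟨h4, h5⟩, h6⟩ := h2
  have hl0 : ∀ y ∈ l, x.2 y.1 = 0 ∧ y.2 x.1 = 0 := fun y hy =>
    ⟨(h6 y hy x (by simp)).2, (h6 y hy x (by simp)).1⟩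
  have h0 : ∀ y ∈ l ++ k, x.2 y.1 = 0 ∧ y.2 x.1 = 0 := by
    intro y hy
    rcases List.mem_append.mp hy with h | h
    · exact hl0 y h
    · exact h4 y h
  have hx1 : x.2 x.1 = 1 := h1 x (by simp)
  refine ⟨?_, ?_, m + 1, ?_, iAdd x i, pAdd x p, ?_, ?_, ?_, ?_⟩
  · intro y hy
    apply h1
    rcases List.mem_append.mp hy with h | h
    · simp [h]
    · simp [h]
  · rw [List.pairwise_append]
    exact ⟨h3, h5, fun a ha b hb => h6 a ha b (by simp [hb])⟩
  · simp at hm ⊢; omega
  · intro w
    rw [iAdd_apply, pAdd_apply]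
    have e1 : x.2 (i (fun j => w j.succ) + w 0 • x.1) = w 0 := by
      rw [map_add, hD.lam x (by simp), map_smul, hx1, smul_eq_mul, mul_one, zero_add]
    have e2 : p (i (fun j => w j.succ) + w 0 • x.1) = fun j => w j.succ := by
      rw [map_add, hD.pi, map_smul, hD.pv x (by simp), smul_zero, add_zero]
    rw [e1, e2]
    ext j
    refine Fin.cases ?_ (fun j => ?_) j
    · simp
    · simp
  · intro y hy w
    rw [iAdd_apply, map_add, map_smul, (h0 y hy).2, smul_zero, add_zero]
    apply hD.lam y
    rcases List.mem_append.mp hy with h | h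
    · simp [h]
    · simp [h]
  · intro y hy
    rw [pAdd_apply, (h0 y hy).1, hD.pv y (by
      rcases List.mem_append.mp hy with h | h
      · simp [h]
      · simp [h])]
    ext j
    refine Fin.cases ?_ (fun j => ?_) j
    · simp
    · simp
  · intro u
    rw [pAdd_apply, iAdd_apply]
    have e := hD.sum u
    rw [tot_append, tot] at e
    rw [tot_append]
    simp only [Fin.cons_succ, Fin.cons_zero]
    simp only [LinearMap.add_apply, LinearMap.smulRight_apply] at e ⊢
    conv_rhs => rw [← e]
    abel

/-- the vertices of the link -/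
def phi {n m : ℕ} (i : (Fin m → R) →ₗ[R] (Fin n → R)) (p : (Fin n → R) →ₗ[R] (Fin m → R)) :
    Vt R m → Vt R n := fun y => (i y.1, y.2.comp p)

lemma phi_injective {n m : ℕ} {i : (Fin m → R) →ₗ[R] (Fin n → R)}
    {p : (Fin n → R) →ₗ[R] (Fin m → R)} (h : ∀ w, p (i w) = w) :
    Function.Injective (phi i p) := by
  intro a b hab
  have h1 : i a.1 = i b.1 := congrArg Prod.fst hab
  have h2 : a.2.comp p = b.2.comp p := congrArg Prod.snd hab
  apply Prod.ext
  · rw [← h a.1, h1, h b.1]
  · apply LinearMap.ext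
    intro w
    have := LinearMap.congr_fun h2 (i w)
    rwa [LinearMap.comp_apply, LinearMap.comp_apply, h] at this

lemma tot_map {n m : ℕ} (i : (Fin m → R) →ₗ[R] (Fin n → R))
    (p : (Fin n → R) →ₗ[R] (Fin m → R)) (l : List (Vt R m)) (u : Fin n → R) :
    tot (l.map (phi i p)) u = i (tot l (p u)) := by
  induction l with
  | nil => simp [tot]
  | cons x l ih =>
    rw [List.map_cons, tot, tot, LinearMap.add_apply, LinearMap.add_apply, ih, map_add,
      LinearMap.smulRight_apply, LinearMap.smulRight_apply, map_smul]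
    rfl

lemma tot_eq_zero {n : ℕ} (l : List (Vt R n)) (u : Fin n → R) (h : ∀ x ∈ l, x.2 u = 0) :
    tot l u = 0 := by
  induction l with
  | nil => rfl
  | cons x l ih =>
    rw [tot, LinearMap.add_apply, LinearMap.smulRight_apply, h x (by simp), zero_smul,
      ih (fun y hy => h y (by simp [hy])), add_zero]

/-- The link of a frame is the family of frames of the complement. -/
theorem link_iff {n : ℕ} (τ : List (Vt R n)) (hτ : τ ∈ Fr R n) :
    ∃ m, τ.length + m = n ∧ ∃ φ : Vt R m → Vt R n, Function.Injective φ ∧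
      (∀ l ∈ Fr R m, l.map φ ∈ {k | τ ++ k ∈ Fr R n}) ∧
      ∀ l ∈ {k | τ ++ k ∈ Fr R n}, ∃ l' : List (Vt R m), l' ∈ Fr R m ∧ l = l'.map φ := by
  obtain ⟨h1, h2, m, hm, i, p, hD⟩ := hτ
  refine ⟨m, hm, phi i p, phi_injective hD.pi, ?_, ?_⟩
  · rintro l ⟨g1, g2, m', hm', i', p', hD'⟩
    refine ⟨?_, ?_, m', ?_, i.comp i', p'.comp p, ?_, ?_, ?_, ?_⟩
    · intro x hx
      rcases List.mem_append.mp hx with h | h
      · exact h1 x h
      · obtain ⟨y, hy, rfl⟩ := List.mem_map.mp h
        show y.2 (p (i y.1)) = 1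
        rw [hD.pi]; exact g1 y hy
    · rw [List.pairwise_append]
      refine ⟨h2, ?_, ?_⟩
      · rw [List.pairwise_map]
        apply g2.imp
        intro a b hab
        show a.2 (p (i b.1)) = 0 ∧ b.2 (p (i a.1)) = 0
        rw [hD.pi, hD.pi]; exact hab
      · intro a ha b hb
        obtain ⟨y, hy, rfl⟩ := List.mem_map.mp hb
        show a.2 (i y.1) = 0 ∧ y.2 (p a.1) = 0
        exact ⟨hD.lam a ha _, by rw [hD.pv a ha, map_zero]⟩
    · rw [List.length_append, List.length_map]; omega
    · intro w
      show p' (p (i (i' w))) = w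
      rw [hD.pi, hD'.pi]
    · intro x hx w
      rcases List.mem_append.mp hx with h | h
      · exact hD.lam x h _
      · obtain ⟨y, hy, rfl⟩ := List.mem_map.mp h
        show y.2 (p (i (i' w))) = 0
        rw [hD.pi]; exact hD'.lam y hy w
    · intro x hx
      rcases List.mem_append.mp hx with h | h
      · show p' (p x.1) = 0
        rw [hD.pv x h, map_zero]
      · obtain ⟨y, hy, rfl⟩ := List.mem_map.mp h
        show p' (p (i y.1)) = 0
        rw [hD.pi]; exact hD'.pv y hy
    · intro u
      show i (i' (p' (p u))) + tot (τ ++ l.map (phi i p)) u = u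
      rw [tot_append, LinearMap.add_apply, tot_map]
      have e1 := hD'.sum (p u)
      have e2 := hD.sum u
      have e3 : i (i' (p' (p u))) + i (tot l (p u)) = i (p u) := by rw [← map_add, e1]
      conv_rhs => rw [← e2, ← e3]
      abel
  · rintro l ⟨g1, g2, m', hm', i', p', hD'⟩
    rw [List.pairwise_append] at g2
    obtain ⟨-, g3, g4⟩ := g2
    -- the elements of `l` live in the complement
    have hv : ∀ x ∈ l, i (p x.1) = x.1 := by
      intro x hx
      have := hD.sum x.1
      rw [tot_eq_zero τ x.1 (fun y hy => (g4 y hy x hx).1), add_zero] at this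
      exact this
    have hl : ∀ x ∈ l, ∀ u, x.2 (i (p u)) = x.2 u := by
      intro x hx u
      have h3 : x.2 (tot τ u) = 0 := by
        have : ∀ k : List (Vt R n), (∀ y ∈ k, x.2 y.1 = 0) → x.2 (tot k u) = 0 := by
          intro k hk
          induction k with
          | nil => simp [tot]
          | cons y k ih =>
            rw [tot, LinearMap.add_apply, map_add, LinearMap.smulRight_apply, map_smul,
              hk y (by simp), smul_zero, zero_add]
            exact ih (fun z hz => hk z (by simp [hz]))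
        exact this τ (fun y hy => (g4 y hy x hx).2)
      have h4 := congrArg x.2 (hD.sum u)
      rw [map_add, h3, add_zero] at h4
      exact h4
    have hi' : ∀ w, i (p (i' w)) = i' w := by
      intro w
      have := hD.sum (i' w)
      rw [tot_eq_zero τ _ (fun y hy => hD'.lam y (by simp [hy]) w), add_zero] at this
      exact this
    refine ⟨l.map (fun x => (p x.1, x.2.comp i)), ?_, ?_⟩
    · refine ⟨?_, ?_, m', ?_, p.comp i', p'.comp i, ?_, ?_, ?_, ?_⟩
      · intro y hy
        obtain ⟨x, hx, rfl⟩ := List.mem_map.mp hy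
        show x.2 (i (p x.1)) = 1
        rw [hl x hx]
        exact g1 x (by simp [hx])
      · rw [List.pairwise_map]
        refine List.Pairwise.imp_of_mem ?_ g3
        intro a b ha hb hab
        show a.2 (i (p b.1)) = 0 ∧ b.2 (i (p a.1)) = 0
        rw [hl a ha, hl b hb]; exact hab
      · rw [List.length_map]; rw [List.length_append] at hm'; omega
      · intro w
        show p' (i (p (i' w))) = w
        rw [hi', hD'.pi]
      · intro y hy w
        obtain ⟨x, hx, rfl⟩ := List.mem_map.mp hy
        show x.2 (i (p (i' w))) = 0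
        rw [hl x hx]
        exact hD'.lam x (by simp [hx]) w
      · intro y hy
        obtain ⟨x, hx, rfl⟩ := List.mem_map.mp hy
        show p' (i (p x.1)) = 0
        rw [hv x hx]
        exact hD'.pv x (by simp [hx])
      · intro u
        show p (i' (p' (i u))) + tot (l.map (fun x => (p x.1, x.2.comp i))) u = u
        have e1 : tot (l.map (fun x : Vt R n => (p x.1, x.2.comp i))) u = p (tot l (i u)) := by
          clear g3 g4 hv hl hi' hm' hD' g1
          induction l with
          | nil => simp [tot]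
          | cons x l ih =>
            rw [List.map_cons, tot, tot, LinearMap.add_apply, LinearMap.add_apply, ih, map_add,
              LinearMap.smulRight_apply, LinearMap.smulRight_apply, map_smul]
            rfl
        rw [e1, ← map_add]
        have e2 := hD'.sum (i u)
        rw [tot_append, LinearMap.add_apply] at e2
        have e3 : i' (p' (i u)) + tot l (i u) = i u - tot τ (i u) := by
          rw [eq_sub_iff_add_eq, add_assoc, add_comm (tot l (i u))]
          exact e2
        rw [e3, tot_eq_zero τ (i u) (fun y hy => hD.lam y hy u), sub_zero, hD.pi]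
    · rw [List.map_map]
      conv_lhs => rw [← List.map_id l]
      apply List.map_congr_left
      intro x hx
      show x = (i (p x.1), (x.2.comp i).comp p)
      apply Prod.ext
      · exact (hv x hx).symm
      · apply LinearMap.ext
        intro u
        exact (hl x hx u).symm

/-- evaluation of the functional -/
def ev (R : Type) [Ring R] (n : ℕ) (x : Vt R n) : (Fin n → R) →+ R := x.2.toAddMonoidHom

/-- multiples of the vector -/
def sec (R : Type) [Ring R] (n : ℕ) (x : Vt R n) : R →+ (Fin n → R) where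
  toFun g := g • x.1
  map_zero' := zero_smul _ _
  map_add' a b := add_smul a b _

lemma dual_Fr (n : ℕ) : Dual (ev R n) (Fr R n) (sec R n) := by
  constructor
  · rintro l x m ⟨h1, -⟩ g
    show x.2 (g • x.1) = g
    rw [map_smul, h1 x (by simp), smul_eq_mul, mul_one]
  · rintro l x m ⟨h1, h2, -⟩ g y hy
    rw [List.pairwise_append] at h2
    show y.2 (g • x.1) = 0
    rw [map_smul, (h2.2.2 y hy x (by simp)).1, smul_zero]
  · rintro l x m ⟨h1, h2, -⟩ g y hy
    rw [List.pairwise_append, List.pairwise_cons] at h2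
    show y.2 (g • x.1) = 0
    rw [map_smul, (h2.2.1.1 y hy).2, smul_zero]

theorem link_acyc {n : ℕ} {G : Type} [AddCommGroup G] (l : List (Vt R n)) (x : Vt R n)
    (h : l ++ [x] ∈ Fr R n) (q : ℕ)
    (hac : ∀ m, l.length + 1 + m = n → Acyc (Fr R m) G q) :
    Acyc {k | l ++ x :: k ∈ Fr R n} G q := by
  obtain ⟨m, hm, φ, h1, h2, h3⟩ := link_iff _ h
  have e : {k | l ++ x :: k ∈ Fr R n} = {k | (l ++ [x]) ++ k ∈ Fr R n} := by
    ext k
    simp
  rw [e]
  exact acyc_transfer φ h1 h2 h3 q (hac m (by simpa using hm))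

/-- eventual exactness -/
def Ev (P : ℕ → ℕ → Prop) : Prop := ∀ q, ∃ N, ∀ n, N ≤ n → P n q

theorem ev_vacyc_of_acyc (h : Ev (fun n q => Acyc (Fr R n) R q)) :
    Ev (fun n q => VAcyc (Fr R n) (ev R n) q) := by
  intro q
  choose N hN using h
  refine ⟨(∑ k ∈ Finset.range (q + 2), (N k + k)) + q + 2, fun n hn => ?_⟩
  have hle : ∀ k < q + 2, N k + k ≤ ∑ k ∈ Finset.range (q + 2), (N k + k) := by
    intro k hk
    exact Finset.single_le_sum (f := fun k => N k + k) (fun _ _ => Nat.zero_le _)
      (Finset.mem_range.mpr hk)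
  apply vacyc_of_acyc (closed_Fr n) (dual_Fr n) q
  · apply acyc_pi
    apply hN
    have := hle q (by omega)
    omega
  · intro l x hlx hlen
    apply link_acyc l x hlx
    intro m hm
    apply hN
    have := hle (q + 1 - (l.length + 1)) (by omega)
    omega

theorem ev_acyc_of_vacyc (h : Ev (fun n q => VAcyc (Fr R n) (ev R n) q)) :
    Ev (fun n q => Acyc (Fr R n) R q) := by
  intro q
  induction q using Nat.strong_induction_on with
  | _ q ih =>
    have ih' : ∀ k, ∃ N, k < q → ∀ n, N ≤ n → Acyc (Fr R n) R k := by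
      intro k
      by_cases hk : k < q
      · obtain ⟨N, hN⟩ := ih k hk
        exact ⟨N, fun _ => hN⟩
      · exact ⟨0, fun h => absurd h hk⟩
    choose N hN using ih'
    obtain ⟨N0, hN0⟩ := h q
    refine ⟨(∑ k ∈ Finset.range q, (N k + k)) + q + 2 + N0, fun n hn => ?_⟩
    have hle : ∀ k < q, N k + k ≤ ∑ k ∈ Finset.range q, (N k + k) := by
      intro k hk
      exact Finset.single_le_sum (f := fun k => N k + k) (fun _ _ => Nat.zero_le _)
        (Finset.mem_range.mpr hk)
    show Acyc (Fr R n) R q
    rw [← acyc_pi_iff (n := n) (by omega)]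
    apply acyc_of_vacyc (closed_Fr n) (dual_Fr n) q (hN0 n (by omega))
    intro l x hlx hlen
    apply link_acyc l x hlx
    intro m hm
    apply hN _ (by omega)
    have := hle (q - (l.length + 1)) (by omega)
    omega

theorem ev_acyc_of_int (h : Ev (fun n q => Acyc (Fr R n) ℤ q)) {G : Type} [AddCommGroup G] :
    Ev (fun n q => Acyc (Fr R n) G q) := by
  intro q
  choose N hN using h
  refine ⟨∑ k ∈ Finset.range (q + 1), N k, fun n hn => ?_⟩
  apply acyc_univ (closed_Fr n) q
  intro q' hq'
  apply hN
  have := Finset.single_le_sum (f := fun k => N k) (fun _ _ => Nat.zero_le _)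
      (Finset.mem_range.mpr (show q' < q + 1 by omega))
  omega

end Pool.Agent.H20.FrameFam
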