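import Mathlib

/-!
# Nilpotent algebras with powerful adjoint group are Lie nilpotent of class at most two
-/

set_option autoImplicit false

namespace Pool.Agent.H20.Powerful

open scoped commutatorElement

variable {F : Type*} [Field F] {A : Type*} [Ring A] [Algebra F A]

lemma pow_step_le {V : Submodule F A} (hV : V * V ≤ V) (n : ℕ) (hn : 1 ≤ n) :
    V ^ (n + 1) ≤ V ^ n := by
  obtain ⟨m, rfl⟩ : ∃ m, n = m + 1 := ⟨n - 1, by omega⟩
  calc V ^ (m + 1 + 1) = V ^ m * (V * V) := by rw [pow_succ, pow_succ, mul_assoc]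
    _ ≤ V ^ m * V := by gcongr
    _ = V ^ (m + 1) := (pow_succ _ _).symm

/-- the algebraic step: triple commutators move one step deeper. -/
lemma step {V : Submodule F A} (hV : V * V ≤ V) {n : ℕ} (hn : 1 ≤ n)
    (ht : ∀ x ∈ V, ∀ y ∈ V, ∀ z ∈ V, (x * y - y * x) * z - z * (x * y - y * x) ∈ V ^ n)
    (hgrp : ∀ x ∈ V, ∀ y ∈ V, ∃ b ∈ V, ∃ c ∈ V, x * y - y * x = (1 + y) * (1 + x) * c ∧
      c = (1 + b) * (x * y - y * x) ∧ ∀ z ∈ V, c * z - z * c ∈ V ^ (n + 1)) :
    ∀ x ∈ V, ∀ y ∈ V, ∀ z ∈ V, (x * y - y * x) * z - z * (x * y - y * x) ∈ V ^ (n + 1) := by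
  have hVV : ∀ x ∈ V, ∀ y ∈ V, x * y ∈ V := fun x hx y hy => hV (Submodule.mul_mem_mul hx hy)
  have hL : ∀ a ∈ V, ∀ t ∈ V ^ n, a * t ∈ V ^ (n + 1) := fun a ha t ht => by
    rw [pow_succ']; exact Submodule.mul_mem_mul ha ht
  have hR : ∀ t ∈ V ^ n, ∀ a ∈ V, t * a ∈ V ^ (n + 1) := fun t ht a ha => by
    rw [pow_succ]; exact Submodule.mul_mem_mul ht ha
  have hle : V ^ (n + 1) ≤ V ^ n := pow_step_le hV n hn
  have hIL : ∀ a ∈ V, ∀ t ∈ V ^ (n + 1), a * t ∈ V ^ (n + 1) := fun a ha t ht => hL a ha t (hle ht)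
  have hIR : ∀ t ∈ V ^ (n + 1), ∀ a ∈ V, t * a ∈ V ^ (n + 1) := fun t ht a ha => hR t (hle ht) a ha
  have hbr : ∀ x ∈ V, ∀ y ∈ V, x * y - y * x ∈ V := fun x hx y hy =>
    V.sub_mem (hVV _ hx _ hy) (hVV _ hy _ hx)
  -- (F3)
  have hF3 : ∀ x ∈ V, ∀ y ∈ V, ∀ z ∈ V, ∀ a ∈ V,
      a * ((x * z - z * x) * (z * y - y * z)) ∈ V ^ (n + 1) := by
    intro x hx y hy z hz a ha
    have h1 := hL a ha _ (ht (x * z) (hVV _ hx _ hz) y hy z hz)
    have h2 := hIL a ha _ (hL x hx _ (ht z hz y hy z hz))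
    have h3 := hIR _ (hL a ha _ (ht x hx y hy z hz)) z hz
    have h4 : a * ((x * z - z * x) * (z * y - y * z)) =
        a * ((x * z * y - y * (x * z)) * z - z * (x * z * y - y * (x * z))) -
        a * (x * ((z * y - y * z) * z - z * (z * y - y * z))) -
        a * ((x * y - y * x) * z - z * (x * y - y * x)) * z := by noncomm_ring
    rw [h4]
    exact Submodule.sub_mem _ (Submodule.sub_mem _ h1 h2) h3
  -- (F4)
  have hF4 : ∀ x ∈ V, ∀ y ∈ V, ∀ z ∈ V, ∀ a ∈ V,
      (x * z - z * x) * a * (x * y - y * x) ∈ V ^ (n + 1) := by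
    intro x hx y hy z hz a ha
    have h1 := hF3 z hz y hy x hx a ha
    have h2 := hR _ (ht x hx z hz a ha) _ (hbr x hx y hy)
    have h4 : (x * z - z * x) * a * (x * y - y * x) =
        ((x * z - z * x) * a - a * (x * z - z * x)) * (x * y - y * x) -
        a * ((z * x - x * z) * (x * y - y * x)) := by noncomm_ring
    rw [h4]
    exact Submodule.sub_mem _ h2 h1
  have hF3' : ∀ x ∈ V, ∀ y ∈ V, ∀ z ∈ V, ∀ a ∈ V,
      a * ((x * z - z * x) * (x * y - y * x)) ∈ V ^ (n + 1) := by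
    intro x hx y hy z hz a ha
    have h1 := hF3 z hz y hy x hx a ha
    have h4 : a * ((x * z - z * x) * (x * y - y * x)) =
        -(a * ((z * x - x * z) * (x * y - y * x))) := by noncomm_ring
    rw [h4]
    exact Submodule.neg_mem _ h1
  -- the same with `y` as common letter
  have hF4y : ∀ x ∈ V, ∀ y ∈ V, ∀ z ∈ V, ∀ a ∈ V,
      (y * z - z * y) * a * (x * y - y * x) ∈ V ^ (n + 1) := by
    intro x hx y hy z hz a ha
    have h1 := hF4 y hy x hx z hz a ha
    have h4 : (y * z - z * y) * a * (x * y - y * x) =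
        -((y * z - z * y) * a * (y * x - x * y)) := by noncomm_ring
    rw [h4]
    exact Submodule.neg_mem _ h1
  -- (**)
  have hss : ∀ x ∈ V, ∀ y ∈ V, ∀ z ∈ V,
      ((x * y - y * x) * z - z * (x * y - y * x)) -
        ((y * z - z * y) * (x * y - y * x) + (x * z - z * x) * (x * y - y * x)) ∈ V ^ (n + 1) := by
    intro x hx y hy z hz
    obtain ⟨b, hb, c, hc, h1, h2, h3⟩ := hgrp x hx y hy
    have h5 := h3 z hz
    -- `[x,y,z] = vu [c,z] + [vu,z] c`
    have h6 : (x * y - y * x) * z - z * (x * y - y * x) =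
        (c * z - z * c) + (y + x + y * x) * (c * z - z * c) +
        ((y * z - z * y) + (x * z - z * x) + y * (x * z - z * x) + (y * z - z * y) * x) * c := by
      rw [h1]; noncomm_ring
    have h7 : (y + x + y * x) * (c * z - z * c) ∈ V ^ (n + 1) :=
      hIL _ (V.add_mem (V.add_mem hy hx) (hVV _ hy _ hx)) _ h5
    have h8 : ((y * z - z * y) + (x * z - z * x) + y * (x * z - z * x) + (y * z - z * y) * x) * c -
        ((y * z - z * y) * (x * y - y * x) + (x * z - z * x) * (x * y - y * x)) =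
        (y * z - z * y) * b * (x * y - y * x) + (x * z - z * x) * b * (x * y - y * x) +
        y * ((x * z - z * x) * (x * y - y * x)) + y * ((x * z - z * x) * b * (x * y - y * x)) +
        (y * z - z * y) * x * (x * y - y * x) + (y * z - z * y) * (x * b) * (x * y - y * x) := by
      rw [h2]; noncomm_ring
    have h9 : ((y * z - z * y) + (x * z - z * x) + y * (x * z - z * x) + (y * z - z * y) * x) * c -
        ((y * z - z * y) * (x * y - y * x) + (x * z - z * x) * (x * y - y * x)) ∈ V ^ (n + 1) := by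
      rw [h8]
      refine Submodule.add_mem _ (Submodule.add_mem _ (Submodule.add_mem _ (Submodule.add_mem _
        (Submodule.add_mem _ ?_ ?_) ?_) ?_) ?_) ?_
      · exact hF4y x hx y hy z hz b hb
      · exact hF4 x hx y hy z hz b hb
      · exact hF3' x hx y hy z hz y hy
      · exact hIL y hy _ (hF4 x hx y hy z hz b hb)
      · exact hF4y x hx y hy z hz x hx
      · exact hF4y x hx y hy z hz _ (hVV _ hx _ hb)
    rw [h6]
    have h10 := Submodule.add_mem _ (Submodule.add_mem _ h5 h7) h9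
    convert h10 using 1
    abel
  -- (A)
  have hA : ∀ x ∈ V, ∀ y ∈ V, ∀ z ∈ V,
      (x * z - z * x) * (x * y - y * x) ∈ V ^ (n + 1) := by
    intro x hx y hy z hz
    have h1 := hss x hx (x * y) (hVV _ hx _ hy) z hz
    have h2 := hL x hx _ (ht x hx y hy z hz)
    have h3 := hIL x hx _ (hF4y x hx y hy z hz x hx)
    have h4 := hF4 x hx y hy z hz (y * x) (hVV _ hy _ hx)
    have h5 := hF4 x hx y hy z hz x hx
    have h6 : (x * z - z * x) * (x * y - y * x) =
        ((x * (x * y) - x * y * x) * z - z * (x * (x * y) - x * y * x) -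
        ((x * y * z - z * (x * y)) * (x * (x * y) - x * y * x) +
          (x * z - z * x) * (x * (x * y) - x * y * x))) -
        x * ((x * y - y * x) * z - z * (x * y - y * x)) +
        (x * ((y * z - z * y) * x * (x * y - y * x)) +
          (x * z - z * x) * (y * x) * (x * y - y * x) +
          (x * z - z * x) * x * (x * y - y * x)) := by noncomm_ring
    rw [h6]
    exact Submodule.add_mem _ (Submodule.sub_mem _ h1 h2)
      (Submodule.add_mem _ (Submodule.add_mem _ h3 h4) h5)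
  intro x hx y hy z hz
  have h1 := hss x hx y hy z hz
  have h2 := hA x hx y hy z hz
  have h3 := hA y hy x hx z hz
  have h4 : (x * y - y * x) * z - z * (x * y - y * x) =
      ((x * y - y * x) * z - z * (x * y - y * x) -
        ((y * z - z * y) * (x * y - y * x) + (x * z - z * x) * (x * y - y * x))) +
      (x * z - z * x) * (x * y - y * x) - (y * z - z * y) * (y * x - x * y) := by noncomm_ring
  rw [h4]
  exact Submodule.sub_mem _ (Submodule.add_mem _ h1 h2) h3

/-- the adjoint group of `V`, realised as `1 + V`. -/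
abbrev G (V : Submodule F A) : Subgroup Aˣ := Subgroup.closure {u : Aˣ | ((u : Aˣ) : A) - 1 ∈ V}

lemma inv_sub_one_mem {V : Submodule F A} (hV : V * V ≤ V) {u : Aˣ} (hu : (u : A) - 1 ∈ V)
    {n : ℕ} (hn : ((u : A) - 1) ^ n = 0) : ((u⁻¹ : Aˣ) : A) - 1 ∈ V := by
  have hVV : ∀ x ∈ V, ∀ y ∈ V, x * y ∈ V := fun x hx y hy => hV (Submodule.mul_mem_mul hx hy)
  set x : A := (u : A) - 1 with hxdef
  set w : A := ((u⁻¹ : Aˣ) : A) - 1 with hwdef
  have hux : (u : A) = 1 + x := by rw [hxdef]; abel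
  have hw : ((u⁻¹ : Aˣ) : A) = 1 + w := by rw [hwdef]; abel
  have h1 : w + x * w = -x := by
    have h2 : (1 + x) * (1 + w) = 1 := by rw [← hux, ← hw, Units.mul_inv]
    have h3 : (1 + x) * (1 + w) = 1 + x + (w + x * w) := by noncomm_ring
    rw [h3] at h2
    have h4 : w + x * w = (1 + x + (w + x * w)) - 1 - x := by abel
    rw [h4, h2]; abel
  have hpow : ∀ k : ℕ, (-x) ^ (k + 1) ∈ V := by
    intro k
    induction k with
    | zero => simpa using V.neg_mem hu
    | succ k ih => rw [pow_succ]; exact hVV _ ih _ (V.neg_mem hu)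
  have h5 : ∀ k : ℕ, w - (-x) ^ k * w ∈ V := by
    intro k
    induction k with
    | zero => simp
    | succ k ih =>
      have h6 : w - (-x) ^ (k + 1) * w = (w - (-x) ^ k * w) + (-x) ^ (k + 1) := by
        have h7 : (-x) ^ (k + 1) = (-x) ^ k * (w + x * w) := by rw [h1, pow_succ]
        have h8 : (-x) ^ (k + 1) * w = (-x) ^ k * (-x * w) := by rw [pow_succ, mul_assoc]
        rw [h8, h7]; noncomm_ring
      rw [h6]
      exact V.add_mem ih (hpow k)
  have h6 := h5 n
  rwa [neg_pow, hn, mul_zero, zero_mul, sub_zero] at h6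

lemma pow_eq_zero_of_mem {V : Submodule F A} {n : ℕ} (hn : V ^ n = ⊥) {x : A} (hx : x ∈ V) :
    x ^ n = 0 := by
  have h1 := Submodule.pow_mem_pow V hx n
  rw [hn] at h1
  exact (Submodule.mem_bot _).1 h1

lemma mem_G {V : Submodule F A} (hV : V * V ≤ V) {n : ℕ} (hn : V ^ n = ⊥) {u : Aˣ} :
    u ∈ G V ↔ (u : A) - 1 ∈ V := by
  have hVV : ∀ x ∈ V, ∀ y ∈ V, x * y ∈ V := fun x hx y hy => hV (Submodule.mul_mem_mul hx hy)
  constructor
  · intro hu
    induction hu using Subgroup.closure_induction with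
    | mem x hx => exact hx
    | one => simp
    | mul x y _ _ hx hy =>
      have h1 : ((x * y : Aˣ) : A) - 1 = ((x : A) - 1) * ((y : A) - 1) + ((x : A) - 1) +
        ((y : A) - 1) := by push_cast; noncomm_ring
      rw [h1]
      exact V.add_mem (V.add_mem (hVV _ hx _ hy) hx) hy
    | inv x _ hx => exact inv_sub_one_mem hV hx (pow_eq_zero_of_mem hn hx)
  · intro hu
    exact Subgroup.subset_closure hu

lemma ad_pow {p : ℕ} [Fact p.Prime] [CharP F p] [Nontrivial A] (k : ℕ) (g z : A) :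
    g ^ p ^ k * z - z * g ^ p ^ k =
      ((LinearMap.mulLeft F g - LinearMap.mulRight F g) ^ p ^ k) z := by
  have : CharP (Module.End F A) p :=
    charP_of_injective_algebraMap (algebraMap F (Module.End F A)).injective p
  rw [sub_pow_char_pow_of_commute _ _ (LinearMap.commute_mulLeft_right (R := F) g g),
    LinearMap.sub_apply, LinearMap.pow_mulLeft, LinearMap.pow_mulRight]
  simp

/-- powers `g ^ p ^ k`, `p ^ k ≥ 3`, of elements of `1 + V` commute with `V` up to `V ^ (n + 1)`. -/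
lemma pow_comm {p : ℕ} [Fact p.Prime] [CharP F p] [Nontrivial A] {V : Submodule F A}
    (hV : V * V ≤ V) {n : ℕ} (hn : 1 ≤ n)
    (ht : ∀ x ∈ V, ∀ y ∈ V, ∀ z ∈ V, (x * y - y * x) * z - z * (x * y - y * x) ∈ V ^ n)
    {k : ℕ} (hk : 3 ≤ p ^ k) {g z : A} (hg : g - 1 ∈ V) (hz : z ∈ V) :
    g ^ p ^ k * z - z * g ^ p ^ k ∈ V ^ (n + 1) := by
  have hle : V ^ (n + 1) ≤ V ^ n := pow_step_le hV n hn
  rw [ad_pow (F := F)]
  obtain ⟨x, hx, rfl⟩ : ∃ x ∈ V, g = 1 + x := ⟨g - 1, hg, by abel⟩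
  have hD : ∀ w : A, (LinearMap.mulLeft F (1 + x) - LinearMap.mulRight F (1 + x)) w =
      x * w - w * x := by
    intro w
    simp only [LinearMap.sub_apply, LinearMap.mulLeft_apply, LinearMap.mulRight_apply]
    noncomm_ring
  have h3 : ∀ m, ((LinearMap.mulLeft F (1 + x) - LinearMap.mulRight F (1 + x)) ^ (m + 3)) z ∈
      V ^ (n + 1) := by
    intro m
    induction m with
    | zero =>
      have h5 : ∀ D : Module.End F A, (D ^ (0 + 3)) z = D (D (D z)) := fun D => rfl
      rw [h5, hD, hD, hD]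
      have h1 := ht x hx z hz x hx
      have h2 : x * (x * z - z * x) - (x * z - z * x) * x ∈ V ^ n := by
        have h4 : x * (x * z - z * x) - (x * z - z * x) * x =
          -((x * z - z * x) * x - x * (x * z - z * x)) := by abel
        rw [h4]; exact Submodule.neg_mem _ h1
      refine Submodule.sub_mem _ ?_ ?_
      · rw [pow_succ']; exact Submodule.mul_mem_mul hx h2
      · rw [pow_succ]; exact Submodule.mul_mem_mul h2 hx
    | succ m ih =>
      have h5 : ∀ D : Module.End F A, (D ^ (m + 1 + 3)) z = D ((D ^ (m + 3)) z) := fun D => by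
        rw [show m + 1 + 3 = (m + 3) + 1 by ring, pow_succ', Module.End.mul_apply]
      rw [h5, hD]
      refine Submodule.sub_mem _ ?_ ?_
      · rw [pow_succ']; exact Submodule.mul_mem_mul hx (hle ih)
      · rw [pow_succ]; exact Submodule.mul_mem_mul (hle ih) hx
  obtain ⟨m, hm⟩ := Nat.exists_eq_add_of_le hk
  rw [hm, add_comm 3 m]
  exact h3 m

/-- **Theorem.**  Let `V` be a nilpotent subalgebra whose adjoint group `1 + V` is powerful.  Then `V`
is Lie nilpotent of class at most two. -/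
theorem lie_class_two {p : ℕ} [Fact p.Prime] [CharP F p] {V : Submodule F A}
    (hV : V * V ≤ V) (hnil : ∃ n : ℕ, V ^ n = ⊥) {e k : ℕ} (he : e = p ^ k) (hk : 3 ≤ p ^ k)
    (hpow : ⁅G V, G V⁆ ≤ Subgroup.closure {x : Aˣ | ∃ g ∈ G V, g ^ e = x}) :
    ∀ x ∈ V, ∀ y ∈ V, ∀ z ∈ V, (x * y - y * x) * z - z * (x * y - y * x) = 0 := by
  rcases subsingleton_or_nontrivial A with hA | hA
  · intro x _ y _ z _; exact Subsingleton.elim _ _
  obtain ⟨N, hN⟩ := hnil
  have hVV : ∀ x ∈ V, ∀ y ∈ V, x * y ∈ V := fun x hx y hy => hV (Submodule.mul_mem_mul hx hy)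
  have hunit : ∀ x ∈ V, IsUnit (1 + x) := fun x hx =>
    IsNilpotent.isUnit_one_add ⟨N, pow_eq_zero_of_mem hN hx⟩
  have main : ∀ n : ℕ, 1 ≤ n → ∀ x ∈ V, ∀ y ∈ V, ∀ z ∈ V,
      (x * y - y * x) * z - z * (x * y - y * x) ∈ V ^ n := by
    intro n hn
    induction n, hn using Nat.le_induction with
    | base =>
      intro x hx y hy z hz
      rw [pow_one]
      have h1 := V.sub_mem (hVV _ hx _ hy) (hVV _ hy _ hx)
      exact V.sub_mem (hVV _ h1 _ hz) (hVV _ hz _ h1)
    | succ n hn ih =>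
      have hle : V ^ (n + 1) ≤ V ^ n := pow_step_le hV n hn
      have hIL : ∀ a ∈ V, ∀ t ∈ V ^ (n + 1), a * t ∈ V ^ (n + 1) := fun a ha t ht => by
        rw [pow_succ']; exact Submodule.mul_mem_mul ha (hle ht)
      have hIR : ∀ t ∈ V ^ (n + 1), ∀ a ∈ V, t * a ∈ V ^ (n + 1) := fun t ht a ha => by
        rw [pow_succ]; exact Submodule.mul_mem_mul (hle ht) ha
      have hIL1 : ∀ a, a - 1 ∈ V → ∀ t ∈ V ^ (n + 1), a * t ∈ V ^ (n + 1) := fun a ha t ht => by
        have h1 : a * t = t + (a - 1) * t := by noncomm_ring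
        rw [h1]; exact Submodule.add_mem _ ht (hIL _ ha _ ht)
      have hIR1 : ∀ a, a - 1 ∈ V → ∀ t ∈ V ^ (n + 1), t * a ∈ V ^ (n + 1) := fun a ha t ht => by
        have h1 : t * a = t + t * (a - 1) := by noncomm_ring
        rw [h1]; exact Submodule.add_mem _ ht (hIR _ ht _ ha)
      -- elements of the subgroup generated by the powers are central up to `V ^ (n + 1)`
      have hC : ∀ g ∈ Subgroup.closure {x : Aˣ | ∃ g ∈ G V, g ^ e = x},
          (g : A) - 1 ∈ V ∧ ∀ z ∈ V, (g : A) * z - z * g ∈ V ^ (n + 1) := by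
        intro g hg
        induction hg using Subgroup.closure_induction with
        | mem x hx =>
          obtain ⟨h, hh, rfl⟩ := hx
          refine ⟨(mem_G hV hN).1 (Subgroup.pow_mem _ hh e), fun z hz => ?_⟩
          rw [Units.val_pow_eq_pow_val, he]
          exact pow_comm hV hn ih hk ((mem_G hV hN).1 hh) hz
        | one => exact ⟨by simp, fun z _ => by simp⟩
        | mul x y _ _ hx hy =>
          refine ⟨?_, fun z hz => ?_⟩
          · have h1 : ((x * y : Aˣ) : A) - 1 = ((x : A) - 1) * ((y : A) - 1) + ((x : A) - 1) +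
              ((y : A) - 1) := by push_cast; noncomm_ring
            rw [h1]
            exact V.add_mem (V.add_mem (hVV _ hx.1 _ hy.1) hx.1) hy.1
          · have h1 : ((x * y : Aˣ) : A) * z - z * ((x * y : Aˣ) : A) =
              (x : A) * ((y : A) * z - z * y) + ((x : A) * z - z * x) * y := by
              push_cast; noncomm_ring
            rw [h1]
            exact Submodule.add_mem _ (hIL1 _ hx.1 _ (hy.2 z hz)) (hIR1 _ hy.1 _ (hx.2 z hz))
        | inv x _ hx =>
          have hinv := inv_sub_one_mem hV hx.1 (pow_eq_zero_of_mem hN hx.1)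
          refine ⟨hinv, fun z hz => ?_⟩
          have h1 : ((x⁻¹ : Aˣ) : A) * z - z * ((x⁻¹ : Aˣ) : A) =
              -(((x⁻¹ : Aˣ) : A) * ((x : A) * z - z * x) * ((x⁻¹ : Aˣ) : A)) := by
            have h2 : ((x⁻¹ : Aˣ) : A) * ((x : A) * z - z * x) * ((x⁻¹ : Aˣ) : A) =
                (((x⁻¹ : Aˣ) : A) * (x : A)) * (z * ((x⁻¹ : Aˣ) : A)) -
                ((x⁻¹ : Aˣ) : A) * z * ((x : A) * ((x⁻¹ : Aˣ) : A)) := by noncomm_ring
            rw [h2, Units.inv_mul, Units.mul_inv]
            noncomm_ring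
          rw [h1]
          exact Submodule.neg_mem _ (hIR1 _ hinv _ (hIL1 _ hinv _ (hx.2 z hz)))
      refine step hV hn ih ?_
      intro x hx y hy
      set u := (hunit x hx).unit with hu
      set v := (hunit y hy).unit with hv
      have hux : (u : A) = 1 + x := by rw [hu, IsUnit.unit_spec]
      have hvy : (v : A) = 1 + y := by rw [hv, IsUnit.unit_spec]
      have huG : u ∈ G V := (mem_G hV hN).2 (by rw [hux]; simpa using hx)
      have hvG : v ∈ G V := (mem_G hV hN).2 (by rw [hvy]; simpa using hy)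
      have hkm : ⁅u⁻¹, v⁻¹⁆ ∈ ⁅G V, G V⁆ :=
        Subgroup.commutator_mem_commutator (inv_mem huG) (inv_mem hvG)
      obtain ⟨hk1, hk2⟩ := hC _ (hpow hkm)
      have hb := (mem_G hV hN).1 (mul_mem (inv_mem huG) (inv_mem hvG))
      have hxy : x * y - y * x = (u : A) * v - v * u := by rw [hux, hvy]; noncomm_ring
      have hkval : ((⁅u⁻¹, v⁻¹⁆ : Aˣ) : A) =
          ((u⁻¹ * v⁻¹ : Aˣ) : A) * ((u : A) * v) := by
        rw [commutatorElement_def, inv_inv, inv_inv]; push_cast; noncomm_ring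
      have h1 : (v : A) * u * ((u⁻¹ * v⁻¹ : Aˣ) : A) = 1 := by
        rw [← Units.val_mul, ← Units.val_mul]
        simp
      have h2 : ((u⁻¹ * v⁻¹ : Aˣ) : A) * ((v : A) * u) = 1 := by
        rw [← Units.val_mul, ← Units.val_mul]
        simp
      refine ⟨_, hb, _, hk1, ?_, ?_, ?_⟩
      · rw [hxy, ← hux, ← hvy, mul_sub, mul_one, hkval, ← mul_assoc, h1, one_mul]
      · rw [hxy, hkval, add_sub_cancel, mul_sub, h2]
      · intro z hz
        have h3 := hk2 z hz
        have h4 : (((⁅u⁻¹, v⁻¹⁆ : Aˣ) : A) - 1) * z - z * (((⁅u⁻¹, v⁻¹⁆ : Aˣ) : A) - 1) =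
            ((⁅u⁻¹, v⁻¹⁆ : Aˣ) : A) * z - z * ((⁅u⁻¹, v⁻¹⁆ : Aˣ) : A) := by noncomm_ring
        rw [h4]
        exact h3
  intro x hx y hy z hz
  have h1 := main (N + 1) (by omega) x hx y hy z hz
  rw [pow_succ, hN, Submodule.bot_mul] at h1
  exact (Submodule.mem_bot _).1 h1

end Pool.Agent.H20.Powerful
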