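import Pool.Agent.H20.EggertGeneric
import Pool.Agent.H20.PowerfulLie

/-!
# Rank of powerful adjoint groups of nilpotent algebras
-/

set_option autoImplicit false

namespace Pool.Agent.H20.Powerful

open Module
open scoped commutatorElement

/-- `weak_eggert` for a commutative subalgebra of a noncommutative algebra. -/
lemma weak_eggert_commuting {F A : Type*} [Field F] (p : ℕ) [Fact p.Prime] [CharP F p] [Ring A]
    [Algebra F A] [FiniteDimensional F A] (Z : Submodule F A)
    (hcomm : ∀ x ∈ Z, ∀ y ∈ Z, x * y = y * x) (hZ : ∀ x ∈ Z, ∀ y ∈ Z, x * y ∈ Z)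
    (hnil : ∀ x ∈ Z, IsNilpotent x) :
    (p + 1) * finrank F (Submodule.span F ((fun x => x ^ p) '' (Z : Set A))) ≤
      2 * finrank F Z := by
  let C : Subalgebra F A := Algebra.adjoin F (Z : Set A)
  letI : CommRing C := Algebra.adjoinCommRingOfComm F hcomm
  have hZC : Z ≤ Subalgebra.toSubmodule C := Algebra.subset_adjoin
  let Z' : Submodule F C := Z.comap C.val.toLinearMap
  have hinj : Function.Injective C.val.toLinearMap := Subtype.val_injective
  have hmap : Z'.map C.val.toLinearMap = Z := by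
    apply le_antisymm
    · rintro _ ⟨x, hx, rfl⟩; exact hx
    · intro x hx
      exact ⟨⟨x, hZC hx⟩, hx, rfl⟩
  have h1 := Pool.Agent.H20.Eggert.weak_eggert p Z'
    (fun x hx y hy => by
      change C.val (x * y) ∈ Z
      rw [map_mul]
      exact hZ _ hx _ hy)
    (fun x hx => by
      obtain ⟨n, hn⟩ := hnil _ hx
      refine ⟨n, ?_⟩
      apply hinj
      change C.val (x ^ n) = C.val 0
      rw [map_pow, map_zero]
      exact hn)
  have h2 : finrank F Z' = finrank F Z := by
    rw [← hmap]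
    exact (LinearEquiv.finrank_eq (Submodule.equivMapOfInjective _ hinj _))
  have h3 : finrank F (Submodule.span F ((fun x => x ^ p) '' (Z' : Set C))) =
      finrank F (Submodule.span F ((fun x => x ^ p) '' (Z : Set A))) := by
    have h4 : (Submodule.span F ((fun x => x ^ p) '' (Z' : Set C))).map C.val.toLinearMap =
        Submodule.span F ((fun x => x ^ p) '' (Z : Set A)) := by
      rw [Submodule.map_span]
      congr 1
      ext y
      constructor
      · rintro ⟨_, ⟨x, hx, rfl⟩, rfl⟩
        exact ⟨C.val x, hx, by simp⟩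
      · rintro ⟨x, hx, rfl⟩
        exact ⟨(⟨x, hZC hx⟩ : C) ^ p, ⟨⟨x, hZC hx⟩, hx, rfl⟩, by simp⟩
    rw [← h4]
    exact (LinearEquiv.finrank_eq (Submodule.equivMapOfInjective _ hinj _))
  rw [h2, h3] at h1
  exact h1

/-- a commutative group generated by a finite set of elements of exponent `p`. -/
lemma closure_subset {Q : Type*} [CommGroup Q] (p : ℕ) (hp : 0 < p) (s : Finset Q)
    (hs : ∀ g ∈ s, g ^ p = 1) :
    ∃ t : Finset Q, (∀ x ∈ Subgroup.closure (s : Set Q), x ∈ t) ∧ t.card ≤ p ^ s.card := by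
  classical
  induction s using Finset.induction_on with
  | empty => exact ⟨{1}, by simp, by simp⟩
  | insert g s hgs ih =>
    obtain ⟨t, ht, htc⟩ := ih fun g hg => hs g (Finset.mem_insert_of_mem hg)
    refine ⟨Finset.image₂ (fun x y => x * y) ((Finset.range p).image fun i => g ^ i) t, ?_, ?_⟩
    · intro x hx
      rw [Finset.coe_insert, Set.insert_eq, Subgroup.closure_union, Subgroup.mem_sup] at hx
      obtain ⟨y, hy, w, hw, rfl⟩ := hx
      rw [Subgroup.mem_closure_singleton] at hy
      obtain ⟨n, rfl⟩ := hy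
      rw [Finset.mem_image₂]
      refine ⟨g ^ n, ?_, w, ht w hw, rfl⟩
      rw [Finset.mem_image]
      have hg := hs g (Finset.mem_insert_self g s)
      have hp' : (0 : ℤ) < p := by exact_mod_cast hp
      refine ⟨(n % p).toNat, ?_, ?_⟩
      · rw [Finset.mem_range]
        have h1 := Int.emod_lt_of_pos n hp'
        have h2 := Int.emod_nonneg n hp'.ne'
        omega
      · have h2 := Int.emod_nonneg n hp'.ne'
        rw [← zpow_natCast, Int.toNat_of_nonneg h2]
        conv_rhs => rw [← Int.mul_ediv_add_emod n p, zpow_add, zpow_mul, zpow_natCast, hg, one_zpow,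
          one_mul]
    · rw [Finset.card_insert_of_notMem hgs, pow_succ']
      refine (Finset.card_image₂_le _ _ _).trans (Nat.mul_le_mul ?_ htc)
      exact Finset.card_image_le.trans (by simp)

/-- the number of generators is bounded below by an elementary abelian quotient. -/
lemma gen_bound {Γ Q : Type*} [Group Γ] [Group Q] (hcomm : ∀ a b : Q, a * b = b * a) (p : ℕ)
    (hp : 0 < p) (hQ : ∀ a : Q, a ^ p = 1) (H : Subgroup Γ) (φ : H →* Q)
    (hφ : Function.Surjective φ) (s : Finset Γ) (hs : Subgroup.closure (s : Set Γ) = H) :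
    Nat.card Q ≤ p ^ s.card := by
  classical
  let _ : CommGroup Q := { (inferInstance : Group Q) with mul_comm := hcomm }
  have hsH : ∀ g ∈ s, g ∈ H := fun g hg => hs ▸ Subgroup.subset_closure hg
  let s' : Finset Q := s.attach.image fun g => φ ⟨g.1, hsH g.1 g.2⟩
  have hs'card : s'.card ≤ s.card := Finset.card_image_le.trans (by simp)
  obtain ⟨t, ht, htc⟩ := closure_subset p hp s' fun g _ => hQ g
  have key : ∀ g ∈ Subgroup.closure (s : Set Γ), ∀ hg : g ∈ H,
      φ ⟨g, hg⟩ ∈ Subgroup.closure (s' : Set Q) := by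
    intro g hg
    induction hg using Subgroup.closure_induction with
    | mem x hx =>
      intro hxH
      apply Subgroup.subset_closure
      exact Finset.mem_coe.2 (Finset.mem_image.2 ⟨⟨x, hx⟩, Finset.mem_attach _ _, rfl⟩)
    | one =>
      intro h1
      have : (⟨1, h1⟩ : H) = 1 := rfl
      rw [this, map_one]; exact one_mem _
    | mul x y hx hy ihx ihy =>
      intro hxy
      have hxH : x ∈ H := hs ▸ hx
      have hyH : y ∈ H := hs ▸ hy
      have : (⟨x * y, hxy⟩ : H) = ⟨x, hxH⟩ * ⟨y, hyH⟩ := rfl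
      rw [this, map_mul]
      exact mul_mem (ihx hxH) (ihy hyH)
    | inv x hx ihx =>
      intro hxi
      have hxH : x ∈ H := hs ▸ hx
      have : (⟨x⁻¹, hxi⟩ : H) = (⟨x, hxH⟩ : H)⁻¹ := rfl
      rw [this, map_inv]
      exact inv_mem (ihx hxH)
  have hall : ∀ q : Q, q ∈ t := by
    intro q
    obtain ⟨⟨g, hg⟩, rfl⟩ := hφ q
    exact ht _ (key g (hs.symm ▸ hg) hg)
  have h1 : Nat.card Q ≤ t.card := by
    have h2 : Function.Injective (fun q : Q => (⟨q, hall q⟩ : t)) := fun a b h => by
      simpa using h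
    have h3 := Nat.card_le_card_of_injective _ h2
    simpa using h3
  exact h1.trans (htc.trans (Nat.pow_le_pow_right hp hs'card))

/-- units `u` with `u - 1 ∈ W` are in bijection with `W`. -/
lemma card_units {F A : Type*} [Field F] [Ring A] [Algebra F A] (W : Submodule F A)
    (hnil : ∀ x ∈ W, IsNilpotent x) :
    Nat.card {u : Aˣ // (u : A) - 1 ∈ W} = Nat.card W := by
  refine Nat.card_congr
    { toFun := fun u => ⟨(u.1 : A) - 1, u.2⟩
      invFun := fun x => ⟨((hnil x.1 x.2).isUnit_one_add).unit, by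
        rw [IsUnit.unit_spec]; simp⟩
      left_inv := fun u => by
        apply Subtype.ext
        apply Units.ext
        simp
      right_inv := fun x => by
        apply Subtype.ext
        simp }

/-- the centre of `V`. -/
def ctr {F A : Type*} [Field F] [Ring A] [Algebra F A] (V : Submodule F A) : Submodule F A where
  carrier := {x | x ∈ V ∧ ∀ y ∈ V, x * y = y * x}
  zero_mem' := ⟨V.zero_mem, by simp⟩
  add_mem' := by
    rintro x y ⟨hx, hx'⟩ ⟨hy, hy'⟩
    exact ⟨V.add_mem hx hy, fun z hz => by rw [add_mul, mul_add, hx' z hz, hy' z hz]⟩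
  smul_mem' := by
    rintro c x ⟨hx, hx'⟩
    exact ⟨V.smul_mem c hx, fun z hz => by rw [smul_mul_assoc, mul_smul_comm, hx' z hz]⟩

lemma mem_ctr {F A : Type*} [Field F] [Ring A] [Algebra F A] {V : Submodule F A} {x : A} :
    x ∈ ctr V ↔ x ∈ V ∧ ∀ y ∈ V, x * y = y * x := Iff.rfl

/-- the rank of the adjoint group of a commutative nil subspace. -/
theorem comm_rank {p : ℕ} [Fact p.Prime] {A : Type*} [Ring A] [Algebra (ZMod p) A]
    [Module.Finite (ZMod p) A] (Z : Submodule (ZMod p) A)
    (hcomm : ∀ x ∈ Z, ∀ y ∈ Z, x * y = y * x) (hZ : ∀ x ∈ Z, ∀ y ∈ Z, x * y ∈ Z)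
    (hnil : ∀ x ∈ Z, IsNilpotent x) :
    ∃ H : Subgroup Aˣ, (∀ u ∈ H, (u : A) - 1 ∈ Z) ∧
      ∀ s : Finset Aˣ, Subgroup.closure (s : Set Aˣ) = H →
        (p - 1) * finrank (ZMod p) Z ≤ (p + 1) * s.card := by
  classical
  have hp : p.Prime := Fact.out
  have hmain := weak_eggert_commuting p Z hcomm hZ hnil
  have hadd : ∀ x y : A, Commute x y → (x + y) ^ p = x ^ p + y ^ p := by
    rcases subsingleton_or_nontrivial A with hA | hA
    · intro x y _; exact Subsingleton.elim _ _
    · have : CharP A p := charP_of_injective_algebraMap (algebraMap (ZMod p) A).injective p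
      intro x y h; exact add_pow_char_of_commute p h
  let φ : Z →ₗ[ZMod p] A :=
    { toFun := fun x => (x : A) ^ p
      map_add' := fun x y => by
        rw [Submodule.coe_add]; exact hadd _ _ (hcomm _ x.2 _ y.2)
      map_smul' := fun c x => by simp [smul_pow] }
  have hφ : LinearMap.range φ = Submodule.span (ZMod p) ((fun x => x ^ p) '' (Z : Set A)) := by
    apply le_antisymm
    · rintro _ ⟨x, rfl⟩
      exact Submodule.subset_span ⟨x, x.2, rfl⟩
    · rw [Submodule.span_le]
      rintro _ ⟨x, hx, rfl⟩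
      exact ⟨⟨x, hx⟩, rfl⟩
  have hrn := φ.finrank_range_add_finrank_ker
  rw [hφ] at hrn
  have hmul1 : ∀ u v : Aˣ, (u : A) - 1 ∈ Z → (v : A) - 1 ∈ Z → ((u * v : Aˣ) : A) - 1 ∈ Z := by
    intro u v hu hv
    have h1 : ((u * v : Aˣ) : A) - 1 = ((u : A) - 1) * ((v : A) - 1) + ((u : A) - 1) +
      ((v : A) - 1) := by push_cast; noncomm_ring
    rw [h1]
    exact Z.add_mem (Z.add_mem (hZ _ hu _ hv) hu) hv
  have hcu : ∀ u v : Aˣ, (u : A) - 1 ∈ Z → (v : A) - 1 ∈ Z → u * v = v * u := by
    intro u v hu hv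
    apply Units.ext
    have h1 := hcomm _ hu _ hv
    have h2 : ((u * v : Aˣ) : A) - ((v * u : Aˣ) : A) =
        ((u : A) - 1) * ((v : A) - 1) - ((v : A) - 1) * ((u : A) - 1) := by
      push_cast; noncomm_ring
    rw [h1, sub_self] at h2
    exact sub_eq_zero.1 h2
  let H : Subgroup Aˣ :=
    { carrier := {u : Aˣ | (u : A) - 1 ∈ Z ∧ u ^ p = 1}
      one_mem' := by simp
      mul_mem' := by
        rintro u v ⟨hu, hu'⟩ ⟨hv, hv'⟩
        refine ⟨hmul1 u v hu hv, ?_⟩
        have h1 : Commute u v := hcu u v hu hv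
        rw [h1.mul_pow, hu', hv', one_mul]
      inv_mem' := by
        rintro u ⟨hu, hu'⟩
        have hpow : ∀ k : ℕ, ((u ^ k : Aˣ) : A) - 1 ∈ Z := by
          intro k
          induction k with
          | zero => simp
          | succ k ih => rw [pow_succ]; exact hmul1 _ _ ih hu
        have h2 : u⁻¹ = u ^ (p - 1) := by
          rw [inv_eq_iff_mul_eq_one, ← pow_succ', Nat.sub_add_cancel hp.one_le, hu']
        refine ⟨?_, by rw [inv_pow, hu', inv_one]⟩
        rw [h2]
        exact hpow _ }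
  refine ⟨H, fun u hu => hu.1, ?_⟩
  intro s hs
  have hgb := gen_bound (Q := H) (fun a b => Subtype.ext (hcu a b a.2.1 b.2.1)) p hp.pos
    (fun a => Subtype.ext a.2.2) H (MonoidHom.id H) Function.surjective_id s hs
  -- injection from the kernel of `φ`
  have hunit : ∀ x : LinearMap.ker φ, IsUnit (1 + ((x : Z) : A)) := fun x =>
    (hnil _ (x : Z).2).isUnit_one_add
  have hfinA : Finite A := Module.finite_of_finite (ZMod p)
  have hcard : Nat.card (LinearMap.ker φ) ≤ Nat.card H := by
    let f : LinearMap.ker φ → H := fun x => ⟨(hunit x).unit, by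
      refine ⟨?_, ?_⟩
      · rw [IsUnit.unit_spec]; simp
      · apply Units.ext
        rw [Units.val_pow_eq_pow_val, IsUnit.unit_spec, hadd _ _ (Commute.one_left _), one_pow]
        have h1 : φ (x : Z) = 0 := x.2
        have h2 : ((x : Z) : A) ^ p = 0 := h1
        rw [h2, add_zero, Units.val_one]⟩
    have hf : Function.Injective f := by
      intro x y hxy
      have h1 : ((f x : Aˣ) : A) = ((f y : Aˣ) : A) := by rw [hxy]
      have h2 : 1 + ((x : Z) : A) = 1 + ((y : Z) : A) := h1
      exact Subtype.ext (Subtype.ext (add_left_cancel h2))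
    exact Nat.card_le_card_of_injective f hf
  have hker : Nat.card (LinearMap.ker φ) = p ^ finrank (ZMod p) (LinearMap.ker φ) := by
    rw [Module.natCard_eq_pow_finrank (K := ZMod p)]
    simp
  have hle : finrank (ZMod p) (LinearMap.ker φ) ≤ s.card := by
    have h1 : p ^ finrank (ZMod p) (LinearMap.ker φ) ≤ p ^ s.card := by
      rw [← hker]; exact hcard.trans hgb
    exact (Nat.pow_le_pow_iff_right hp.one_lt).1 h1
  have h1 := Nat.mul_le_mul_left (p + 1) hle
  obtain ⟨q, hq⟩ : ∃ q, p = q + 1 := ⟨p - 1, by have := hp.one_le; omega⟩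
  generalize finrank (ZMod p) (Submodule.span (ZMod p) ((fun x => x ^ p) '' (Z : Set A))) = a
    at hmain hrn
  generalize finrank (ZMod p) (LinearMap.ker φ) = c at hrn h1
  generalize finrank (ZMod p) Z = N at hmain hrn ⊢
  generalize s.card = r at h1 ⊢
  clear * - hmain hrn h1 hq
  subst hq
  simp only [Nat.add_sub_cancel]
  nlinarith

/-- **Rank of powerful adjoint groups.** -/
theorem rank_bound {p : ℕ} [Fact p.Prime] {A : Type*} [Ring A] [Algebra (ZMod p) A]
    [Module.Finite (ZMod p) A] (V : Submodule (ZMod p) A) (hV : V * V ≤ V)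
    (hnil : ∃ n : ℕ, V ^ n = ⊥) {e k : ℕ} (he : e = p ^ k) (hk : 3 ≤ p ^ k)
    (hpow : ⁅G V, G V⁆ ≤ Subgroup.closure {x : Aˣ | ∃ g ∈ G V, g ^ e = x}) :
    ∃ H : Subgroup Aˣ, H ≤ G V ∧ ∀ s : Finset Aˣ, Subgroup.closure (s : Set Aˣ) = H →
      finrank (ZMod p) V ≤ 4 * s.card := by
  classical
  have hp : p.Prime := Fact.out
  have hlie := lie_class_two hV hnil he hk hpow
  obtain ⟨N, hN⟩ := hnil
  have hVV : ∀ x ∈ V, ∀ y ∈ V, x * y ∈ V := fun x hx y hy => hV (Submodule.mul_mem_mul hx hy)
  have hnilV : ∀ x ∈ V, IsNilpotent x := fun x hx => ⟨N, pow_eq_zero_of_mem hN hx⟩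
  have hfinA : Finite A := Module.finite_of_finite (ZMod p)
  set Z := ctr V with hZdef
  have hZV : Z ≤ V := fun x hx => (mem_ctr.1 hx).1
  have hZmul : ∀ x ∈ Z, ∀ y ∈ Z, x * y ∈ Z := by
    intro x hx y hy
    refine ⟨hVV _ hx.1 _ hy.1, fun z hz => ?_⟩
    rw [mul_assoc, hy.2 z hz, ← mul_assoc, hx.2 z hz, mul_assoc]
  have hZcomm : ∀ x ∈ Z, ∀ y ∈ Z, x * y = y * x := fun x hx y hy => hx.2 y hy.1
  -- `p`-th powers of elements of `1 + V` commute with `V`
  have hpc : ∀ m : ℕ, 2 ≤ p ^ m → ∀ g : A, g - 1 ∈ V → ∀ z ∈ V, g ^ p ^ m * z = z * g ^ p ^ m := by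
    intro m hm g hg z hz
    rcases subsingleton_or_nontrivial A with hA | hA
    · exact Subsingleton.elim _ _
    rw [← sub_eq_zero, ad_pow (F := ZMod p)]
    obtain ⟨x, hx, rfl⟩ : ∃ x ∈ V, g = 1 + x := ⟨g - 1, hg, by abel⟩
    obtain ⟨q, hq⟩ := Nat.exists_eq_add_of_le hm
    have hD : ∀ w : A, (LinearMap.mulLeft (ZMod p) (1 + x) - LinearMap.mulRight (ZMod p) (1 + x)) w =
        x * w - w * x := by
      intro w
      simp only [LinearMap.sub_apply, LinearMap.mulLeft_apply, LinearMap.mulRight_apply]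
      noncomm_ring
    have h5 : ∀ D : Module.End (ZMod p) A, (D ^ (2 + q)) z = (D ^ q) (D (D z)) := fun D => by
      rw [add_comm, pow_add, Module.End.mul_apply, pow_two, Module.End.mul_apply]
    rw [hq, h5, hD, hD]
    have h6 : x * (x * z - z * x) - (x * z - z * x) * x = 0 := by
      have h7 := hlie x hx z hz x hx
      rw [← neg_eq_zero, ← h7]; abel
    rw [h6, map_zero]
  rcases Nat.lt_or_ge (finrank (ZMod p) V) (4 * (finrank (ZMod p) V - finrank (ZMod p) Z)) with h | h
  · -- the whole group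
    refine ⟨G V, le_rfl, fun s hs => ?_⟩
    let Nn : Subgroup (G V) :=
      { carrier := {g | ((g : Aˣ) : A) - 1 ∈ Z}
        one_mem' := by simp
        mul_mem' := by
          intro u v hu hv
          have h1 : (((u * v : G V) : Aˣ) : A) - 1 = (((u : Aˣ) : A) - 1) * (((v : Aˣ) : A) - 1) +
            (((u : Aˣ) : A) - 1) + (((v : Aˣ) : A) - 1) := by push_cast; noncomm_ring
          change (((u * v : G V) : Aˣ) : A) - 1 ∈ Z
          rw [h1]
          exact Z.add_mem (Z.add_mem (hZmul _ hu _ hv) hu) hv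
        inv_mem' := by
          intro u hu
          have hu' : ((u : Aˣ) : A) - 1 ∈ Z := hu
          refine ⟨inv_sub_one_mem hV (hZV hu') (pow_eq_zero_of_mem hN (hZV hu')), fun z hz => ?_⟩
          have h1 := hu'.2 z hz
          have h2 : ((u : Aˣ) : A) * z = z * ((u : Aˣ) : A) := by
            have h3 : ((u : Aˣ) : A) * z - z * ((u : Aˣ) : A) =
              (((u : Aˣ) : A) - 1) * z - z * (((u : Aˣ) : A) - 1) := by noncomm_ring
            rw [h1, sub_self] at h3
            exact sub_eq_zero.1 h3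
          have h4 : (((u⁻¹ : G V) : Aˣ) : A) * z = z * (((u⁻¹ : G V) : Aˣ) : A) := by
            have h5 : (((u⁻¹ : G V) : Aˣ) : A) = ((((u : Aˣ))⁻¹ : Aˣ) : A) := rfl
            rw [h5]
            exact ((show Commute ((u : Aˣ) : A) z from h2).units_inv_left)
          rw [sub_mul, mul_sub, h4, one_mul, mul_one] }
    have hNnmem : ∀ g : G V, g ∈ Nn ↔ ((g : Aˣ) : A) - 1 ∈ Z := fun g => Iff.rfl
    have hcentral : ∀ g ∈ Nn, ∀ h : G V, g * h = h * g := by
      intro g hg h
      have h1 := ((hNnmem g).1 hg).2 _ ((mem_G hV hN).1 h.2)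
      apply Subtype.ext
      apply Units.ext
      have h2 : (((g * h : G V) : Aˣ) : A) - (((h * g : G V) : Aˣ) : A) =
          (((g : Aˣ) : A) - 1) * (((h : Aˣ) : A) - 1) -
            (((h : Aˣ) : A) - 1) * (((g : Aˣ) : A) - 1) := by
        push_cast; noncomm_ring
      rw [h1, sub_self] at h2
      exact sub_eq_zero.1 h2
    have hnormal : Nn.Normal := ⟨fun n hn g => by
      have h1 : g * n * g⁻¹ = n := by rw [← hcentral n hn g, mul_assoc, mul_inv_cancel, mul_one]
      rw [h1]; exact hn⟩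
    -- elements of `closure {g ^ e}`
    have hcl : ∀ g ∈ Subgroup.closure {x : Aˣ | ∃ g ∈ G V, g ^ e = x},
        ∀ hg : g ∈ G V, (⟨g, hg⟩ : G V) ∈ Nn := by
      have hle : Subgroup.closure {x : Aˣ | ∃ g ∈ G V, g ^ e = x} ≤ Nn.map (G V).subtype := by
        rw [Subgroup.closure_le]
        rintro _ ⟨g, hg, rfl⟩
        refine ⟨⟨g, hg⟩ ^ e, ?_, rfl⟩
        rw [SetLike.mem_coe, hNnmem]
        refine ⟨(mem_G hV hN).1 (Subgroup.pow_mem _ hg e), fun z hz => ?_⟩
        have h1 := hpc k (by omega) g ((mem_G hV hN).1 hg) z hz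
        rw [← he] at h1
        have h2 : ((((⟨g, hg⟩ : G V) ^ e : G V) : Aˣ) : A) = (g : A) ^ e := by
          simp
        rw [h2, sub_mul, mul_sub, h1, one_mul, mul_one]
      intro g hg hgG
      obtain ⟨g', hg', rfl⟩ := hle hg
      exact hg'
    have hQcomm : ∀ a b : (G V) ⧸ Nn, a * b = b * a := by
      intro a b
      induction a using QuotientGroup.induction_on with
      | H a =>
        induction b using QuotientGroup.induction_on with
        | H b =>
          rw [← QuotientGroup.mk_mul, ← QuotientGroup.mk_mul, QuotientGroup.eq]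
          have h1 : ⁅((b : Aˣ))⁻¹, ((a : Aˣ))⁻¹⁆ ∈ ⁅G V, G V⁆ :=
            Subgroup.commutator_mem_commutator (inv_mem b.2) (inv_mem a.2)
          have h3 : (((a * b)⁻¹ * (b * a) : G V) : Aˣ) = ⁅((b : Aˣ))⁻¹, ((a : Aˣ))⁻¹⁆ := by
            simp [commutatorElement_def, mul_assoc]
          exact hcl _ (by rw [h3]; exact hpow h1) ((a * b)⁻¹ * (b * a) : G V).2
    have hQp : ∀ a : (G V) ⧸ Nn, a ^ p = 1 := by
      intro a
      induction a using QuotientGroup.induction_on with
      | H a =>
        rw [← QuotientGroup.mk_pow, QuotientGroup.eq_one_iff, hNnmem]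
        refine ⟨(mem_G hV hN).1 (a ^ p).2, fun z hz => ?_⟩
        have h1 := hpc 1 (by rw [pow_one]; exact hp.two_le) _ ((mem_G hV hN).1 a.2) z hz
        rw [pow_one] at h1
        have h2 : (((a ^ p : G V) : Aˣ) : A) = ((a : Aˣ) : A) ^ p := by simp
        rw [h2, sub_mul, mul_sub, h1, one_mul, mul_one]
    have hgb := gen_bound hQcomm p hp.pos hQp (G V) (QuotientGroup.mk' Nn)
      (QuotientGroup.mk'_surjective Nn) s hs
    have hcQ := Subgroup.card_eq_card_quotient_mul_card_subgroup Nn
    have hcG : Nat.card (G V) = p ^ finrank (ZMod p) V := by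
      have h1 : Nat.card (G V) = Nat.card {u : Aˣ // (u : A) - 1 ∈ V} :=
        Nat.card_congr (Equiv.subtypeEquivRight fun u => mem_G hV hN)
      rw [h1, card_units V hnilV, Module.natCard_eq_pow_finrank (K := ZMod p)]
      simp
    have hcN : Nat.card Nn = p ^ finrank (ZMod p) Z := by
      have h1 : Nat.card Nn = Nat.card {u : Aˣ // (u : A) - 1 ∈ Z} :=
        Nat.card_congr
          { toFun := fun g => ⟨((g : G V) : Aˣ), g.2⟩
            invFun := fun u => ⟨⟨u.1, (mem_G hV hN).2 (hZV u.2)⟩, u.2⟩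
            left_inv := fun g => rfl
            right_inv := fun u => rfl }
      rw [h1, card_units Z fun x hx => hnilV x (hZV hx), Module.natCard_eq_pow_finrank (K := ZMod p)]
      simp
    rw [hcG, hcN] at hcQ
    have h1 : p ^ finrank (ZMod p) V ≤ p ^ (s.card + finrank (ZMod p) Z) := by
      rw [hcQ, pow_add]
      exact Nat.mul_le_mul_right _ hgb
    have h2 := (Nat.pow_le_pow_iff_right hp.one_lt).1 h1
    omega
  · -- the centre
    obtain ⟨H, hH, hs⟩ := comm_rank Z hZcomm hZmul fun x hx => hnilV x (hZV hx)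
    refine ⟨H, fun u hu => (mem_G hV hN).2 (hZV (hH u hu)), fun s hcl => ?_⟩
    have h1 := hs s hcl
    have h2 : finrank (ZMod p) Z ≤ 3 * s.card := by
      rcases hp.eq_two_or_odd' with h3 | h3
      · subst h3
        simpa using h1
      · have h4 : 3 ≤ p := by
          have := hp.two_le
          rcases h3 with ⟨m, hm⟩
          omega
        obtain ⟨q, rfl⟩ := Nat.exists_eq_add_of_le h4
        have h5 : 3 + q - 1 = 2 + q := by omega
        rw [h5] at h1
        generalize finrank (ZMod (3 + q)) Z = d at h1 ⊢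
        clear * - h1
        nlinarith
    have h3 := Submodule.finrank_mono hZV
    omega

end Pool.Agent.H20.Powerful
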