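import Mathlib

/-!
# A ring in which `R ≅ R²` and a splitting of the pairs `p q = 1`

`k` is a field, `A` a `k`-algebra with a basis `b : Basis I k A` with `b o = 1`.  We construct the
ring `R = A *_k k[z]/(z²)` as a ring of operators on `W = A⟨I⟩`.
-/

noncomputable section

namespace Pool.Agent.H20.Wild

open MonoidAlgebra
open scoped Classical

variable {k A I : Type} [Field k] [Ring A] [Algebra k A]

/-- The space of noncommutative polynomials with coefficients in `A`. -/
abbrev W (A I : Type) [Ring A] := MonoidAlgebra A (FreeMonoid I)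

/-- noncommutative polynomials with scalar coefficients -/
abbrev S (k I : Type) [Field k] := MonoidAlgebra k (FreeMonoid I)

/-- inclusion of scalar polynomials -/
def psi (k A I : Type) [Field k] [Ring A] [Algebra k A] : S k I →+* W A I :=
  MonoidAlgebra.mapRingHom (FreeMonoid I) (algebraMap k A)

@[simp] lemma psi_coeff (s : S k I) (l : FreeMonoid I) :
    (psi k A I s).coeff l = algebraMap k A (s.coeff l) := by
  simp [psi]

@[simp] lemma psi_single (l : FreeMonoid I) (r : k) :
    psi k A I (MonoidAlgebra.single l r) = MonoidAlgebra.single l (algebraMap k A r) := by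
  simp [psi]

variable (b : Module.Basis I k A) (o : I)

/-- the letters part of an element of `A`. -/
def zeta : A →ₗ[k] S k I :=
  (Finsupp.lsum k (fun i : I => if i = o then 0 else
    (LinearMap.toSpanSingleton k (S k I) (MonoidAlgebra.single (FreeMonoid.of i) (1 : k))))) ∘ₗ
    b.repr.toLinearMap

lemma zeta_apply (a : A) : zeta b o a =
    (b.repr a).sum fun i r => if i = o then 0 else MonoidAlgebra.single (FreeMonoid.of i) r := by
  unfold zeta
  simp only [LinearMap.comp_apply, LinearEquiv.coe_coe, Finsupp.lsum_apply]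
  apply Finsupp.sum_congr
  intro i _
  split_ifs <;> simp

/-- `η : W → S`, sending `a · l` to `ζ(a) l`. -/
def eta : W A I →ₗ[k] S k I :=
  (Finsupp.lsum k (fun l : FreeMonoid I =>
    (LinearMap.mulRight k (MonoidAlgebra.single l (1 : k) : S k I)) ∘ₗ zeta b o)) ∘ₗ
    (MonoidAlgebra.coeffLinearEquiv k).toLinearMap

lemma eta_apply (w : W A I) : eta b o w =
    w.coeff.sum fun l a => zeta b o a * MonoidAlgebra.single l 1 := rfl

@[simp] lemma eta_single (l : FreeMonoid I) (a : A) : eta b o (MonoidAlgebra.single l a) =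
    zeta b o a * MonoidAlgebra.single l 1 := by
  rw [eta_apply]
  simp [MonoidAlgebra.coeff_single, Finsupp.sum_single_index]

lemma of_mul_inj {i i' : I} {l l' : FreeMonoid I} :
    FreeMonoid.of i' * l' = FreeMonoid.of i * l ↔ i' = i ∧ l' = l := by
  constructor
  · intro h
    have h2 : (FreeMonoid.toList (FreeMonoid.of i' * l')) =
      FreeMonoid.toList (FreeMonoid.of i * l) := by rw [h]
    simp only [FreeMonoid.toList_mul, FreeMonoid.toList_of, List.cons_append, List.nil_append,
      List.cons.injEq] at h2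
    exact ⟨h2.1, FreeMonoid.toList.injective h2.2⟩
  · rintro ⟨rfl, rfl⟩; rfl

lemma zeta_mul_single_coeff (a : A) (l' l : FreeMonoid I) (i : I) :
    (zeta b o a * MonoidAlgebra.single l' (1 : k)).coeff (FreeMonoid.of i * l) =
      if i = o then 0 else if l' = l then b.repr a i else 0 := by
  rw [zeta_apply, Finsupp.sum, Finset.sum_mul, MonoidAlgebra.coeff_sum, Finset.sum_apply']
  have : ∀ j ∈ (b.repr a).support, (((if j = o then (0 : S k I) else
      MonoidAlgebra.single (FreeMonoid.of j) (b.repr a j)) * MonoidAlgebra.single l' (1 : k)).coeff)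
      (FreeMonoid.of i * l) = if j = i then (if i = o then 0 else if l' = l then b.repr a i else 0)
        else 0 := by
    intro j _
    by_cases hj : j = o
    · subst hj
      by_cases hi : j = i
      · subst hi; simp
      · simp [hi]
    · simp only [hj, if_false, MonoidAlgebra.single_mul_single, mul_one,
        MonoidAlgebra.coeff_single, Finsupp.single_apply, of_mul_inj]
      by_cases hi : j = i
      · subst hi; simp [hj]
      · simp [hi]
  rw [Finset.sum_congr rfl this, Finset.sum_ite_eq']
  split_ifs with h1 h2 h3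
  · rfl
  · rfl
  · rfl
  · rfl
  · have := Finsupp.notMem_support_iff.mp h1
    exact this.symm
  · rfl

lemma eta_coeff (w : W A I) (l : FreeMonoid I) (i : I) :
    (eta b o w).coeff (FreeMonoid.of i * l) = if i = o then 0 else b.repr (w.coeff l) i := by
  rw [eta_apply, Finsupp.sum, MonoidAlgebra.coeff_sum, Finset.sum_apply']
  simp only [zeta_mul_single_coeff]
  split_ifs with h
  · simp
  · rw [Finset.sum_ite_eq']
    split_ifs with h2
    · rfl
    · rw [Finsupp.notMem_support_iff.mp h2]; simp

lemma zeta_coeff_one (a : A) (l : FreeMonoid I) :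
    (zeta b o a * MonoidAlgebra.single l (1 : k)).coeff 1 = 0 := by
  rw [zeta_apply, Finsupp.sum, Finset.sum_mul, MonoidAlgebra.coeff_sum, Finset.sum_apply']
  apply Finset.sum_eq_zero
  intro j _
  by_cases hj : j = o
  · simp [hj]
  · simp only [hj, if_false, MonoidAlgebra.single_mul_single, mul_one,
        MonoidAlgebra.coeff_single, Finsupp.single_apply]
    rw [if_neg]
    intro h
    have h2 := congrArg FreeMonoid.toList h
    simp at h2

lemma eta_coeff_one (w : W A I) : (eta b o w).coeff 1 = 0 := by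
  rw [eta_apply, Finsupp.sum, MonoidAlgebra.coeff_sum, Finset.sum_apply']
  apply Finset.sum_eq_zero
  intro l _
  exact zeta_coeff_one b o _ _

lemma eta_mul_psi (w : W A I) (s : S k I) : eta b o (w * psi k A I s) = eta b o w * s := by
  induction w using MonoidAlgebra.induction_linear with
  | zero => simp
  | add f g hf hg => simp [add_mul, hf, hg]
  | single l a =>
    induction s using MonoidAlgebra.induction_linear with
    | zero => simp
    | add f g hf hg => rw [map_add, mul_add, map_add, hf, hg, mul_add]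
    | single l' r =>
      rw [psi_single, MonoidAlgebra.single_mul_single, eta_single, eta_single]
      have : a * algebraMap k A r = r • a := by
        rw [Algebra.smul_def, Algebra.commutes]
      rw [this, map_smul, mul_assoc, MonoidAlgebra.single_mul_single, one_mul]
      rw [smul_mul_assoc, ← mul_smul_comm]
      congr 1
      simp

/-! ### Degrees -/

/-- all words occurring in `w` have length at most `n` -/
def DegLE (n : ℕ) (w : W A I) : Prop := ∀ l : FreeMonoid I, n < l.length → w.coeff l = 0

lemma mul_coeff_top (c σ : W A I) (n m : ℕ) (hc : DegLE n c) (hσ : DegLE m σ)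
    (l₁ l₂ : FreeMonoid I) (h₁ : l₁.length = n) (h₂ : l₂.length = m) :
    (c * σ).coeff (l₁ * l₂) = c.coeff l₁ * σ.coeff l₂ := by
  rw [MonoidAlgebra.coeff_mul, Finsupp.sum]
  have key : ∀ x ∈ c.coeff.support, (σ.coeff.sum fun m₂ r₂ =>
      if x * m₂ = l₁ * l₂ then c.coeff x * r₂ else 0) =
      if x = l₁ then c.coeff l₁ * σ.coeff l₂ else 0 := by
    intro x hx
    have hxn : x.length ≤ n := by
      by_contra h
      exact (Finsupp.mem_support_iff.mp hx) (hc x (not_le.mp h))
    rw [Finsupp.sum]
    have key2 : ∀ y ∈ σ.coeff.support, (if x * y = l₁ * l₂ then c.coeff x * σ.coeff y else 0) =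
        if y = l₂ then (if x = l₁ then c.coeff l₁ * σ.coeff l₂ else 0) else 0 := by
      intro y hy
      have hym : y.length ≤ m := by
        by_contra h
        exact (Finsupp.mem_support_iff.mp hy) (hσ y (not_le.mp h))
      have hiff : x * y = l₁ * l₂ ↔ (y = l₂ ∧ x = l₁) := by
        constructor
        · intro h
          have hl := congrArg FreeMonoid.length h
          rw [FreeMonoid.length_mul, FreeMonoid.length_mul] at hl
          have hxl : x.length = l₁.length := by omega
          have h' : FreeMonoid.toList x ++ FreeMonoid.toList y =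
              FreeMonoid.toList l₁ ++ FreeMonoid.toList l₂ := by
            rw [← FreeMonoid.toList_mul, h, FreeMonoid.toList_mul]
          have h3 := List.append_inj h' hxl
          exact ⟨FreeMonoid.toList.injective h3.2, FreeMonoid.toList.injective h3.1⟩
        · rintro ⟨rfl, rfl⟩; rfl
      by_cases h1 : y = l₂
      · by_cases h2 : x = l₁
        · subst h1; subst h2; simp
        · rw [if_neg (fun h => h2 (hiff.mp h).2), if_pos h1, if_neg h2]
      · rw [if_neg (fun h => h1 (hiff.mp h).1), if_neg h1]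
    rw [Finset.sum_congr rfl key2, Finset.sum_ite_eq']
    split_ifs with h1 h2
    · rfl
    · rfl
    · rw [Finsupp.notMem_support_iff.mp h1]; simp
    · rfl
  rw [Finset.sum_congr rfl key, Finset.sum_ite_eq']
  split_ifs with h1
  · rfl
  · rw [Finsupp.notMem_support_iff.mp h1]; simp

lemma degLE_mul (c σ : W A I) (n m : ℕ) (hc : DegLE n c) (hσ : DegLE m σ) :
    DegLE (n + m) (c * σ) := by
  intro l hl
  rw [MonoidAlgebra.coeff_mul, Finsupp.sum]
  apply Finset.sum_eq_zero
  intro x hx
  rw [Finsupp.sum]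
  apply Finset.sum_eq_zero
  intro y hy
  rw [if_neg]
  intro h
  have hxn : x.length ≤ n := by
    by_contra h
    exact (Finsupp.mem_support_iff.mp hx) (hc x (not_le.mp h))
  have hym : y.length ≤ m := by
    by_contra h
    exact (Finsupp.mem_support_iff.mp hy) (hσ y (not_le.mp h))
  have hl2 := congrArg FreeMonoid.length h
  rw [FreeMonoid.length_mul] at hl2
  omega

/-- the constant `a` -/
def cst (a : A) : W A I := MonoidAlgebra.single 1 a

@[simp] lemma cst_mul_coeff (a : A) (w : W A I) (l : FreeMonoid I) :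
    (cst a * w).coeff l = a * w.coeff l := by
  unfold cst
  rw [MonoidAlgebra.coeff_single_mul_eq_mul_coeff l]
  intro m' _
  rw [one_mul]

lemma cst_coeff_one (a : A) : (cst a : W A I).coeff 1 = a := by
  simp [cst, MonoidAlgebra.coeff_single]

lemma cst_coeff_ne (a : A) (l : FreeMonoid I) (h : l ≠ 1) : (cst a : W A I).coeff l = 0 := by
  simp [cst, MonoidAlgebra.coeff_single, h.symm]

lemma cst_mul (a a' : A) : (cst (a * a') : W A I) = cst a * cst a' := by
  simp [cst]

lemma cst_add (a a' : A) : (cst (a + a') : W A I) = cst a + cst a' := by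
  simp [cst]

lemma degLE_cst (a : A) : DegLE 0 (cst a : W A I) := by
  intro l hl
  apply cst_coeff_ne
  rintro rfl
  simp at hl

lemma degLE_cst_mul (a : A) (w : W A I) (n : ℕ) (h : DegLE n w) : DegLE n (cst a * w) := by
  intro l hl
  rw [cst_mul_coeff, h l hl, mul_zero]

lemma degLE_eta (w : W A I) (n : ℕ) (h : DegLE n w) : DegLE (n + 1) (psi k A I (eta b o w)) := by
  intro l hl
  rw [psi_coeff]
  induction l using FreeMonoid.casesOn with
  | one => simp at hl
  | of_mul i l =>
    rw [eta_coeff]
    rw [FreeMonoid.length_mul, FreeMonoid.length_of] at hl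
    rw [h l (by omega)]
    simp

/-! ### The operators -/

/-- additive operators on `W` -/
abbrev E (A I : Type) [Ring A] := AddMonoid.End (W A I)

lemma E_mul_apply (f g : E A I) (w : W A I) : (f * g) w = f (g w) := rfl

/-- left multiplication by constants -/
def Lop : A →+* E A I where
  toFun a := AddMonoidHom.mulLeft (cst a)
  map_one' := by
    ext w : 1
    show cst 1 * w = w
    apply MonoidAlgebra.ext
    ext l
    rw [cst_mul_coeff, one_mul]
  map_mul' a a' := by
    ext w : 1
    show cst (a * a') * w = cst a * (cst a' * w)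
    rw [cst_mul, mul_assoc]
  map_zero' := by
    ext w : 1
    show cst 0 * w = 0
    apply MonoidAlgebra.ext
    ext l
    rw [cst_mul_coeff, zero_mul]; rfl
  map_add' a a' := by
    ext w : 1
    show cst (a + a') * w = cst a * w + cst a' * w
    rw [cst_add, add_mul]

lemma Lop_apply (a : A) (w : W A I) : Lop a w = cst a * w := rfl

/-- the operators `w ↦ c · η(a w)` -/
def K (c : W A I) (a : A) : E A I :=
  (AddMonoidHom.mulLeft c).comp ((psi k A I : S k I →+* W A I).toAddMonoidHom.comp
    ((eta b o).toAddMonoidHom.comp (AddMonoidHom.mulLeft (cst a))))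

lemma K_apply (c : W A I) (a : A) (w : W A I) :
    K b o c a w = c * psi k A I (eta b o (cst a * w)) := rfl

/-- the operators `∑ᵢ cᵢ η bᵢ` -/
def KK : (I →₀ W A I) →+ E A I :=
  Finsupp.liftAddHom (fun i =>
    { toFun := fun c => K b o c (b i)
      map_zero' := by ext w : 1; simp [K_apply]
      map_add' := fun x y => by
        ext w : 1
        show K b o (x + y) (b i) w = K b o x (b i) w + K b o y (b i) w
        simp [K_apply, add_mul] })

lemma KK_apply (c : I →₀ W A I) (w : W A I) :
    KK b o c w = c.sum fun i ci => ci * psi k A I (eta b o (cst (b i) * w)) := by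
  unfold KK
  rw [Finsupp.liftAddHom_apply, Finsupp.sum, Finsupp.sum]
  erw [AddMonoidHom.finsetSum_apply]
  rfl

lemma KK_single (i : I) (c : W A I) : KK b o (Finsupp.single i c) = K b o c (b i) := by
  unfold KK
  rw [Finsupp.liftAddHom_apply_single]
  rfl

lemma K_add_right (c : W A I) (a a' : A) : K b o c (a + a') = K b o c a + K b o c a' := by
  ext w : 1
  show K b o c (a + a') w = K b o c a w + K b o c a' w
  simp [K_apply, cst_add, add_mul, mul_add]

lemma K_smul_right (c : W A I) (r : k) (a : A) :
    K b o c (r • a) = K b o (c * cst (algebraMap k A r)) a := by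
  ext w : 1
  show K b o c (r • a) w = K b o (c * cst (algebraMap k A r)) a w
  rw [K_apply, K_apply, mul_assoc]
  congr 1
  have h1 : (cst (r • a) : W A I) * w = r • (cst a * w) := by
    apply MonoidAlgebra.ext
    ext l
    rw [MonoidAlgebra.coeff_smul_apply, cst_mul_coeff, cst_mul_coeff, smul_mul_assoc]
  rw [h1, map_smul]
  apply MonoidAlgebra.ext
  ext l
  rw [cst_mul_coeff, psi_coeff, psi_coeff, MonoidAlgebra.coeff_smul_apply, smul_eq_mul, map_mul]

lemma K_mem (c : W A I) (a : A) : ∃ c' : I →₀ W A I, KK b o c' = K b o c a := by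
  have h : ∀ f : I →₀ k, ∃ c' : I →₀ W A I, KK b o c' = K b o c (b.repr.symm f) := by
    intro f
    induction f using Finsupp.induction_linear with
    | zero =>
      refine ⟨0, ?_⟩
      rw [map_zero, map_zero]
      ext w : 1
      simp [K_apply, cst]
    | add f g hf hg =>
      obtain ⟨c₁, h₁⟩ := hf
      obtain ⟨c₂, h₂⟩ := hg
      exact ⟨c₁ + c₂, by rw [map_add, h₁, h₂, map_add, K_add_right]⟩
    | single i r =>
      refine ⟨Finsupp.single i (c * cst (algebraMap k A r)), ?_⟩
      rw [KK_single, Module.Basis.repr_symm_single, K_smul_right]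
  have := h (b.repr a)
  simpa using this

lemma Lop_mul_K (a : A) (c : W A I) (a' : A) :
    Lop a * K b o c a' = K b o (cst a * c) a' := by
  apply DFunLike.ext
  intro w
  rw [E_mul_apply, Lop_apply, K_apply, K_apply, mul_assoc]

lemma K_mul_Lop (c : W A I) (a a' : A) :
    K b o c a * Lop a' = K b o c (a * a') := by
  apply DFunLike.ext
  intro w
  rw [E_mul_apply, Lop_apply, K_apply, K_apply, cst_mul, mul_assoc]

lemma K_mul_K (c : W A I) (a : A) (c' : W A I) (a' : A) :
    K b o c a * K b o c' a' = K b o (c * psi k A I (eta b o (cst a * c'))) a' := by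
  apply DFunLike.ext
  intro w
  rw [E_mul_apply, K_apply, K_apply, K_apply, ← mul_assoc (cst a) c', eta_mul_psi,
    map_mul, mul_assoc]

lemma Lop_mul_KK (a : A) (c : I →₀ W A I) : ∃ c', Lop a * KK b o c = KK b o c' := by
  induction c using Finsupp.induction_linear with
  | zero => exact ⟨0, by simp⟩
  | add f g hf hg =>
    obtain ⟨c₁, h₁⟩ := hf
    obtain ⟨c₂, h₂⟩ := hg
    exact ⟨c₁ + c₂, by rw [map_add, mul_add, h₁, h₂, map_add]⟩
  | single i c =>
    obtain ⟨c', hc'⟩ := K_mem b o (cst a * c) (b i)
    exact ⟨c', by rw [KK_single, Lop_mul_K, hc']⟩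

lemma KK_mul_Lop (a : A) (c : I →₀ W A I) : ∃ c', KK b o c * Lop a = KK b o c' := by
  induction c using Finsupp.induction_linear with
  | zero => exact ⟨0, by simp⟩
  | add f g hf hg =>
    obtain ⟨c₁, h₁⟩ := hf
    obtain ⟨c₂, h₂⟩ := hg
    exact ⟨c₁ + c₂, by rw [map_add, add_mul, h₁, h₂, map_add]⟩
  | single i c =>
    obtain ⟨c', hc'⟩ := K_mem b o c (b i * a)
    exact ⟨c', by rw [KK_single, K_mul_Lop, hc']⟩

lemma KK_mul_KK (c d : I →₀ W A I) : ∃ c', KK b o c * KK b o d = KK b o c' := by
  induction c using Finsupp.induction_linear with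
  | zero => exact ⟨0, by simp⟩
  | add f g hf hg =>
    obtain ⟨c₁, h₁⟩ := hf
    obtain ⟨c₂, h₂⟩ := hg
    exact ⟨c₁ + c₂, by rw [map_add, add_mul, h₁, h₂, map_add]⟩
  | single i c =>
    induction d using Finsupp.induction_linear with
    | zero => exact ⟨0, by simp⟩
    | add f g hf hg =>
      obtain ⟨c₁, h₁⟩ := hf
      obtain ⟨c₂, h₂⟩ := hg
      exact ⟨c₁ + c₂, by rw [map_add, mul_add, h₁, h₂, map_add]⟩
    | single j d =>
      rw [KK_single, KK_single, K_mul_K]
      obtain ⟨c', hc'⟩ := K_mem b o (c * psi k A I (eta b o (cst (b i) * d))) (b j)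
      exact ⟨c', hc'.symm⟩

/-- The ring `R = A *_k k[z]/(z²)`, as a ring of operators. -/
def R : Subring (E A I) where
  carrier := {x | ∃ (a : A) (c : I →₀ W A I), x = Lop a + KK b o c}
  mul_mem' := by
    rintro _ _ ⟨a, c, rfl⟩ ⟨a', c', rfl⟩
    obtain ⟨d₁, h₁⟩ := Lop_mul_KK b o a c'
    obtain ⟨d₂, h₂⟩ := KK_mul_Lop b o a' c
    obtain ⟨d₃, h₃⟩ := KK_mul_KK b o c c'
    refine ⟨a * a', d₁ + d₂ + d₃, ?_⟩
    rw [add_mul, mul_add, mul_add, h₁, h₂, h₃, map_mul, map_add, map_add]
    abel
  one_mem' := ⟨1, 0, by simp⟩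
  add_mem' := by
    rintro _ _ ⟨a, c, rfl⟩ ⟨a', c', rfl⟩
    exact ⟨a + a', c + c', by rw [map_add, map_add]; abel⟩
  zero_mem' := ⟨0, 0, by simp⟩
  neg_mem' := by
    rintro _ ⟨a, c, rfl⟩
    exact ⟨-a, -c, by rw [map_neg, map_neg]; abel⟩

/-! ### Top parts -/

/-- The value of the part of `c` on the word `l`. -/
def topval (c : I →₀ W A I) (l : FreeMonoid I) (a : A) (i : I) : A :=
  c.sum fun j cj => cj.coeff l * algebraMap k A (b.repr (b j * a) i)

/-- all the coefficients have length at most `n` -/
def DegLE' (n : ℕ) (c : I →₀ W A I) : Prop := ∀ j, DegLE n (c j)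

lemma KK_coeff_top (c : I →₀ W A I) (n m : ℕ) (hc : DegLE' n c) (w : W A I) (hw : DegLE m w)
    (l₁ l₂ : FreeMonoid I) (h₁ : l₁.length = n) (h₂ : l₂.length = m) (i : I) (hi : i ≠ o) :
    (KK b o c w).coeff (l₁ * (FreeMonoid.of i * l₂)) = topval b c l₁ (w.coeff l₂) i := by
  rw [KK_apply, Finsupp.sum, MonoidAlgebra.coeff_sum, Finset.sum_apply']
  unfold topval
  rw [Finsupp.sum]
  apply Finset.sum_congr rfl
  intro j _
  rw [mul_coeff_top (c j) _ n (m + 1) (hc j) (degLE_eta b o _ m (degLE_cst_mul _ _ _ hw)) l₁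
    (FreeMonoid.of i * l₂) h₁ (by rw [FreeMonoid.length_mul, FreeMonoid.length_of, h₂, add_comm]),
    psi_coeff, eta_coeff, if_neg hi, cst_mul_coeff]

lemma degLE_KK (c : I →₀ W A I) (n m : ℕ) (hc : DegLE' n c) (w : W A I) (hw : DegLE m w) :
    DegLE (n + (m + 1)) (KK b o c w) := by
  intro l hl
  rw [KK_apply, Finsupp.sum, MonoidAlgebra.coeff_sum, Finset.sum_apply']
  apply Finset.sum_eq_zero
  intro j _
  exact degLE_mul _ _ n (m + 1) (hc j) (degLE_eta b o _ m (degLE_cst_mul _ _ _ hw)) l hl

lemma exists_top (c : I →₀ W A I) (hc : c ≠ 0) :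
    ∃ n, DegLE' n c ∧ ∃ j, ∃ l : FreeMonoid I, l.length = n ∧ (c j).coeff l ≠ 0 := by
  -- the finite set of all words occurring
  set s : Finset (FreeMonoid I) := c.support.biUnion (fun j => (c j).coeff.support) with hs
  have hne : s.Nonempty := by
    obtain ⟨j, hj⟩ := Finsupp.ne_iff.mp hc
    have : (c j).coeff ≠ 0 := by
      intro h
      apply hj
      simpa using h
    obtain ⟨l, hl⟩ := Finsupp.ne_iff.mp this
    refine ⟨l, ?_⟩
    rw [hs, Finset.mem_biUnion]
    refine ⟨j, ?_, ?_⟩
    · rw [Finsupp.mem_support_iff]; exact hj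
    · rw [Finsupp.mem_support_iff]; exact hl
  obtain ⟨l, hl, hmax⟩ := Finset.exists_max_image s FreeMonoid.length hne
  refine ⟨l.length, ?_, ?_⟩
  · intro j l' hl'
    by_contra h
    have : l' ∈ s := by
      rw [hs, Finset.mem_biUnion]
      refine ⟨j, ?_, ?_⟩
      · rw [Finsupp.mem_support_iff]
        intro h0
        apply h
        rw [h0]; simp
      · rw [Finsupp.mem_support_iff]; exact h
    have := hmax l' this
    omega
  · rw [hs, Finset.mem_biUnion] at hl
    obtain ⟨j, _, hj⟩ := hl
    exact ⟨j, l, rfl, Finsupp.mem_support_iff.mp hj⟩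

variable {b o}

lemma topval_one (c : I →₀ W A I) (l : FreeMonoid I) (i : I) :
    topval b c l 1 i = (c i).coeff l := by
  unfold topval
  have : ∀ j ∈ c.support, (c j).coeff l * algebraMap k A (b.repr (b j * 1) i) =
      if j = i then (c i).coeff l else 0 := by
    intro j _
    rw [mul_one, Module.Basis.repr_self, Finsupp.single_apply]
    split_ifs with h
    · subst h; simp
    · simp
  rw [Finsupp.sum, Finset.sum_congr rfl this, Finset.sum_ite_eq']
  split_ifs with h
  · rfl
  · rw [Finsupp.notMem_support_iff.mp h]; simp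

lemma topval_of_only (c : I →₀ W A I) (l : FreeMonoid I) (hb : b o = 1)
    (h : ∀ j, j ≠ o → (c j).coeff l = 0) (a : A) (i : I) :
    topval b c l a i = (c o).coeff l * algebraMap k A (b.repr a i) := by
  unfold topval
  have : ∀ j ∈ c.support, (c j).coeff l * algebraMap k A (b.repr (b j * a) i) =
      if j = o then (c o).coeff l * algebraMap k A (b.repr a i) else 0 := by
    intro j _
    split_ifs with hj
    · subst hj; rw [hb, one_mul]
    · rw [h j hj, zero_mul]
  rw [Finsupp.sum, Finset.sum_congr rfl this, Finset.sum_ite_eq']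
  split_ifs with h
  · rfl
  · rw [Finsupp.notMem_support_iff.mp h]; simp

lemma exists_topval_ne (hb : b o = 1) (hI : ∃ i : I, i ≠ o) (c : I →₀ W A I) (l : FreeMonoid I)
    (h : ∃ j, (c j).coeff l ≠ 0) : ∃ a i, i ≠ o ∧ topval b c l a i ≠ 0 := by
  by_cases h2 : ∃ j, j ≠ o ∧ (c j).coeff l ≠ 0
  · obtain ⟨j, hj, hj2⟩ := h2
    exact ⟨1, j, hj, by rw [topval_one]; exact hj2⟩
  · push Not at h2
    obtain ⟨j, hj⟩ := h
    have hjo : j = o := by
      by_contra h3
      exact hj (h2 j h3)
    subst hjo
    obtain ⟨i, hi⟩ := hI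
    refine ⟨b i, i, hi, ?_⟩
    rw [topval_of_only c l hb h2]
    simpa using hj

/-! ### The two types -/

variable (b o) in
/-- the top part of `x` lies in `R z` -/
def BP (x : E A I) : Prop :=
  ∃ (a : A) (c : I →₀ W A I) (n : ℕ), x = Lop a + KK b o c ∧ DegLE' n c ∧
    (∀ j, j ≠ o → ∀ l : FreeMonoid I, l.length = n → (c j).coeff l = 0) ∧
    ∃ l : FreeMonoid I, l.length = n ∧ (c o).coeff l ≠ 0

variable (b o) in
/-- the top part of `x` lies in `z R` -/
def BQ (x : E A I) : Prop :=
  ∃ (a : A) (c : I →₀ W A I) (n : ℕ), x = Lop a + KK b o c ∧ DegLE' n c ∧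
    (∀ j, ∀ l : FreeMonoid I, l.length = n → ∃ r : k, (c j).coeff l = algebraMap k A r) ∧
    ∃ j, ∃ l : FreeMonoid I, l.length = n ∧ (c j).coeff l ≠ 0

lemma ne_one_of {i : I} {l₁ l₂ : FreeMonoid I} : l₁ * (FreeMonoid.of i * l₂) ≠ 1 := by
  intro h
  have := congrArg FreeMonoid.length h
  rw [FreeMonoid.length_mul, FreeMonoid.length_mul, FreeMonoid.length_of] at this
  simp at this

lemma mul_algebraMap_eq_zero (a : A) (r : k) (h : a * algebraMap k A r = 0) (ha : a ≠ 0) :
    r = 0 := by
  by_contra hr
  apply ha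
  have : a = a * algebraMap k A r * algebraMap k A r⁻¹ := by
    rw [mul_assoc, ← map_mul, mul_inv_cancel₀ hr, map_one, mul_one]
  rw [this, h, zero_mul]

lemma scalar_of_repr (hb : b o = 1) (a : A) (h : ∀ i, i ≠ o → b.repr a i = 0) :
    a = algebraMap k A (b.repr a o) := by
  have : b.repr a = Finsupp.single o (b.repr a o) := by
    ext i
    by_cases hi : i = o
    · subst hi; simp
    · rw [h i hi, Finsupp.single_apply, if_neg (Ne.symm hi)]
  have h2 : a = b.repr.symm (Finsupp.single o (b.repr a o)) := by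
    rw [← this, LinearEquiv.symm_apply_apply]
  conv_lhs => rw [h2]
  rw [Module.Basis.repr_symm_single, hb, Algebra.algebraMap_eq_smul_one]

/-- Key closure property, first half. -/
lemma BQ_of_BP (hb : b o = 1) (hI : ∃ i : I, i ≠ o) {p q : E A I} (hp : BP b o p)
    (hq : q ∈ R b o) (hq0 : q ≠ 0) (hpq : p * q = 0) : BQ b o q := by
  obtain ⟨a, c, n, rfl, hdeg, hc, l₀, hl₀, hcl₀⟩ := hp
  obtain ⟨a', c', rfl⟩ := hq
  obtain ⟨i₁, hi₁⟩ := hI
  -- the coefficient of `p w` at a long word
  have hpw : ∀ (w : W A I) (m : ℕ) (hw : DegLE m w) (l : FreeMonoid I) (hl : l.length = m) (i : I)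
      (hi : i ≠ o), ((Lop a + KK b o c : E A I) w).coeff (l₀ * (FreeMonoid.of i * l)) =
        (c o).coeff l₀ * algebraMap k A (b.repr (w.coeff l) i) := by
    intro w m hw l hl i hi
    show (Lop a w + KK b o c w).coeff _ = _
    rw [MonoidAlgebra.coeff_add, Finsupp.add_apply, Lop_apply, cst_mul_coeff,
      hw (l₀ * (FreeMonoid.of i * l)) (by
        rw [FreeMonoid.length_mul, FreeMonoid.length_mul, FreeMonoid.length_of]; omega),
      mul_zero, zero_add, KK_coeff_top b o c n m hdeg w hw l₀ l hl₀ hl i hi,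
      topval_of_only c l₀ hb (fun j hj => hc j hj l₀ hl₀)]
  have hzero : ∀ w : W A I, (Lop a + KK b o c : E A I) ((Lop a' + KK b o c' : E A I) w) = 0 := by
    intro w
    rw [← E_mul_apply, hpq]; rfl
  by_cases hc' : c' = 0
  · -- `q` is a constant
    exfalso
    subst hc'
    rw [map_zero, add_zero] at hq0 hpq hzero
    have ha' : a' ≠ 0 := by
      rintro rfl; apply hq0; rw [map_zero]
    have h1 : ∀ a'' : A, ∀ i, i ≠ o → b.repr (a' * a'') i = 0 := by
      intro a'' i hi
      have h2 := hpw (cst (a' * a'')) 0 (degLE_cst _) 1 (by simp) i hi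
      have h3 : (Lop a + KK b o c : E A I) (cst (a' * a'')) = 0 := by
        rw [cst_mul]
        exact hzero (cst a'')
      rw [h3, cst_coeff_one] at h2
      exact mul_algebraMap_eq_zero _ _ h2.symm hcl₀
    have h2 := scalar_of_repr hb a' (fun i hi => by simpa using h1 1 i hi)
    have h3 := h1 (b i₁) i₁ hi₁
    rw [h2, ← Algebra.smul_def, map_smul, Module.Basis.repr_self, Finsupp.smul_apply,
      Finsupp.single_eq_same, smul_eq_mul, mul_one] at h3
    apply ha'
    rw [h2, h3, map_zero]
  · obtain ⟨n', hdeg', j₀, l₁, hl₁, hcl₁⟩ := exists_top c' hc'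
    refine ⟨a', c', n', rfl, hdeg', ?_, j₀, l₁, hl₁, hcl₁⟩
    -- topval is a scalar
    have hscal : ∀ (l : FreeMonoid I) (hl : l.length = n') (a'' : A) (i : I) (hi : i ≠ o),
        ∃ r : k, topval b c' l a'' i = algebraMap k A r := by
      intro l hl a'' i hi
      set u : W A I := (Lop a' + KK b o c' : E A I) (cst a'') with hu
      have hudef : u = cst a' * cst a'' + KK b o c' (cst a'') := rfl
      have hudeg : DegLE (n' + 1) u := by
        intro l' hl'
        rw [hudef, MonoidAlgebra.coeff_add, Finsupp.add_apply, ← cst_mul,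
          cst_coeff_ne _ _ (by rintro rfl; simp at hl'),
          degLE_KK b o c' n' 0 hdeg' (cst a'') (degLE_cst _) l' (by omega), add_zero]
      have hucoeff : u.coeff (l * FreeMonoid.of i) = topval b c' l a'' i := by
        have h1 := KK_coeff_top b o c' n' 0 hdeg' (cst a'') (degLE_cst _) l 1 hl (by simp) i hi
        rw [mul_one, cst_coeff_one] at h1
        rw [hudef, MonoidAlgebra.coeff_add, Finsupp.add_apply, h1, ← cst_mul,
          cst_coeff_ne _ _ (by simp), zero_add]
      have h0 : u.coeff (l * FreeMonoid.of i) =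
          algebraMap k A (b.repr (u.coeff (l * FreeMonoid.of i)) o) := by
        apply scalar_of_repr hb
        intro i' hi'
        have h1 := hpw u (n' + 1) hudeg (l * FreeMonoid.of i)
          (by rw [FreeMonoid.length_mul, FreeMonoid.length_of, hl]) i' hi'
        rw [hzero (cst a'')] at h1
        exact mul_algebraMap_eq_zero _ _ h1.symm hcl₀
      exact ⟨_, hucoeff.symm.trans h0⟩
    -- the coefficients away from `o`
    have hne : ∀ j, j ≠ o → ∀ l : FreeMonoid I, l.length = n' →
        ∃ r : k, (c' j).coeff l = algebraMap k A r := by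
      intro j hj l hl
      obtain ⟨r, hr⟩ := hscal l hl 1 j hj
      exact ⟨r, by rw [← hr, topval_one]⟩
    intro j l hl
    by_cases hj : j = o
    · subst hj
      obtain ⟨r, hr⟩ := hscal l hl (b i₁) i₁ hi₁
      -- separate the term `o`
      have hsplit : topval b c' l (b i₁) i₁ = (c' j).coeff l +
          ∑ j' ∈ c'.support.erase j, (c' j').coeff l *
            algebraMap k A (b.repr (b j' * b i₁) i₁) := by
        unfold topval
        rw [Finsupp.sum]
        by_cases hjs : j ∈ c'.support
        · rw [← Finset.add_sum_erase _ _ hjs, hb, one_mul, Module.Basis.repr_self,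
            Finsupp.single_eq_same, map_one, mul_one]
        · rw [Finset.erase_eq_of_notMem hjs, Finsupp.notMem_support_iff.mp hjs]
          simp
      have hrest : ∃ r' : k, ∑ j' ∈ c'.support.erase j, (c' j').coeff l *
            algebraMap k A (b.repr (b j' * b i₁) i₁) = algebraMap k A r' := by
        have : ∀ s : Finset I, (∀ x ∈ s, x ≠ j) → ∃ r' : k, ∑ j' ∈ s, (c' j').coeff l *
            algebraMap k A (b.repr (b j' * b i₁) i₁) = algebraMap k A r' := by
          intro s
          induction s using Finset.induction_on with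
          | empty => intro _; exact ⟨0, by simp⟩
          | insert x s hx ih =>
            intro hs
            obtain ⟨r₁, hr₁⟩ := ih (fun y hy => hs y (Finset.mem_insert_of_mem hy))
            obtain ⟨r₂, hr₂⟩ := hne x (hs x (Finset.mem_insert_self _ _)) l hl
            refine ⟨r₂ * b.repr (b x * b i₁) i₁ + r₁, ?_⟩
            rw [Finset.sum_insert hx, hr₁, hr₂, map_add, (algebraMap k A).map_mul]
        exact this _ (fun x hx => (Finset.mem_erase.mp hx).1)
      obtain ⟨r', hr'⟩ := hrest
      refine ⟨r - r', ?_⟩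
      rw [map_sub, ← hr, ← hr', hsplit]
      abel
    · exact hne j hj l hl

/-- Key closure property, second half. -/
lemma BP_of_BQ (hb : b o = 1) (hI : ∃ i : I, i ≠ o) {p q : E A I} (hq : BQ b o q)
    (hp : p ∈ R b o) (hp0 : p ≠ 0) (hpq : p * q = 0) : BP b o p := by
  obtain ⟨a', c', n', rfl, hdeg', hc', j₀, l', hl', hcl'⟩ := hq
  obtain ⟨a, c, rfl⟩ := hp
  obtain ⟨a'', i, hi, htop⟩ := exists_topval_ne hb hI c' l' ⟨j₀, hcl'⟩
  have hscal : ∃ r : k, topval b c' l' a'' i = algebraMap k A r := by
    unfold topval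
    rw [Finsupp.sum]
    have : ∀ s : Finset I, ∃ r' : k, ∑ j' ∈ s, (c' j').coeff l' *
        algebraMap k A (b.repr (b j' * a'') i) = algebraMap k A r' := by
      intro s
      induction s using Finset.induction_on with
      | empty => exact ⟨0, by simp⟩
      | insert x s hx ih =>
        obtain ⟨r₁, hr₁⟩ := ih
        obtain ⟨r₂, hr₂⟩ := hc' x l' hl'
        refine ⟨r₂ * b.repr (b x * a'') i + r₁, ?_⟩
        rw [Finset.sum_insert hx, hr₁, hr₂, map_add, (algebraMap k A).map_mul]
    exact this _
  obtain ⟨r, hr⟩ := hscal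
  have hr0 : r ≠ 0 := by
    rintro rfl
    apply htop
    rw [hr, map_zero]
  set u : W A I := (Lop a' + KK b o c' : E A I) (cst a'') with hu
  have hudef : u = cst a' * cst a'' + KK b o c' (cst a'') := rfl
  have hudeg : DegLE (n' + 1) u := by
    intro l' hl'
    rw [hudef, MonoidAlgebra.coeff_add, Finsupp.add_apply, ← cst_mul,
      cst_coeff_ne _ _ (by rintro rfl; simp at hl'),
      degLE_KK b o c' n' 0 hdeg' (cst a'') (degLE_cst _) l' (by omega), add_zero]
  have hucoeff : u.coeff (l' * FreeMonoid.of i) = algebraMap k A r := by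
    have h1 := KK_coeff_top b o c' n' 0 hdeg' (cst a'') (degLE_cst _) l' 1 hl' (by simp) i hi
    rw [mul_one, cst_coeff_one] at h1
    rw [hudef, MonoidAlgebra.coeff_add, Finsupp.add_apply, h1, ← cst_mul,
      cst_coeff_ne _ _ (by simp), zero_add, hr]
  have hzero : (Lop a + KK b o c : E A I) u = 0 := by
    rw [hu, ← E_mul_apply, hpq]; rfl
  have hlen : (l' * FreeMonoid.of i).length = n' + 1 := by
    rw [FreeMonoid.length_mul, FreeMonoid.length_of, hl']
  by_cases hc : c = 0
  · exfalso
    subst hc
    rw [map_zero, add_zero] at hp0 hzero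
    have h1 : a * algebraMap k A r = 0 := by
      rw [← hucoeff, ← cst_mul_coeff, ← Lop_apply, hzero]; rfl
    have ha : a ≠ 0 := by
      rintro rfl; apply hp0; rw [map_zero]
    exact hr0 (mul_algebraMap_eq_zero _ _ h1 ha)
  · obtain ⟨n, hdeg, j₁, l₁, hl₁, hcl₁⟩ := exists_top c hc
    have key : ∀ j, j ≠ o → ∀ l : FreeMonoid I, l.length = n → (c j).coeff l = 0 := by
      intro j hj l hl
      have h1 : ((Lop a + KK b o c : E A I) u).coeff
          (l * (FreeMonoid.of j * (l' * FreeMonoid.of i))) = (c j).coeff l * algebraMap k A r := by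
        show (Lop a u + KK b o c u).coeff _ = _
        rw [MonoidAlgebra.coeff_add, Finsupp.add_apply, Lop_apply, cst_mul_coeff,
          hudeg (l * (FreeMonoid.of j * (l' * FreeMonoid.of i))) (by
            rw [FreeMonoid.length_mul, FreeMonoid.length_mul, FreeMonoid.length_of, hlen]; omega),
          mul_zero, zero_add, KK_coeff_top b o c n (n' + 1) hdeg u hudeg l _ hl hlen j hj,
          hucoeff]
        unfold topval
        have h2 : ∀ x ∈ c.support, (c x).coeff l *
            algebraMap k A (b.repr (b x * algebraMap k A r) j) =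
            if x = j then (c j).coeff l * algebraMap k A r else 0 := by
          intro x _
          rw [← Algebra.commutes r (b x), ← Algebra.smul_def, map_smul, Module.Basis.repr_self,
            Finsupp.smul_apply, Finsupp.single_apply]
          split_ifs with h
          · subst h; simp
          · simp
        rw [Finsupp.sum, Finset.sum_congr rfl h2, Finset.sum_ite_eq']
        split_ifs with h
        · rfl
        · rw [Finsupp.notMem_support_iff.mp h]; simp
      rw [hzero] at h1
      by_contra h3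
      exact hr0 (mul_algebraMap_eq_zero _ _ h1.symm h3)
    refine ⟨a, c, n, rfl, hdeg, key, l₁, hl₁, ?_⟩
    by_cases hj : j₁ = o
    · rw [← hj]; exact hcl₁
    · exact absurd (key j₁ hj l₁ hl₁) hcl₁

/-- Constants are of neither type. -/
lemma top_ne (hb : b o = 1) (hI : ∃ i : I, i ≠ o) (a' a : A) (c : I →₀ W A I) (n : ℕ)
    (hdeg : DegLE' n c) (h : (Lop a' : E A I) = Lop a + KK b o c) (j : I) (l : FreeMonoid I)
    (hl : l.length = n) : (c j).coeff l = 0 := by
  by_contra hne
  obtain ⟨a'', i, hi, htop⟩ := exists_topval_ne hb hI c l ⟨j, hne⟩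
  apply htop
  have h1 := KK_coeff_top b o c n 0 hdeg (cst a'') (degLE_cst _) l 1 hl (by simp) i hi
  rw [cst_coeff_one] at h1
  rw [← h1]
  have h2 : KK b o c (cst a'') = Lop a' (cst a'') - Lop a (cst a'') := by
    rw [h]
    show _ = (Lop a (cst a'') + KK b o c (cst a'')) - Lop a (cst a'')
    abel
  rw [h2, Lop_apply, Lop_apply, ← cst_mul, ← cst_mul, MonoidAlgebra.coeff_sub, Finsupp.sub_apply,
    cst_coeff_ne _ _ ne_one_of, cst_coeff_ne _ _ ne_one_of, sub_zero]

lemma not_BP_Lop (hb : b o = 1) (hI : ∃ i : I, i ≠ o) (a : A) : ¬ BP b o (Lop a : E A I) := by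
  rintro ⟨a', c, n, h, hdeg, -, l, hl, hne⟩
  exact hne (top_ne hb hI a a' c n hdeg h o l hl)

lemma not_BQ_Lop (hb : b o = 1) (hI : ∃ i : I, i ≠ o) (a : A) : ¬ BQ b o (Lop a : E A I) := by
  rintro ⟨a', c, n, h, hdeg, -, j, l, hl, hne⟩
  exact hne (top_ne hb hI a a' c n hdeg h j l hl)

variable (b o) in
/-- The element `z`. -/
def Z : E A I := K b o 1 1

lemma Z_mem : (Z b o : E A I) ∈ R b o := by
  obtain ⟨c, hc⟩ := K_mem b o (1 : W A I) (1 : A)
  exact ⟨0, c, by rw [map_zero, zero_add, hc]; rfl⟩

lemma Lop_mem (a : A) : (Lop a : E A I) ∈ R b o := ⟨a, 0, by simp⟩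

lemma Z_mul_Z (hb : b o = 1) : (Z b o * Z b o : E A I) = 0 := by
  unfold Z
  rw [K_mul_K]
  have : eta b o (cst 1 * (1 : W A I)) = 0 := by
    have h1 : (cst 1 * (1 : W A I)) = MonoidAlgebra.single 1 (1 : A) := by
      rw [mul_one]; rfl
    rw [h1, eta_single, zeta_apply, ← hb, Module.Basis.repr_self, Finsupp.sum_single_index]
    · simp
    · simp
  rw [this, map_zero, mul_zero]
  apply DFunLike.ext
  intro w
  rw [K_apply, zero_mul]; rfl

/-- `T (1 - z)` is of the first type. -/
lemma BP_mul (hb : b o = 1) (t : A) (ht : t ≠ 0) :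
    BP b o (Lop t * (1 - Z b o) : E A I) := by
  refine ⟨t, Finsupp.single o (-cst t), 0, ?_, ?_, ?_, 1, by simp, ?_⟩
  · rw [KK_single, hb, mul_sub, mul_one]
    unfold Z
    rw [Lop_mul_K, mul_one, sub_eq_add_neg]
    congr 1
    apply DFunLike.ext
    intro w
    rw [K_apply, neg_mul]
    rfl
  · intro j l hl
    rw [Finsupp.single_apply]
    split_ifs
    · rw [MonoidAlgebra.coeff_neg, Finsupp.neg_apply, degLE_cst t l hl, neg_zero]
    · rfl
  · intro j hj l _
    rw [Finsupp.single_apply, if_neg (Ne.symm hj)]; rfl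
  · rw [Finsupp.single_eq_same, MonoidAlgebra.coeff_neg, Finsupp.neg_apply, cst_coeff_one]
    exact neg_ne_zero.mpr ht

lemma KK_mapRange (f : I →₀ k) (c : W A I) :
    KK b o (f.mapRange (fun r => c * cst (algebraMap k A r)) (by simp [cst])) =
      K b o c (b.repr.symm f) := by
  induction f using Finsupp.induction_linear with
  | zero =>
    rw [Finsupp.mapRange_zero, map_zero, map_zero]
    apply DFunLike.ext
    intro w
    rw [K_apply]
    simp [cst]
  | add f g hf hg =>
    rw [Finsupp.mapRange_add (hf' := by intro x y; rw [map_add, cst_add, mul_add]), map_add, hf, hg,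
      map_add, K_add_right]
  | single i r =>
    rw [Finsupp.mapRange_single, KK_single, Module.Basis.repr_symm_single, K_smul_right]

/-- `(1 + z) S` is of the second type. -/
lemma BQ_mul (s : A) (hs : s ≠ 0) :
    BQ b o ((1 + Z b o) * Lop s : E A I) := by
  refine ⟨s, (b.repr s).mapRange (fun r => 1 * cst (algebraMap k A r)) (by simp [cst]), 0,
    ?_, ?_, ?_, ?_⟩
  · rw [KK_mapRange, add_mul, one_mul]
    unfold Z
    rw [K_mul_Lop, one_mul, LinearEquiv.symm_apply_apply]
  · intro j l hl
    rw [Finsupp.mapRange_apply, one_mul]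
    exact degLE_cst _ l hl
  · intro j l hl
    have : l = 1 := by simpa using hl
    subst this
    exact ⟨b.repr s j, by rw [Finsupp.mapRange_apply, one_mul, cst_coeff_one]⟩
  · have h1 : b.repr s ≠ 0 := by
      intro h
      apply hs
      simpa using h
    obtain ⟨j, hj⟩ := Finsupp.ne_iff.mp h1
    refine ⟨j, 1, by simp, ?_⟩
    rw [Finsupp.mapRange_apply, one_mul, cst_coeff_one]
    intro h
    apply hj
    have hnt : Nontrivial A := ⟨⟨s, 0, hs⟩⟩
    exact (map_eq_zero_iff _ (algebraMap k A).injective).mp h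

end Pool.Agent.H20.Wild
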